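import Mathlib
import Pool.Agent.H306R2.Karamata2
import Pool.Agent.H306R2.Box
import Pool.Agent.H306R2.SM.Defs

set_option autoImplicit false

/-!
Task T13 of the sixth moment project: the two numerical integrals over the polygon.
-/

namespace Pool.Agent.H745R2.SM13

open MeasureTheory Pool.Agent.H306R2 Pool.Agent.H306R2.SM

noncomputable section

/-- primitive in `l` (up to a constant) of the square of the coefficient function -/
def Wp (x l : ℝ) : ℝ :=
  -(1 - l - x / 2) ^ 5 / 20 + (3 / 40) * x ^ 2 * (1 - l - x / 2) ^ 3 / 3 + (3 / 40) ^ 2 * x ^ 4 * l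

lemma piece_a1 : ∫ x in (1 / 2500 : ℝ)..(2 / 5 : ℝ), x ^ 3 / 6 * (Wp x ((-1 / 2500 : ℝ) + (1 : ℝ) * x) - Wp x ((0 : ℝ) + (0 : ℝ) * x)) =
    (3154991513582359847824240740741 / 170898437500000000000000000000000000 : ℝ) := by
  have hd : ∀ x : ℝ, HasDerivAt (fun x : ℝ => (-195468812512501 / 46875000000000000000 : ℝ) * x ^ 4 + (78312612530003 / 9375000000000000 : ℝ) * x ^ 5 + (-52152110837 / 1875000000000 : ℝ) * x ^ 6 + (387815063 / 10500000000 : ℝ) * x ^ 7 + (-1100441 / 48000000 : ℝ) * x ^ 8 + (121 / 21600 : ℝ) * x ^ 9) (x ^ 3 / 6 * (Wp x ((-1 / 2500 : ℝ) + (1 : ℝ) * x) - Wp x ((0 : ℝ) + (0 : ℝ) * x))) x := by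
    intro x
    have := (((((((hasDerivAt_pow 4 x).const_mul (-195468812512501 / 46875000000000000000 : ℝ)).add ((hasDerivAt_pow 5 x).const_mul (78312612530003 / 9375000000000000 : ℝ))).add ((hasDerivAt_pow 6 x).const_mul (-52152110837 / 1875000000000 : ℝ))).add ((hasDerivAt_pow 7 x).const_mul (387815063 / 10500000000 : ℝ))).add ((hasDerivAt_pow 8 x).const_mul (-1100441 / 48000000 : ℝ))).add ((hasDerivAt_pow 9 x).const_mul (121 / 21600 : ℝ)))
    refine this.congr_deriv ?_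
    unfold Wp
    norm_num
    ring
  rw [intervalIntegral.integral_eq_sub_of_hasDerivAt (fun x _ => hd x)
    (Continuous.intervalIntegrable (by unfold Wp; fun_prop) _ _)]
  norm_num

lemma piece_a2 : ∫ x in (2 / 5 : ℝ)..(1249 / 2500 : ℝ), x ^ 3 / 6 * (Wp x ((2499 / 2500 : ℝ) + (-3 / 2 : ℝ) * x) - Wp x ((0 : ℝ) + (0 : ℝ) * x)) =
    (11469642536374012337201318726667 / 683593750000000000000000000000000000 : ℝ) := by
  have hd : ∀ x : ℝ, HasDerivAt (fun x : ℝ => (32552083333333333 / 15625000000000000000 : ℝ) * x ^ 4 + (-6510416666667 / 1562500000000000 : ℝ) * x ^ 5 + (20833333327 / 7500000000000 : ℝ) * x ^ 6 + (-2083339 / 3500000000 : ℝ) * x ^ 7 + (3237 / 64000000 : ℝ) * x ^ 8 + (-17 / 28800 : ℝ) * x ^ 9) (x ^ 3 / 6 * (Wp x ((2499 / 2500 : ℝ) + (-3 / 2 : ℝ) * x) - Wp x ((0 : ℝ) + (0 : ℝ) * x))) x := by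
    intro x
    have := (((((((hasDerivAt_pow 4 x).const_mul (32552083333333333 / 15625000000000000000 : ℝ)).add ((hasDerivAt_pow 5 x).const_mul (-6510416666667 / 1562500000000000 : ℝ))).add ((hasDerivAt_pow 6 x).const_mul (20833333327 / 7500000000000 : ℝ))).add ((hasDerivAt_pow 7 x).const_mul (-2083339 / 3500000000 : ℝ))).add ((hasDerivAt_pow 8 x).const_mul (3237 / 64000000 : ℝ))).add ((hasDerivAt_pow 9 x).const_mul (-17 / 28800 : ℝ)))
    refine this.congr_deriv ?_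
    unfold Wp
    norm_num
    ring
  rw [intervalIntegral.integral_eq_sub_of_hasDerivAt (fun x _ => hd x)
    (Continuous.intervalIntegrable (by unfold Wp; fun_prop) _ _)]
  norm_num

lemma piece_a3 : ∫ x in (1249 / 2500 : ℝ)..(1874 / 3125 : ℝ), x ^ 3 / 6 * (Wp x ((2499 / 2500 : ℝ) + (-3 / 2 : ℝ) * x) - Wp x ((-1249 / 2500 : ℝ) + (1 : ℝ) * x)) =
    (2514954097413518683626232139397663297 / 267028808593750000000000000000000000000000 : ℝ) := by
  have hd : ∀ x : ℝ, HasDerivAt (fun x : ℝ => (185147226527348437 / 11718750000000000000 : ℝ) * x ^ 4 + (-118525831866001 / 1875000000000000 : ℝ) * x ^ 5 + (257606304993 / 2500000000000 : ℝ) * x ^ 6 + (-22136627 / 262500000 : ℝ) * x ^ 7 + (6612947 / 192000000 : ℝ) * x ^ 8 + (-107 / 17280 : ℝ) * x ^ 9) (x ^ 3 / 6 * (Wp x ((2499 / 2500 : ℝ) + (-3 / 2 : ℝ) * x) - Wp x ((-1249 / 2500 : ℝ) + (1 : ℝ) * x))) x := by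
    intro x
    have := (((((((hasDerivAt_pow 4 x).const_mul (185147226527348437 / 11718750000000000000 : ℝ)).add ((hasDerivAt_pow 5 x).const_mul (-118525831866001 / 1875000000000000 : ℝ))).add ((hasDerivAt_pow 6 x).const_mul (257606304993 / 2500000000000 : ℝ))).add ((hasDerivAt_pow 7 x).const_mul (-22136627 / 262500000 : ℝ))).add ((hasDerivAt_pow 8 x).const_mul (6612947 / 192000000 : ℝ))).add ((hasDerivAt_pow 9 x).const_mul (-107 / 17280 : ℝ)))
    refine this.congr_deriv ?_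
    unfold Wp
    norm_num
    ring
  rw [intervalIntegral.integral_eq_sub_of_hasDerivAt (fun x _ => hd x)
    (Continuous.intervalIntegrable (by unfold Wp; fun_prop) _ _)]
  norm_num

lemma piece_b1 : ∫ x in (1 / 2500 : ℝ)..(4 / 11 : ℝ), x ^ 3 / 6 * (Wp x ((-1 / 2500 : ℝ) + (1 : ℝ) * x) - Wp x ((0 : ℝ) + (0 : ℝ) * x)) =
    (1893021326839700897624741775173714358881 / 141301020190429687500000000000000000000000000 : ℝ) := by
  have hd : ∀ x : ℝ, HasDerivAt (fun x : ℝ => (-195468812512501 / 46875000000000000000 : ℝ) * x ^ 4 + (78312612530003 / 9375000000000000 : ℝ) * x ^ 5 + (-52152110837 / 1875000000000 : ℝ) * x ^ 6 + (387815063 / 10500000000 : ℝ) * x ^ 7 + (-1100441 / 48000000 : ℝ) * x ^ 8 + (121 / 21600 : ℝ) * x ^ 9) (x ^ 3 / 6 * (Wp x ((-1 / 2500 : ℝ) + (1 : ℝ) * x) - Wp x ((0 : ℝ) + (0 : ℝ) * x))) x := by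
    intro x
    have := (((((((hasDerivAt_pow 4 x).const_mul (-195468812512501 / 46875000000000000000 : ℝ)).add ((hasDerivAt_pow 5 x).const_mul (78312612530003 / 9375000000000000 : ℝ))).add ((hasDerivAt_pow 6 x).const_mul (-52152110837 / 1875000000000 : ℝ))).add ((hasDerivAt_pow 7 x).const_mul (387815063 / 10500000000 : ℝ))).add ((hasDerivAt_pow 8 x).const_mul (-1100441 / 48000000 : ℝ))).add ((hasDerivAt_pow 9 x).const_mul (121 / 21600 : ℝ)))
    refine this.congr_deriv ?_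
    unfold Wp
    norm_num
    ring
  rw [intervalIntegral.integral_eq_sub_of_hasDerivAt (fun x _ => hd x)
    (Continuous.intervalIntegrable (by unfold Wp; fun_prop) _ _)]
  norm_num

lemma piece_b2 : ∫ x in (4 / 11 : ℝ)..(1249 / 2500 : ℝ), x ^ 3 / 6 * (Wp x ((2499 / 2500 : ℝ) + (-7 / 4 : ℝ) * x) - Wp x ((0 : ℝ) + (0 : ℝ) * x)) =
    (34719472024465893988086764376967570370833 / 1808653058437500000000000000000000000000000000 : ℝ) := by
  have hd : ∀ x : ℝ, HasDerivAt (fun x : ℝ => (32552083333333333 / 15625000000000000000 : ℝ) * x ^ 4 + (-15625000000001 / 3750000000000000 : ℝ) * x ^ 5 + (83333333293 / 30000000000000 : ℝ) * x ^ 6 + (-2857159 / 4800000000 : ℝ) * x ^ 7 + (49077 / 1024000000 : ℝ) * x ^ 8 + (-11473 / 5529600 : ℝ) * x ^ 9) (x ^ 3 / 6 * (Wp x ((2499 / 2500 : ℝ) + (-7 / 4 : ℝ) * x) - Wp x ((0 : ℝ) + (0 : ℝ) * x))) x := by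
    intro x
    have := (((((((hasDerivAt_pow 4 x).const_mul (32552083333333333 / 15625000000000000000 : ℝ)).add ((hasDerivAt_pow 5 x).const_mul (-15625000000001 / 3750000000000000 : ℝ))).add ((hasDerivAt_pow 6 x).const_mul (83333333293 / 30000000000000 : ℝ))).add ((hasDerivAt_pow 7 x).const_mul (-2857159 / 4800000000 : ℝ))).add ((hasDerivAt_pow 8 x).const_mul (49077 / 1024000000 : ℝ))).add ((hasDerivAt_pow 9 x).const_mul (-11473 / 5529600 : ℝ)))
    refine this.congr_deriv ?_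
    unfold Wp
    norm_num
    ring
  rw [intervalIntegral.integral_eq_sub_of_hasDerivAt (fun x _ => hd x)
    (Continuous.intervalIntegrable (by unfold Wp; fun_prop) _ _)]
  norm_num

lemma piece_b3 : ∫ x in (1249 / 2500 : ℝ)..(3748 / 6875 : ℝ), x ^ 3 / 6 * (Wp x ((2499 / 2500 : ℝ) + (-7 / 4 : ℝ) * x) - Wp x ((-1249 / 2500 : ℝ) + (1 : ℝ) * x)) =
    (27440343097010946745180855971780228217451 / 9043265292187500000000000000000000000000000000 : ℝ) := by
  have hd : ∀ x : ℝ, HasDerivAt (fun x : ℝ => (185147226527348437 / 11718750000000000000 : ℝ) * x ^ 4 + (-1185258318660011 / 18750000000000000 : ℝ) * x ^ 5 + (1030425219967 / 10000000000000 : ℝ) * x ^ 6 + (-14167441573 / 168000000000 : ℝ) * x ^ 7 + (105799007 / 3072000000 : ℝ) * x ^ 8 + (-42449 / 5529600 : ℝ) * x ^ 9) (x ^ 3 / 6 * (Wp x ((2499 / 2500 : ℝ) + (-7 / 4 : ℝ) * x) - Wp x ((-1249 / 2500 : ℝ) + (1 : ℝ) * x))) x := by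
    intro x
    have := (((((((hasDerivAt_pow 4 x).const_mul (185147226527348437 / 11718750000000000000 : ℝ)).add ((hasDerivAt_pow 5 x).const_mul (-1185258318660011 / 18750000000000000 : ℝ))).add ((hasDerivAt_pow 6 x).const_mul (1030425219967 / 10000000000000 : ℝ))).add ((hasDerivAt_pow 7 x).const_mul (-14167441573 / 168000000000 : ℝ))).add ((hasDerivAt_pow 8 x).const_mul (105799007 / 3072000000 : ℝ))).add ((hasDerivAt_pow 9 x).const_mul (-42449 / 5529600 : ℝ)))
    refine this.congr_deriv ?_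
    unfold Wp
    norm_num
    ring
  rw [intervalIntegral.integral_eq_sub_of_hasDerivAt (fun x _ => hd x)
    (Continuous.intervalIntegrable (by unfold Wp; fun_prop) _ _)]
  norm_num


/-- the optimal coefficient function (`u 0 = log h / L`, `u 1 = log l / L`) -/
def Pf (u : Fin 2 → ℝ) : ℝ := (1 - u 1 - u 0 / 2) ^ 2 / 2 - 3 / 40 * u 0 ^ 2

/-- continuous cutoff to the region `λX+l ≤ 1-ε, X-l ≤ 1/2-ε, l ≤ X-ε` -/
def eta (lam ε : ℝ) (u : Fin 2 → ℝ) : ℝ :=
  sc (1 - 2 * ε) ε (lam * u 0 + u 1) * sc (1 / 2 - 2 * ε) ε (u 0 - u 1) *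
    sc (-(2 * ε)) ε (u 1 - u 0)

lemma Pf_cont : Continuous Pf := by
  unfold Pf
  fun_prop

lemma eta_cont (lam ε : ℝ) : Continuous (eta lam ε) := by
  unfold eta
  have h1 := (sc_cont (1 - 2 * ε) ε).comp (g := sc (1 - 2 * ε) ε)
    (f := fun u : Fin 2 → ℝ => lam * u 0 + u 1) (by fun_prop)
  have h2 := (sc_cont (1 / 2 - 2 * ε) ε).comp (g := sc (1 / 2 - 2 * ε) ε)
    (f := fun u : Fin 2 → ℝ => u 0 - u 1) (by fun_prop)
  have h3 := (sc_cont (-(2 * ε)) ε).comp (g := sc (-(2 * ε)) ε)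
    (f := fun u : Fin 2 → ℝ => u 1 - u 0) (by fun_prop)
  exact (h1.mul h2).mul h3

lemma eta_nonneg (lam ε : ℝ) (u : Fin 2 → ℝ) : 0 ≤ eta lam ε u := by
  unfold eta
  exact mul_nonneg (mul_nonneg (sc_nonneg _ _ _) (sc_nonneg _ _ _)) (sc_nonneg _ _ _)

lemma eta_zero {lam ε : ℝ} (hε : 0 < ε) (u : Fin 2 → ℝ) (h : 1 ≤ lam * u 0 + u 1) :
    eta lam ε u = 0 := by
  unfold eta
  rw [sc_eq_zero hε (by linarith)]
  ring

lemma eta_one {lam ε : ℝ} (hε : 0 < ε) (u : Fin 2 → ℝ) (h1 : lam * u 0 + u 1 ≤ 1 - 2 * ε)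
    (h2 : u 0 - u 1 ≤ 1 / 2 - 2 * ε) (h3 : u 1 - u 0 ≤ -(2 * ε)) : eta lam ε u = 1 := by
  unfold eta
  rw [sc_eq_one hε h1, sc_eq_one hε h2, sc_eq_one hε h3]
  ring

lemma hm41 : ∀ i, 0 < (![4, 1] : Fin 2 → ℝ) i := by
  intro i
  fin_cases i <;> norm_num

lemma int_u {lam : ℝ} (hl : 1 ≤ lam) {ε : ℝ} (hε : 0 < ε) :
    Integrable (fun u : Fin 2 → ℝ => Gd ![4, 1] u * (Pf u ^ 2 * eta lam ε u)) := by
  refine tf_integrable (fun u => Pf u ^ 2 * eta lam ε u) ((Pf_cont.pow 2).mul (eta_cont lam ε)) 1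
    ?_ zero_le_one hm41
  intro u hu hi
  have h : 1 ≤ lam * u 0 + u 1 := by
    obtain ⟨i, hi⟩ := hi
    have h0 := hu 0
    have h1 := hu 1
    fin_cases i
    · simp only [Fin.zero_eta, Fin.isValue] at hi
      nlinarith
    · simp only [Fin.mk_one, Fin.isValue] at hi
      nlinarith
  show Pf u ^ 2 * eta lam ε u = 0
  rw [eta_zero hε u h, mul_zero]

/-- the integrand on the plane -/
def F2 (lam ε : ℝ) (p : ℝ × ℝ) : ℝ :=
  Gd ![4, 1] ![p.1, p.2] * (Pf ![p.1, p.2] ^ 2 * eta lam ε ![p.1, p.2])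

lemma F2_nonneg (lam ε : ℝ) (p : ℝ × ℝ) : 0 ≤ F2 lam ε p :=
  mul_nonneg (Gd_nonneg hm41 _) (mul_nonneg (sq_nonneg _) (eta_nonneg _ _ _))

lemma int_F2 {lam : ℝ} (hl : 1 ≤ lam) {ε : ℝ} (hε : 0 < ε) : Integrable (F2 lam ε) := by
  have h := (MeasureTheory.volume_preserving_finTwoArrow ℝ).symm
  exact (h.integrable_comp_emb (MeasurableEquiv.measurableEmbedding _)).mpr (int_u hl hε)

lemma integral_F2 {lam : ℝ} (ε : ℝ) :
    ∫ u : Fin 2 → ℝ, Gd ![4, 1] u * (Pf u ^ 2 * eta lam ε u) = ∫ p, F2 lam ε p := by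
  have h := (MeasureTheory.volume_preserving_finTwoArrow ℝ).symm
  exact (h.integral_comp (MeasurableEquiv.measurableEmbedding _) _).symm

lemma gd4 {x : ℝ} (hx : 0 < x) : gd 4 x = x ^ 3 / 6 := by
  unfold gd
  rw [if_pos hx]
  have h1 : Real.Gamma 4 = 6 := by
    have h := Real.Gamma_nat_eq_factorial 3
    have h3 : ((3 : ℕ) : ℝ) + 1 = 4 := by norm_num
    rw [h3] at h
    rw [h]
    norm_num [Nat.factorial]
  rw [h1]
  have h2 : (4 - 1 : ℝ) = ((3 : ℕ) : ℝ) := by norm_num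
  rw [h2, Real.rpow_natCast]

lemma gd1 {x : ℝ} (hx : 0 < x) : gd 1 x = 1 := by
  unfold gd
  rw [if_pos hx]
  simp

lemma gd1' {x : ℝ} (hx : x ≤ 0) : gd 1 x = 0 := by
  unfold gd
  rw [if_neg (not_lt.mpr hx)]

lemma F2_eq {lam ε x y : ℝ} (hx : 0 < x) (hy : 0 < y) :
    F2 lam ε (x, y) = x ^ 3 / 6 * (Pf ![x, y] ^ 2 * eta lam ε ![x, y]) := by
  unfold F2 Gd
  rw [Fin.prod_univ_two]
  simp only [Matrix.cons_val_zero, Matrix.cons_val_one]
  rw [gd4 hx, gd1 hy, mul_one]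

lemma F2_zero {lam ε x y : ℝ} (hy : y ≤ 0) : F2 lam ε (x, y) = 0 := by
  unfold F2 Gd
  rw [Fin.prod_univ_two]
  simp only [Matrix.cons_val_zero, Matrix.cons_val_one]
  rw [gd1' hy]
  ring

lemma F2_zero' {lam ε x y : ℝ} (hl : 1 ≤ lam) (hε : 0 < ε) (hx : 0 < x) (hy : 1 ≤ y) :
    F2 lam ε (x, y) = 0 := by
  unfold F2
  rw [eta_zero hε]
  · ring
  · simp only [Matrix.cons_val_zero, Matrix.cons_val_one]
    nlinarith

lemma cont_xy (x : ℝ) : Continuous (fun y : ℝ => (![x, y] : Fin 2 → ℝ)) := by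
  refine continuous_pi fun i => ?_
  fin_cases i
  · exact continuous_const
  · exact continuous_id

lemma inner_int {lam ε x : ℝ} (hl : 1 ≤ lam) (hε : 0 < ε) (hx : 0 < x) :
    Integrable (fun y => F2 lam ε (x, y)) := by
  have h1 : (fun y => F2 lam ε (x, y)) = (Set.Ioc 0 1).indicator
      (fun y => x ^ 3 / 6 * (Pf ![x, y] ^ 2 * eta lam ε ![x, y])) := by
    funext y
    by_cases h : y ∈ Set.Ioc (0 : ℝ) 1
    · rw [Set.indicator_of_mem h, F2_eq hx h.1]
    · rw [Set.indicator_of_notMem h]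
      rcases le_or_gt y 0 with h0 | h0
      · exact F2_zero h0
      · refine F2_zero' hl hε hx ?_
        by_contra h2
        exact h ⟨h0, by linarith⟩
  rw [h1, integrable_indicator_iff measurableSet_Ioc]
  have hc : Continuous (fun y => x ^ 3 / 6 * (Pf ![x, y] ^ 2 * eta lam ε ![x, y])) :=
    continuous_const.mul (((Pf_cont.comp (cont_xy x)).pow 2).mul ((eta_cont lam ε).comp (cont_xy x)))
  exact (hc.integrableOn_Icc (a := 0) (b := 1)).mono_set Set.Ioc_subset_Icc_self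

lemma Wp_deriv (x l : ℝ) : HasDerivAt (Wp x) (Pf ![x, l] ^ 2) l := by
  have h0 : HasDerivAt (fun l : ℝ => 1 - l - x / 2) (-1) l := by
    simpa using ((hasDerivAt_id l).const_sub 1).sub_const (x / 2)
  have h1 := ((h0.pow 5).neg).div_const 20
  have h2 := ((h0.pow 3).const_mul ((3 / 40) * x ^ 2)).div_const 3
  have h3 := (hasDerivAt_id l).const_mul ((3 / 40) ^ 2 * x ^ 4)
  have h4 := (h1.add h2).add h3
  refine h4.congr_deriv ?_
  unfold Pf
  simp only [Matrix.cons_val_zero, Matrix.cons_val_one]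
  norm_num
  ring

lemma inner_bound {lam ε x lo hi : ℝ} (hl : 1 ≤ lam) (hε : 0 < ε) (hx : 0 < x) (h0 : 0 ≤ lo)
    (hlh : lo ≤ hi) (h1 : lam * x + hi ≤ 1 - 2 * ε) (h2 : x - lo ≤ 1 / 2 - 2 * ε)
    (h3 : hi - x ≤ -(2 * ε)) :
    x ^ 3 / 6 * (Wp x hi - Wp x lo) ≤ ∫ y, F2 lam ε (x, y) := by
  have hc : Continuous (fun y => Pf ![x, y] ^ 2) := (Pf_cont.comp (cont_xy x)).pow 2
  calc x ^ 3 / 6 * (Wp x hi - Wp x lo) = x ^ 3 / 6 * ∫ y in lo..hi, Pf ![x, y] ^ 2 := by
        rw [intervalIntegral.integral_eq_sub_of_hasDerivAt (fun y _ => Wp_deriv x y)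
          (hc.intervalIntegrable _ _)]
    _ = ∫ y in lo..hi, x ^ 3 / 6 * Pf ![x, y] ^ 2 := by
        rw [intervalIntegral.integral_const_mul]
    _ = ∫ y in Set.Ioc lo hi, x ^ 3 / 6 * Pf ![x, y] ^ 2 :=
        intervalIntegral.integral_of_le hlh
    _ = ∫ y in Set.Ioc lo hi, F2 lam ε (x, y) := by
        refine setIntegral_congr_fun measurableSet_Ioc fun y hy => ?_
        have hy1 := hy.1
        have hy2 := hy.2
        show x ^ 3 / 6 * Pf ![x, y] ^ 2 = F2 lam ε (x, y)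
        rw [F2_eq hx (lt_of_le_of_lt h0 hy.1), eta_one hε, mul_one]
        · simp only [Matrix.cons_val_zero, Matrix.cons_val_one]
          linarith
        · simp only [Matrix.cons_val_zero, Matrix.cons_val_one]
          linarith
        · simp only [Matrix.cons_val_zero, Matrix.cons_val_one]
          linarith
    _ ≤ ∫ y, F2 lam ε (x, y) :=
        setIntegral_le_integral (inner_int hl hε hx)
          (Filter.Eventually.of_forall fun y => F2_nonneg _ _ _)

lemma cont_W {lo hi : ℝ → ℝ} (h1 : Continuous lo) (h2 : Continuous hi) :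
    Continuous (fun x : ℝ => x ^ 3 / 6 * (Wp x (hi x) - Wp x (lo x))) := by
  unfold Wp
  fun_prop

lemma outer_bound {lam ε a b : ℝ} (hl : 1 ≤ lam) (hε : 0 < ε) (hab : a ≤ b) {lo hi : ℝ → ℝ}
    (c1 : Continuous lo) (c2 : Continuous hi) (hx : 0 < a)
    (h0 : ∀ x ∈ Set.Icc a b, 0 ≤ lo x)
    (hlh : ∀ x ∈ Set.Icc a b, lo x ≤ hi x) (h1 : ∀ x ∈ Set.Icc a b, lam * x + hi x ≤ 1 - 2 * ε)
    (h2 : ∀ x ∈ Set.Icc a b, x - lo x ≤ 1 / 2 - 2 * ε)
    (h3 : ∀ x ∈ Set.Icc a b, hi x - x ≤ -(2 * ε)) :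
    ∫ x in a..b, x ^ 3 / 6 * (Wp x (hi x) - Wp x (lo x)) ≤
      ∫ x in a..b, ∫ y, F2 lam ε (x, y) := by
  refine intervalIntegral.integral_mono_on hab ((cont_W c1 c2).intervalIntegrable _ _) ?_ ?_
  · have hi := (int_F2 (lam := lam) hl hε)
    rw [Measure.volume_eq_prod] at hi
    exact hi.integral_prod_left.intervalIntegrable
  · intro x hx'
    exact inner_bound hl hε (lt_of_lt_of_le hx hx'.1) (h0 x hx') (hlh x hx') (h1 x hx')
      (h2 x hx') (h3 x hx')

lemma total_bound {lam ε a b c d : ℝ} (hl : 1 ≤ lam) (hε : 0 < ε) (h1 : a ≤ b) (h2 : b ≤ c)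
    (h3 : c ≤ d) :
    (∫ x in a..b, ∫ y, F2 lam ε (x, y)) + (∫ x in b..c, ∫ y, F2 lam ε (x, y)) +
      (∫ x in c..d, ∫ y, F2 lam ε (x, y)) ≤
    ∫ u : Fin 2 → ℝ, Gd ![4, 1] u * (Pf u ^ 2 * eta lam ε u) := by
  have hi := (int_F2 (lam := lam) hl hε)
  rw [Measure.volume_eq_prod] at hi
  have hI := hi.integral_prod_left
  rw [integral_F2, Measure.volume_eq_prod, integral_prod _ hi,
    intervalIntegral.integral_add_adjacent_intervals hI.intervalIntegrable hI.intervalIntegrable,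
    intervalIntegral.integral_add_adjacent_intervals hI.intervalIntegrable hI.intervalIntegrable,
    intervalIntegral.integral_of_le (by linarith)]
  exact setIntegral_le_integral hI
    (Filter.Eventually.of_forall fun x => integral_nonneg fun y => F2_nonneg _ _ _)

theorem integral_weil : 34.4 < 2 * ((1 - 1 / 10000 : ℝ) ^ 9 + (Nat.factorial 9 : ℝ) *
    ∫ u : Fin 2 → ℝ, Gd ![4, 1] u * (Pf u ^ 2 * eta (3 / 2) (1 / 10000) u)) := by
  have q1 := outer_bound (lam := (3 / 2 : ℝ)) (ε := 1 / 10000) (a := (1 / 2500 : ℝ)) (b := (2 / 5 : ℝ))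
    (lo := fun x => (0 : ℝ) + (0 : ℝ) * x) (hi := fun x => (-1 / 2500 : ℝ) + (1 : ℝ) * x) (by norm_num) (by norm_num) (by norm_num)
    (by fun_prop) (by fun_prop) (by norm_num)
    (fun x hx => by have := hx.1; have := hx.2; linarith)
    (fun x hx => by have := hx.1; have := hx.2; linarith)
    (fun x hx => by have := hx.1; have := hx.2; linarith)
    (fun x hx => by have := hx.1; have := hx.2; linarith)
    (fun x hx => by have := hx.1; have := hx.2; linarith)
  rw [piece_a1] at q1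
  have q2 := outer_bound (lam := (3 / 2 : ℝ)) (ε := 1 / 10000) (a := (2 / 5 : ℝ)) (b := (1249 / 2500 : ℝ))
    (lo := fun x => (0 : ℝ) + (0 : ℝ) * x) (hi := fun x => (2499 / 2500 : ℝ) + (-3 / 2 : ℝ) * x) (by norm_num) (by norm_num) (by norm_num)
    (by fun_prop) (by fun_prop) (by norm_num)
    (fun x hx => by have := hx.1; have := hx.2; linarith)
    (fun x hx => by have := hx.1; have := hx.2; linarith)
    (fun x hx => by have := hx.1; have := hx.2; linarith)
    (fun x hx => by have := hx.1; have := hx.2; linarith)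
    (fun x hx => by have := hx.1; have := hx.2; linarith)
  rw [piece_a2] at q2
  have q3 := outer_bound (lam := (3 / 2 : ℝ)) (ε := 1 / 10000) (a := (1249 / 2500 : ℝ)) (b := (1874 / 3125 : ℝ))
    (lo := fun x => (-1249 / 2500 : ℝ) + (1 : ℝ) * x) (hi := fun x => (2499 / 2500 : ℝ) + (-3 / 2 : ℝ) * x) (by norm_num) (by norm_num) (by norm_num)
    (by fun_prop) (by fun_prop) (by norm_num)
    (fun x hx => by have := hx.1; have := hx.2; linarith)
    (fun x hx => by have := hx.1; have := hx.2; linarith)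
    (fun x hx => by have := hx.1; have := hx.2; linarith)
    (fun x hx => by have := hx.1; have := hx.2; linarith)
    (fun x hx => by have := hx.1; have := hx.2; linarith)
  rw [piece_a3] at q3
  have q := total_bound (lam := (3 / 2 : ℝ)) (ε := 1 / 10000) (a := (1 / 2500 : ℝ)) (b := (2 / 5 : ℝ)) (c := (1249 / 2500 : ℝ)) (d := (1874 / 3125 : ℝ))
    (by norm_num) (by norm_num) (by norm_num) (by norm_num) (by norm_num)
  have h9 : (Nat.factorial 9 : ℝ) = 362880 := by norm_num [Nat.factorial]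
  rw [h9]
  have h := add_le_add (add_le_add q1 q2) q3
  have h' := h.trans q
  norm_num at h' ⊢
  linarith

theorem integral_fallback : 27.8 < 2 * ((1 - 1 / 10000 : ℝ) ^ 9 + (Nat.factorial 9 : ℝ) *
    ∫ u : Fin 2 → ℝ, Gd ![4, 1] u * (Pf u ^ 2 * eta (7 / 4) (1 / 10000) u)) := by
  have q1 := outer_bound (lam := (7 / 4 : ℝ)) (ε := 1 / 10000) (a := (1 / 2500 : ℝ)) (b := (4 / 11 : ℝ))
    (lo := fun x => (0 : ℝ) + (0 : ℝ) * x) (hi := fun x => (-1 / 2500 : ℝ) + (1 : ℝ) * x) (by norm_num) (by norm_num) (by norm_num)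
    (by fun_prop) (by fun_prop) (by norm_num)
    (fun x hx => by have := hx.1; have := hx.2; linarith)
    (fun x hx => by have := hx.1; have := hx.2; linarith)
    (fun x hx => by have := hx.1; have := hx.2; linarith)
    (fun x hx => by have := hx.1; have := hx.2; linarith)
    (fun x hx => by have := hx.1; have := hx.2; linarith)
  rw [piece_b1] at q1
  have q2 := outer_bound (lam := (7 / 4 : ℝ)) (ε := 1 / 10000) (a := (4 / 11 : ℝ)) (b := (1249 / 2500 : ℝ))
    (lo := fun x => (0 : ℝ) + (0 : ℝ) * x) (hi := fun x => (2499 / 2500 : ℝ) + (-7 / 4 : ℝ) * x) (by norm_num) (by norm_num) (by norm_num)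
    (by fun_prop) (by fun_prop) (by norm_num)
    (fun x hx => by have := hx.1; have := hx.2; linarith)
    (fun x hx => by have := hx.1; have := hx.2; linarith)
    (fun x hx => by have := hx.1; have := hx.2; linarith)
    (fun x hx => by have := hx.1; have := hx.2; linarith)
    (fun x hx => by have := hx.1; have := hx.2; linarith)
  rw [piece_b2] at q2
  have q3 := outer_bound (lam := (7 / 4 : ℝ)) (ε := 1 / 10000) (a := (1249 / 2500 : ℝ)) (b := (3748 / 6875 : ℝ))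
    (lo := fun x => (-1249 / 2500 : ℝ) + (1 : ℝ) * x) (hi := fun x => (2499 / 2500 : ℝ) + (-7 / 4 : ℝ) * x) (by norm_num) (by norm_num) (by norm_num)
    (by fun_prop) (by fun_prop) (by norm_num)
    (fun x hx => by have := hx.1; have := hx.2; linarith)
    (fun x hx => by have := hx.1; have := hx.2; linarith)
    (fun x hx => by have := hx.1; have := hx.2; linarith)
    (fun x hx => by have := hx.1; have := hx.2; linarith)
    (fun x hx => by have := hx.1; have := hx.2; linarith)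
  rw [piece_b3] at q3
  have q := total_bound (lam := (7 / 4 : ℝ)) (ε := 1 / 10000) (a := (1 / 2500 : ℝ)) (b := (4 / 11 : ℝ)) (c := (1249 / 2500 : ℝ)) (d := (3748 / 6875 : ℝ))
    (by norm_num) (by norm_num) (by norm_num) (by norm_num) (by norm_num)
  have h9 : (Nat.factorial 9 : ℝ) = 362880 := by norm_num [Nat.factorial]
  rw [h9]
  have h := add_le_add (add_le_add q1 q2) q3
  have h' := h.trans q
  norm_num at h' ⊢
  linarith
end

end Pool.Agent.H745R2.SM13
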