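import Pool.Agent.H626R2.Loc.Defs
import Pool.Agent.H531R2.D4.TH

/-!
# Specialising the seeds (tasks C3b and C5)
-/

set_option autoImplicit false

namespace Pool.Agent.H626R2.Loc

open MvPolynomial

namespace H745

variable {K : Type} [Field K] {n : ℕ}

theorem gen_spec_aux [CharZero K] {B : Type} [CommRing B] [Algebra K B] {q D' e : ℕ}
    (s : Fin q → Fin n) (u w : Fin D' → B) (x : Fin q → B) :
    ∃ φ : MvPolynomial (Fin (D' + q + e) ⊕ Fin (D' + q + e)) K →ₐ[K] B, ∀ m : Fin n,
      φ (gen K n (D' + q + e) m) =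
        ∑ l, u l * ∏ j ∈ Finset.univ.erase m, (w l - algebraMap K B ((j : ℕ) : K)) +
          ∑ b, if s b = m then x b else 0 := by
  classical
  set c : Fin q → K := fun b => ∏ j ∈ Finset.univ.erase (s b), (((s b : ℕ) : K) - ((j : ℕ) : K))
    with hc
  have hc0 : ∀ b, c b ≠ 0 := by
    intro b
    rw [hc]
    refine Finset.prod_ne_zero_iff.mpr fun j hj => ?_
    rw [sub_ne_zero]
    intro h
    have h2 : (s b : ℕ) = (j : ℕ) := by exact_mod_cast h
    exact (Finset.mem_erase.mp hj).1 (Fin.ext h2.symm)
  let y : Fin (D' + q + e) → B :=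
    Fin.append (Fin.append u (fun b => algebraMap K B (c b)⁻¹ * x b)) (fun _ => 0)
  let z : Fin (D' + q + e) → B :=
    Fin.append (Fin.append w (fun b => algebraMap K B ((s b : ℕ) : K))) (fun _ => 0)
  refine ⟨aeval (Sum.elim y z), fun m => ?_⟩
  have h1 : (aeval (Sum.elim y z) : MvPolynomial (Fin (D' + q + e) ⊕ Fin (D' + q + e)) K →ₐ[K] B)
      (gen K n (D' + q + e) m) =
      ∑ l, y l * ∏ j ∈ Finset.univ.erase m, (z l - algebraMap K B ((j : ℕ) : K)) := by
    unfold gen
    rw [map_sum]
    refine Finset.sum_congr rfl fun l _ => ?_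
    rw [map_mul, map_prod, aeval_X, Sum.elim_inl]
    congr 1
    refine Finset.prod_congr rfl fun j _ => ?_
    rw [map_sub, aeval_X, Sum.elim_inr, aeval_C]
  rw [h1, Fin.sum_univ_add, Fin.sum_univ_add]
  have h2 : ∑ i : Fin e, y (Fin.natAdd (D' + q) i) *
      ∏ j ∈ Finset.univ.erase m, (z (Fin.natAdd (D' + q) i) - algebraMap K B ((j : ℕ) : K)) = 0 := by
    refine Finset.sum_eq_zero fun i _ => ?_
    simp [y]
  rw [h2, add_zero]
  congr 1
  · refine Finset.sum_congr rfl fun l _ => ?_
    simp [y, z]
  · refine Finset.sum_congr rfl fun b _ => ?_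
    have hy : y (Fin.castAdd e (Fin.natAdd D' b)) = algebraMap K B (c b)⁻¹ * x b := by
      simp [y]
    have hz : z (Fin.castAdd e (Fin.natAdd D' b)) = algebraMap K B ((s b : ℕ) : K) := by
      simp [z]
    rw [hy, hz]
    by_cases h : s b = m
    · rw [if_pos h]
      have h3 : ∏ j ∈ Finset.univ.erase m, (algebraMap K B ((s b : ℕ) : K) -
          algebraMap K B ((j : ℕ) : K)) = algebraMap K B (c b) := by
        rw [hc, ← h]
        simp only
        rw [map_prod]
        refine Finset.prod_congr rfl fun j _ => ?_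
        rw [map_sub]
      rw [h3, mul_right_comm, ← map_mul, inv_mul_cancel₀ (hc0 b), map_one, one_mul]
    · rw [if_neg h]
      have h3 : ∏ j ∈ Finset.univ.erase m, (algebraMap K B ((s b : ℕ) : K) -
          algebraMap K B ((j : ℕ) : K)) = 0 := by
        refine Finset.prod_eq_zero (i := s b) (Finset.mem_erase.mpr ⟨h, Finset.mem_univ _⟩) ?_
        rw [sub_self]
      rw [h3, mul_zero]

theorem gen_spec [CharZero K] {B : Type} [CommRing B] [Algebra K B] {q D' T : ℕ}
    (hT : q + D' ≤ T) (s : Fin q → Fin n) (u w : Fin D' → B) (x : Fin q → B) :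
    ∃ φ : MvPolynomial (Fin T ⊕ Fin T) K →ₐ[K] B, ∀ m : Fin n,
      φ (gen K n T m) =
        ∑ l, u l * ∏ j ∈ Finset.univ.erase m, (w l - algebraMap K B ((j : ℕ) : K)) +
          ∑ b, if s b = m then x b else 0 := by
  obtain ⟨e, rfl⟩ : ∃ e, T = D' + q + e := ⟨T - (D' + q), by omega⟩
  exact gen_spec_aux s u w x

end H745

section poly

variable {K : Type} [Field K] {n : ℕ}

variable [CharZero K]

/-- C3b. Specialising the seeds. -/
theorem exists_spec {q D' T : ℕ} (hT : q + D' ≤ T) (s : Fin q → Fin n) (u w : Fin D' → K) :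
    ∃ φ : MvPolynomial (Fin T ⊕ Fin T) K →ₐ[K] MvPolynomial (Fin q) K,
      ∀ f : MvPolynomial (Fin n) K, φ (evT K n T f) = aff s (H531R2.D4.sv u w) f := by
  obtain ⟨φ, hφ⟩ := H745.gen_spec (K := K) (B := MvPolynomial (Fin q) K) hT s
    (fun l => C (u l)) (fun l => C (w l)) (fun b => X b)
  refine ⟨φ, fun f => ?_⟩
  have h : φ.comp (evT K n T) = aff s (H531R2.D4.sv u w) := by
    refine MvPolynomial.algHom_ext fun m => ?_
    rw [AlgHom.comp_apply]
    unfold evT aff
    rw [aeval_X, aeval_X, hφ m]
    congr 1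
    unfold H531R2.D4.sv
    rw [map_sum]
    refine Finset.sum_congr rfl fun l _ => ?_
    rw [map_mul, map_prod]
    congr 1
    refine Finset.prod_congr rfl fun j _ => ?_
    rw [map_sub]
    rfl
  exact DFunLike.congr_fun h f

/-- C5. the last seeds produce generic alive variables -/
theorem exists_spec2 {r T' T : ℕ} (hT : r + T' ≤ T) (s : Fin r → Fin n)
    (hs : Function.Injective s) :
    ∃ φ : MvPolynomial (Fin T ⊕ Fin T) K →ₐ[K]
        MvPolynomial (Fin r) (MvPolynomial (Fin T' ⊕ Fin T') K),
      ∀ f : MvPolynomial (Fin n) K,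
        φ (evT K n T f) = aeval (fun b : Fin r => C (gen K n T' (s b)) + X b)
          (MvPolynomial.map (evT K n T').toRingHom (ren s f)) := by
  obtain ⟨φ, hφ⟩ := H745.gen_spec (K := K)
    (B := MvPolynomial (Fin r) (MvPolynomial (Fin T' ⊕ Fin T') K)) hT s
    (fun l => C (X (Sum.inl l))) (fun l => C (X (Sum.inr l))) (fun b => X b)
  have hgen : ∀ m : Fin n, φ (gen K n T m) = C (gen K n T' m) + ∑ b, if s b = m then X b else 0 := by
    intro m
    rw [hφ m]
    congr 1
    unfold gen
    rw [map_sum]
    refine Finset.sum_congr rfl fun l _ => ?_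
    rw [map_mul, map_prod]
    congr 1
    refine Finset.prod_congr rfl fun j _ => ?_
    rw [map_sub]
    rfl
  refine ⟨φ, fun f => ?_⟩
  induction f using MvPolynomial.induction_on with
  | C a =>
    have e1 : evT K n T (C a) = algebraMap K _ a := by
      unfold evT; rw [aeval_C]
    have e2 : ren s (C a : MvPolynomial (Fin n) K) = C (C a) := by
      unfold ren; rw [aeval_C]; rfl
    have e3 : (evT K n T').toRingHom (C a) = C a := by
      show evT K n T' (C a) = C a
      unfold evT; rw [aeval_C]; rfl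
    rw [e1, e2, map_C, e3, aeval_C, AlgHom.commutes]
    rfl
  | add p q hp hq => simp only [map_add, hp, hq]
  | mul_X p m hp =>
    rw [map_mul, map_mul, map_mul, map_mul, map_mul, hp]
    congr 1
    have e1 : evT K n T (X m) = gen K n T m := by
      unfold evT; rw [aeval_X]
    rw [e1, hgen m]
    unfold ren
    rw [aeval_X]
    split_ifs with h
    · have hb : s h.choose = m := h.choose_spec
      rw [map_X, aeval_X, hb]
      congr 1
      rw [Finset.sum_eq_single h.choose]
      · rw [if_pos hb]
      · intro b _ hne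
        rw [if_neg]
        intro h2
        exact hne (hs (h2.trans hb.symm))
      · intro h2
        exact absurd (Finset.mem_univ _) h2
    · have e3 : (evT K n T').toRingHom (X m) = gen K n T' m := by
        show evT K n T' (X m) = _
        unfold evT; rw [aeval_X]
      rw [map_C, e3, aeval_C]
      rw [Finset.sum_eq_zero, add_zero]
      · rfl
      · intro b _
        rw [if_neg]
        intro h2
        exact h ⟨b, h2⟩

end poly

end Pool.Agent.H626R2.Loc
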