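import Mathlib

set_option autoImplicit false

open Real Set MeasureTheory Filter Topology

namespace H745

/-- the Binet kernel -/
noncomputable def phi (u : ℝ) : ℝ := (1 / (exp u - 1) - 1 / u + 1 / 2) / u

lemma exp_sub_one_pos {u : ℝ} (hu : 0 < u) : 0 < exp u - 1 := by
  have := Real.add_one_lt_exp hu.ne'
  linarith

lemma aux1 {u : ℝ} (hu : 0 ≤ u) : 0 ≤ u * (exp u + 1) - 2 * (exp u - 1) := by
  have hd : ∀ x : ℝ, HasDerivAt (fun u : ℝ => u * (exp u + 1) - 2 * (exp u - 1))
      (1 * (exp x + 1) + x * exp x - 2 * exp x) x := by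
    intro x
    exact ((hasDerivAt_id x).mul ((Real.hasDerivAt_exp x).add_const 1)).sub
      (((Real.hasDerivAt_exp x).sub_const 1).const_mul 2)
  have hm : MonotoneOn (fun u : ℝ => u * (exp u + 1) - 2 * (exp u - 1)) (Ici 0) := by
    apply monotoneOn_of_deriv_nonneg (convex_Ici 0)
    · exact fun x _ => (hd x).continuousAt.continuousWithinAt
    · exact fun x _ => (hd x).differentiableAt.differentiableWithinAt
    · intro x hx
      rw [interior_Ici, mem_Ioi] at hx
      rw [(hd x).deriv]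
      have h1 := Real.add_one_le_exp (-x)
      have h2 : exp (-x) * exp x = 1 := by rw [← Real.exp_add]; simp
      nlinarith [Real.exp_pos x]
  have := hm (mem_Ici.2 le_rfl) (mem_Ici.2 hu) hu
  simpa using this

lemma phi_nonneg {u : ℝ} (hu : 0 < u) : 0 ≤ phi u := by
  unfold phi
  apply div_nonneg _ hu.le
  have h1 := exp_sub_one_pos hu
  have h2 := aux1 hu.le
  have : 1 / (exp u - 1) - 1 / u + 1 / 2 = (u * (exp u + 1) - 2 * (exp u - 1)) / (2 * u * (exp u - 1)) := by
    field_simp
    ring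
  rw [this]
  positivity

lemma phi_le {u : ℝ} (hu : 0 < u) : phi u ≤ 1 / 4 := by
  unfold phi
  have h1 := exp_sub_one_pos hu
  have h2 : u + u ^ 2 / 2 ≤ exp u - 1 := by
    have := Real.quadratic_le_exp_of_nonneg hu.le
    linarith
  have h3 : 1 / (exp u - 1) ≤ 1 / (u + u ^ 2 / 2) := one_div_le_one_div_of_le (by positivity) h2
  rw [div_le_iff₀ hu]
  have h4 : 1 / (u + u ^ 2 / 2) - 1 / u + 1 / 2 ≤ 1 / 4 * u := by
    have : 1 / (u + u ^ 2 / 2) - 1 / u + 1 / 2 = u / (2 * (2 + u)) := by
      field_simp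
      ring
    rw [this, div_le_iff₀ (by positivity)]
    nlinarith
  linarith

lemma phi_contOn : ContinuousOn phi (Ioi 0) := by
  unfold phi
  intro x hx
  have hx' : (0:ℝ) < x := hx
  have h1 := exp_sub_one_pos hx'
  apply ContinuousAt.continuousWithinAt
  fun_prop (disch := first | exact h1.ne' | exact hx'.ne')

lemma abs_phi_le {u : ℝ} (hu : 0 < u) : |phi u| ≤ 1 / 4 := by
  rw [abs_of_nonneg (phi_nonneg hu)]; exact phi_le hu

lemma phi_int {s : ℝ} (hs : 0 < s) : IntegrableOn (fun u => phi u * exp (-(s * u))) (Ioi 0) := by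
  have h0 : IntegrableOn (fun u => (1 / 4 : ℝ) * exp (-s * u)) (Ioi 0) :=
    (integrableOn_exp_mul_Ioi (by linarith) 0).const_mul _
  refine Integrable.mono' h0 ?_ ?_
  · apply ContinuousOn.aestronglyMeasurable _ measurableSet_Ioi
    exact phi_contOn.mul (by fun_prop)
  · rw [ae_restrict_iff' measurableSet_Ioi]
    filter_upwards with u hu
    rw [norm_mul, Real.norm_eq_abs, Real.norm_eq_abs, abs_of_pos (exp_pos _), neg_mul]
    exact mul_le_mul_of_nonneg_right (abs_phi_le hu) (exp_pos _).le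

/-- the Binet integral -/
noncomputable def J (s : ℝ) : ℝ := ∫ u in Ioi 0, phi u * exp (-(s * u))

/-- the function `(1-e^{-x}-x e^{-x})/x^2` -/
noncomputable def fg (x : ℝ) : ℝ := (1 - exp (-x) - x * exp (-x)) / x ^ 2

lemma hasDeriv_fg {x : ℝ} (hx : 0 < x) :
    HasDerivAt (fun u => -((1 - exp (-u)) / u)) (fg x) x := by
  have h1 : HasDerivAt (fun u : ℝ => 1 - exp (-u)) (exp (-x)) x := by
    have := (((hasDerivAt_id x).neg).exp).const_sub 1
    simpa using this
  have h2 := (h1.div (hasDerivAt_id x) hx.ne').neg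
  have e : fg x = -((exp (-x) * id x - (1 - exp (-x)) * 1) / id x ^ 2) := by
    unfold fg
    simp only [id]
    ring
  rw [e]
  exact h2

lemma fg_nonneg {x : ℝ} (hx : 0 < x) : 0 ≤ fg x := by
  unfold fg
  apply div_nonneg _ (by positivity)
  have h1 := Real.add_one_le_exp x
  have h2 : exp (-x) * exp x = 1 := by rw [← Real.exp_add]; simp
  nlinarith [Real.exp_pos (-x)]

lemma tendsto_zero_aux : Tendsto (fun u : ℝ => (1 - exp (-u)) / u) (𝓝[>] 0) (𝓝 1) := by
  have h : HasDerivAt (fun u : ℝ => 1 - exp (-u)) 1 0 := by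
    have := (((hasDerivAt_id (0:ℝ)).neg).exp).const_sub 1
    simpa using this
  have h2 := h.tendsto_slope_zero_right
  refine h2.congr' ?_
  filter_upwards [self_mem_nhdsWithin] with u hu
  simp only [zero_add, neg_zero, exp_zero, sub_self, sub_zero, smul_eq_mul]
  rw [inv_mul_eq_div]

lemma tendsto_top_aux : Tendsto (fun u : ℝ => (1 - exp (-u)) / u) atTop (𝓝 0) := by
  have h1 : Tendsto (fun u : ℝ => 1 - exp (-u)) atTop (𝓝 (1 - 0)) :=
    tendsto_const_nhds.sub (Real.tendsto_exp_atBot.comp tendsto_neg_atTop_atBot)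
  exact h1.div_atTop tendsto_id

lemma fg_integrable : IntegrableOn fg (Ioi 0) := by
  refine integrableOn_Ioi_deriv_of_nonneg (a := 0) (g := Function.update (fun u : ℝ => -((1 - exp (-u)) / u)) 0 (-1)) (l := -0) ?_ ?_ ?_ ?_
  · rw [continuousWithinAt_update_same]
    have : Ici (0:ℝ) \ {0} = Ioi 0 := by
      ext x; simp [lt_iff_le_and_ne, eq_comm]
    rw [this]
    exact tendsto_zero_aux.neg
  · intro x hx
    have hx' : (0:ℝ) < x := hx
    refine (hasDeriv_fg hx').congr_of_eventuallyEq ?_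
    filter_upwards [isOpen_Ioi.mem_nhds hx'] with y hy
    rw [Function.update_of_ne (ne_of_gt hy)]
  · intro x hx; exact fg_nonneg hx
  · refine (tendsto_top_aux.neg).congr' ?_
    filter_upwards [eventually_gt_atTop 0] with y hy
    rw [Function.update_of_ne hy.ne']

lemma fg_integral : ∫ x in Ioi 0, fg x = 1 := by
  have := integral_Ioi_of_hasDerivAt_of_nonneg (a := 0) (g := Function.update (fun u : ℝ => -((1 - exp (-u)) / u)) 0 (-1)) (g' := fg) (l := -0) ?_ ?_ ?_ ?_
  · rw [this]; simp
  · rw [continuousWithinAt_update_same]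
    have : Ici (0:ℝ) \ {0} = Ioi 0 := by
      ext x; simp [lt_iff_le_and_ne, eq_comm]
    rw [this]
    exact tendsto_zero_aux.neg
  · intro x hx
    have hx' : (0:ℝ) < x := hx
    refine (hasDeriv_fg hx').congr_of_eventuallyEq ?_
    filter_upwards [isOpen_Ioi.mem_nhds hx'] with y hy
    rw [Function.update_of_ne (ne_of_gt hy)]
  · intro x hx; exact fg_nonneg hx
  · refine (tendsto_top_aux.neg).congr' ?_
    filter_upwards [eventually_gt_atTop 0] with y hy
    rw [Function.update_of_ne hy.ne']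

lemma frul_bound {p q u : ℝ} (hpq : p ≤ q) (hu : 0 < u) :
    |u⁻¹ * (exp (-(p * u)) - exp (-(q * u)))| ≤ (q - p) * exp (-p * u) := by
  have h1 : exp (-(q * u)) ≤ exp (-(p * u)) := exp_le_exp.2 (by nlinarith)
  rw [abs_of_nonneg (mul_nonneg (by positivity) (by linarith))]
  have h2 : exp (-(q * u)) = exp (-(p * u)) * exp (-((q - p) * u)) := by
    rw [← Real.exp_add]; ring_nf
  have h3 := Real.add_one_le_exp (-((q - p) * u))
  have h4 : exp (-(p * u)) - exp (-(q * u)) ≤ exp (-(p * u)) * ((q - p) * u) := by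
    rw [h2]
    nlinarith [Real.exp_pos (-(p * u))]
  rw [neg_mul]
  calc u⁻¹ * (exp (-(p * u)) - exp (-(q * u))) ≤ u⁻¹ * (exp (-(p * u)) * ((q - p) * u)) :=
        mul_le_mul_of_nonneg_left h4 (by positivity)
    _ = (q - p) * exp (-(p * u)) := by field_simp

lemma frul_int {p q : ℝ} (hp : 0 < p) (hpq : p ≤ q) :
    IntegrableOn (fun u => u⁻¹ * (exp (-(p * u)) - exp (-(q * u)))) (Ioi 0) := by
  have h0 : IntegrableOn (fun u => (q - p) * exp (-p * u)) (Ioi 0) :=
    (integrableOn_exp_mul_Ioi (by linarith) 0).const_mul _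
  refine Integrable.mono' h0 ?_ ?_
  · apply ContinuousOn.aestronglyMeasurable _ measurableSet_Ioi
    apply ContinuousOn.mul
    · exact continuousOn_inv₀.mono (fun x hx => ne_of_gt hx)
    · fun_prop
  · rw [ae_restrict_iff' measurableSet_Ioi]
    filter_upwards with u hu
    exact frul_bound hpq hu

lemma frul_eq {p q : ℝ} (hp : 0 < p) (hpq : p ≤ q) :
    ∫ u in Ioi 0, u⁻¹ * (exp (-(p * u)) - exp (-(q * u))) = log (q / p) := by
  have h := Frullani.integral_Ioi_eq (f := fun x : ℝ => exp (-x)) (a := p) (b := q) (L := 1)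
    (R := 0) ?_ hp (hp.trans_le hpq) ?_ ?_ ?_
  · simpa using h
  · exact (by fun_prop : Continuous fun x : ℝ => exp (-x)).locallyIntegrable.locallyIntegrableOn _
  · have : Tendsto (fun x : ℝ => exp (-x)) (𝓝 0) (𝓝 (exp (-0))) :=
      (by fun_prop : Continuous fun x : ℝ => exp (-x)).continuousAt
    simp only [neg_zero, exp_zero] at this
    exact this.mono_left nhdsWithin_le_nhds
  · exact Real.tendsto_exp_atBot.comp tendsto_neg_atTop_atBot
  · simpa using frul_int hp hpq

lemma J_diff {s : ℝ} (hs : 0 < s) : J s - J (s + 1) = (s + 1 / 2) * (log (s + 1) - log s) - 1 := by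
  have hs1 : 0 < s + 1 := by linarith
  have e1 : J s - J (s + 1) = ∫ u in Ioi 0, (s ^ 2 * fg (s * u) - (s + 1) ^ 2 * fg ((s + 1) * u)
      + (s + 1 / 2) * (u⁻¹ * (exp (-(s * u)) - exp (-((s + 1) * u))))) := by
    unfold J
    rw [← integral_sub (phi_int hs) (phi_int hs1)]
    apply setIntegral_congr_fun measurableSet_Ioi
    intro u hu
    have hu' : (0:ℝ) < u := hu
    have h1 := exp_sub_one_pos hu'
    have h2 : exp (-((s + 1) * u)) = exp (-(s * u)) * exp (-u) := by
      rw [← Real.exp_add]; ring_nf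
    have h3 : exp (-u) = (exp u)⁻¹ := Real.exp_neg u
    simp only
    unfold phi fg
    rw [h2, h3]
    have h4 := Real.exp_pos u
    generalize exp (-(s * u)) = E
    generalize exp u = e at *
    field_simp
    ring
  have i1 : IntegrableOn (fun u => s ^ 2 * fg (s * u)) (Ioi 0) := by
    have := (integrableOn_Ioi_comp_mul_left_iff fg 0 hs).2 (by simpa using fg_integrable)
    exact this.const_mul _
  have i2 : IntegrableOn (fun u => (s + 1) ^ 2 * fg ((s + 1) * u)) (Ioi 0) := by
    have := (integrableOn_Ioi_comp_mul_left_iff fg 0 hs1).2 (by simpa using fg_integrable)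
    exact this.const_mul _
  have i3 := (frul_int hs (by linarith : s ≤ s + 1)).const_mul (s + 1 / 2)
  have i12 : IntegrableOn (fun u => s ^ 2 * fg (s * u) - (s + 1) ^ 2 * fg ((s + 1) * u)) (Ioi 0) :=
    i1.sub i2
  rw [e1, integral_add i12 i3, integral_sub i1 i2, integral_const_mul, integral_const_mul,
    integral_const_mul, integral_comp_mul_left_Ioi fg 0 hs, integral_comp_mul_left_Ioi fg 0 hs1,
    frul_eq hs (by linarith), mul_zero, mul_zero, fg_integral, log_div hs1.ne' hs.ne']
  simp only [smul_eq_mul]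
  field_simp
  ring

noncomputable def L (s : ℝ) : ℝ := (s - 1 / 2) * log s - s + J s

lemma L_succ {s : ℝ} (hs : 0 < s) : L (s + 1) = log s + L s := by
  have := J_diff hs
  unfold L
  linear_combination -this

lemma J_convex : ConvexOn ℝ (Ioi 0) J := by
  refine ⟨convex_Ioi 0, ?_⟩
  intro x hx y hy a b ha hb hab
  have hx' : (0:ℝ) < x := hx
  have hy' : (0:ℝ) < y := hy
  have hz : (a • x + b • y : ℝ) ∈ Ioi (0:ℝ) := (convex_Ioi 0) hx hy ha hb hab
  have hz' : (0:ℝ) < a • x + b • y := hz
  unfold J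
  rw [smul_eq_mul a (∫ _ in _, _), smul_eq_mul b (∫ _ in _, _), ← integral_const_mul, ← integral_const_mul,
    ← integral_add ((phi_int hx').const_mul a) ((phi_int hy').const_mul b)]
  apply setIntegral_mono_on (phi_int hz') (((phi_int hx').const_mul a).add ((phi_int hy').const_mul b))
    measurableSet_Ioi
  intro u hu
  have hc := (convexOn_exp.2 (mem_univ (-(x * u))) (mem_univ (-(y * u))) ha hb hab)
  simp only [smul_eq_mul] at hc ⊢
  have e : -((a * x + b * y) * u) = a * -(x * u) + b * -(y * u) := by ring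
  rw [e]
  have := mul_le_mul_of_nonneg_left hc (phi_nonneg hu)
  simp only [Pi.add_apply]
  linarith

lemma L_convex : ConvexOn ℝ (Ioi 0) L := by
  have h1 : ConvexOn ℝ (Ioi 0) (fun x : ℝ => x * log x) :=
    Real.convexOn_mul_log.subset Ioi_subset_Ici_self (convex_Ioi 0)
  have h2 : ConvexOn ℝ (Ioi 0) (fun x : ℝ => (1 / 2 : ℝ) • (-(log x))) :=
    (strictConcaveOn_log_Ioi.concaveOn.neg).smul (by norm_num)
  have h3 : ConvexOn ℝ (Ioi 0) (fun x : ℝ => -x) := (concaveOn_id (convex_Ioi 0)).neg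
  have h := ((h1.add h2).add h3).add J_convex
  refine h.congr ?_
  intro x hx
  simp only [Pi.add_apply, L, smul_eq_mul]
  ring

lemma Gamma_eq {s : ℝ} (hs : 0 < s) : Gamma s = exp (L s - L 1) := by
  have h := Real.eq_Gamma_of_log_convex (f := fun s => exp (L s - L 1)) ?_ ?_ ?_ ?_
  · exact (h hs).symm
  · have : (log ∘ fun s => exp (L s - L 1)) = fun s => L s + (- L 1) := by
      funext s; simp [sub_eq_add_neg]
    rw [this]
    exact L_convex.add_const _
  · intro y hy
    rw [L_succ hy, show log y + L y - L 1 = log y + (L y - L 1) by ring, Real.exp_add, Real.exp_log hy]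
  · intro y _; exact exp_pos _
  · simp

/-- Binet formula with an unspecified constant -/
lemma log_Gamma_succ {s : ℝ} (hs : 0 < s) :
    log (Gamma (1 + s)) = (s + 1 / 2) * log s - s + J s - L 1 := by
  rw [add_comm 1 s, Gamma_add_one hs.ne', log_mul hs.ne' (Gamma_pos_of_pos hs).ne', Gamma_eq hs,
    log_exp, L]
  ring

end H745
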