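import Pool.Agent.H745R2.P9

set_option autoImplicit false

open Real Set MeasureTheory Filter Topology

namespace H745

/-- the vector field `i z + (z conj z)^n z^(k+1)` -/
noncomputable def vf (n k : ℕ) (z : ℂ) : ℂ :=
  Complex.I * z + (z * (starRingEnd ℂ) z) ^ n * z ^ (k + 1)

section
variable {w : ℝ} (h0 : 0 < w) (h1 : w < 1) (N k : ℕ) (s : ℝ)

/-- the time as a function of the angle -/
noncomputable def tau (w : ℝ) (N k : ℕ) (s θ : ℝ) : ℝ := ∫ φ in (0:ℝ)..θ, Hs w (s ^ N * sin (k * φ))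

include h0 h1 in
lemma ig_cont : Continuous (fun φ : ℝ => Hs w (s ^ N * sin (k * φ))) :=
  (Hs_cont h0 h1).comp (by fun_prop)

include h0 h1 in
lemma tau_hasDeriv (θ : ℝ) : HasDerivAt (tau w N k s) (Hs w (s ^ N * sin (k * θ))) θ :=
  ((ig_cont h0 h1 N k s).integral_hasStrictDerivAt 0 θ).hasDerivAt

include h0 h1 in
lemma tau_strictMono : StrictMono (tau w N k s) :=
  strictMono_of_deriv_pos fun θ => by
    rw [(tau_hasDeriv h0 h1 N k s θ).deriv]
    exact Hs_pos h0 h1 _

lemma tau_zero : tau w N k s 0 = 0 := by simp [tau]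

include h0 h1 in
lemma tau_add (θ : ℝ) : tau w N k s (θ + 2 * π) = tau w N k s θ + tau w N k s (2 * π) := by
  have hc := ig_cont h0 h1 N k s
  have hper : Function.Periodic (fun φ : ℝ => Hs w (s ^ N * sin (k * φ))) (2 * π) := by
    intro φ
    simp only [mul_add]
    rw [Real.sin_add_nat_mul_two_pi]
  have h := hper.intervalIntegral_add_eq 0 θ
  rw [zero_add] at h
  unfold tau
  rw [h]
  exact (intervalIntegral.integral_add_adjacent_intervals (hc.intervalIntegrable 0 θ) (hc.intervalIntegrable _ _)).symm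

include h0 h1 in
lemma exists_lower : ∃ c : ℝ, 0 < c ∧ ∀ φ : ℝ, c ≤ Hs w (s ^ N * sin (k * φ)) := by
  obtain ⟨x, hx, hmin⟩ := (isCompact_Icc (a := -|s ^ N|) (b := |s ^ N|)).exists_isMinOn
    ⟨0, by simp⟩ (Hs_cont h0 h1).continuousOn
  refine ⟨Hs w x, Hs_pos h0 h1 x, fun φ => hmin ?_⟩
  have h := abs_sin_le_one (k * φ)
  have : |s ^ N * sin (k * φ)| ≤ |s ^ N| := by
    rw [abs_mul]
    exact mul_le_of_le_one_right (abs_nonneg _) h
  exact abs_le.1 this

include h0 h1 in
lemma tau_surj : Function.Surjective (tau w N k s) := by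
  obtain ⟨c, hc, hle⟩ := exists_lower h0 h1 N k s
  have hcont : Continuous (tau w N k s) :=
    continuous_iff_continuousAt.2 fun θ => (tau_hasDeriv h0 h1 N k s θ).continuousAt
  have hmono : Monotone (fun θ => tau w N k s θ - c * θ) := by
    apply monotone_of_deriv_nonneg
    · intro θ
      exact ((tau_hasDeriv h0 h1 N k s θ).sub ((hasDerivAt_id θ).const_mul c)).differentiableAt
    · intro θ
      have := ((tau_hasDeriv h0 h1 N k s θ).sub ((hasDerivAt_id θ).const_mul c)).deriv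
      have e : (fun θ => tau w N k s θ - c * θ) = (tau w N k s - fun y => c * id y) := by
        funext y; simp
      rw [e, this]
      have := hle θ
      linarith
  apply hcont.surjective
  · apply tendsto_atTop_mono' atTop _ (tendsto_id.const_mul_atTop hc)
    filter_upwards [eventually_ge_atTop 0] with θ hθ
    have := hmono hθ
    simp only [tau_zero, mul_zero, sub_zero, id] at this ⊢
    linarith
  · apply tendsto_atBot_mono' atBot _ (tendsto_id.const_mul_atBot hc)
    filter_upwards [eventually_le_atBot 0] with θ hθ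
    have := hmono hθ
    simp only [tau_zero, mul_zero, sub_zero, id] at this ⊢
    linarith

include h0 h1 in
lemma tau_period (hk : 0 < k) : tau w N k s (2 * π) = Tper w (s ^ N) := by
  unfold tau Tper
  have hk' : (0:ℝ) < k := by exact_mod_cast hk
  have h := intervalIntegral.mul_integral_comp_mul_left (a := 0) (b := 2 * π) (c := (k:ℝ))
    (f := fun φ => Hs w (s ^ N * sin φ))
  have hper : Function.Periodic (fun φ : ℝ => Hs w (s ^ N * sin φ)) (2 * π) := by
    intro φ
    simp only [Real.sin_add_two_pi]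
  have h2 := hper.intervalIntegral_add_zsmul_eq (k : ℤ) 0
  simp only [mul_zero, zero_add, zsmul_eq_mul, Int.cast_natCast] at h h2
  rw [h2 (fun a b => (((Hs_cont h0 h1).comp (by fun_prop :
    Continuous fun φ : ℝ => s ^ N * sin φ))).intervalIntegrable a b)] at h
  exact mul_left_cancel₀ hk'.ne' h

/-- the angle as a function of time -/
noncomputable def Th (w : ℝ) (N k : ℕ) (s t : ℝ) : ℝ := Function.invFun (tau w N k s) t

include h0 h1 in
lemma tau_Th (t : ℝ) : tau w N k s (Th w N k s t) = t :=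
  Function.invFun_eq (tau_surj h0 h1 N k s t)

include h0 h1 in
lemma Th_tau (θ : ℝ) : Th w N k s (tau w N k s θ) = θ :=
  (tau_strictMono h0 h1 N k s).injective (tau_Th h0 h1 N k s _)

include h0 h1 in
lemma Th_strictMono : StrictMono (Th w N k s) := by
  intro a b hab
  rw [← (tau_strictMono h0 h1 N k s).lt_iff_lt, tau_Th h0 h1, tau_Th h0 h1]
  exact hab

include h0 h1 in
lemma Th_cont : Continuous (Th w N k s) := by
  have hm := tau_strictMono h0 h1 N k s
  have hs := tau_surj h0 h1 N k s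
  let e := hm.orderIsoOfSurjective _ hs
  have he : Th w N k s = fun t => e.symm t := by
    funext t
    rw [eq_comm, OrderIso.symm_apply_eq]
    exact (tau_Th h0 h1 N k s t).symm
  rw [he]
  exact e.symm.continuous

include h0 h1 in
lemma Th_hasDeriv (t : ℝ) : HasDerivAt (Th w N k s) (Hs w (s ^ N * sin (k * Th w N k s t)))⁻¹ t := by
  apply HasDerivAt.of_local_left_inverse (Th_cont h0 h1 N k s).continuousAt
    (tau_hasDeriv h0 h1 N k s (Th w N k s t)) (Hs_pos h0 h1 _).ne'
  exact Eventually.of_forall fun y => tau_Th h0 h1 N k s y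

include h0 h1 in
lemma Th_zero : Th w N k s 0 = 0 := by
  have := Th_tau h0 h1 N k s 0
  rwa [tau_zero] at this

include h0 h1 in
lemma Th_add (hk : 0 < k) (t : ℝ) :
    Th w N k s (t + Tper w (s ^ N)) = Th w N k s t + 2 * π := by
  apply (tau_strictMono h0 h1 N k s).injective
  rw [tau_Th h0 h1, tau_add h0 h1, tau_Th h0 h1, tau_period h0 h1 N k s hk]

/-- the solution -/
noncomputable def zz (w : ℝ) (N k : ℕ) (s t : ℝ) : ℂ :=
  (rr w N k s (Th w N k s t) : ℝ) * Complex.exp ((Th w N k s t : ℝ) * Complex.I)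

include h0 h1 in
lemma zz_hasDeriv {n : ℕ} (hN : N = 2 * n + k) (hNp : 0 < N) (hk : (1 - w) * k = w * N) (t : ℝ) :
    HasDerivAt (zz w N k s) (vf n k (zz w N k s t)) t := by
  set θ := Th w N k s t with hθ
  set H := Hs w (s ^ N * sin (k * θ)) with hH
  have hHp : 0 < H := Hs_pos h0 h1 _
  have d1 : HasDerivAt (fun θ : ℝ => ((rr w N k s θ : ℝ) : ℂ))
      ((H * (rr w N k s θ ^ (N + 1) * cos (k * θ)) : ℝ) : ℂ) θ :=
    (rr_hasDeriv h0 h1 hNp hk s θ).ofReal_comp
  have d2 : HasDerivAt (fun θ : ℝ => Complex.exp ((θ : ℝ) * Complex.I))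
      (Complex.exp ((θ : ℝ) * Complex.I) * (1 * Complex.I)) θ :=
    ((Complex.ofRealCLM.hasDerivAt (x := θ)).mul_const Complex.I).cexp
  have d3 := d1.mul d2
  have d4 := HasDerivAt.scomp t (h := Th w N k s) d3 (Th_hasDeriv h0 h1 N k s t)
  have e : vf n k (zz w N k s t) = (Hs w (s ^ N * sin (k * Th w N k s t)))⁻¹ •
      (((H * (rr w N k s θ ^ (N + 1) * cos (k * θ)) : ℝ) : ℂ) * Complex.exp ((θ : ℝ) * Complex.I) +
        ((rr w N k s θ : ℝ) : ℂ) * (Complex.exp ((θ : ℝ) * Complex.I) * (1 * Complex.I))) := by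
    rw [← hθ, ← hH]
    have hs := rr_sin h0 h1 (k := k) hNp s θ
    rw [← hH] at hs
    unfold zz vf
    rw [← hθ]
    set r := rr w N k s θ with hr
    have c1 : (starRingEnd ℂ) (Complex.exp ((θ : ℝ) * Complex.I)) = Complex.exp (-((θ : ℝ) * Complex.I)) := by
      rw [← Complex.exp_conj]; simp
    have c2 : Complex.exp ((θ : ℝ) * Complex.I) * Complex.exp (-((θ : ℝ) * Complex.I)) = 1 := by
      rw [← Complex.exp_add]; simp
    have c3 : Complex.exp ((θ : ℝ) * Complex.I) ^ k = (cos (k * θ) : ℝ) + (sin (k * θ) : ℝ) * Complex.I := by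
      rw [← Complex.exp_nat_mul, ← mul_assoc, Complex.exp_mul_I]
      push_cast
      rfl
    have c4 : ((r : ℝ) * Complex.exp ((θ : ℝ) * Complex.I)) * (starRingEnd ℂ) ((r : ℝ) * Complex.exp ((θ : ℝ) * Complex.I)) = (r:ℂ) ^ 2 := by
      rw [map_mul, c1, Complex.conj_ofReal]
      linear_combination (r:ℂ) ^ 2 * c2
    rw [c4, mul_pow _ _ (k + 1), pow_succ (Complex.exp _) k, c3]
    rw [Complex.real_smul]
    have hs' : (1 : ℂ) + (r:ℂ) ^ N * (sin (k * θ) : ℝ) = (H:ℂ)⁻¹ := by
      have := congrArg (fun x : ℝ => (x:ℂ)) hs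
      push_cast at this
      rw [one_div] at this
      rw [← this]
      push_cast
      rfl
    have hHc : (H:ℂ) ≠ 0 := by exact_mod_cast hHp.ne'
    have hpow : ((r:ℂ) ^ 2) ^ n * (r:ℂ) ^ (k + 1) = (r:ℂ) ^ (N + 1) := by
      rw [hN, ← pow_mul, ← pow_add]; congr 1
    generalize Complex.exp ((θ : ℝ) * Complex.I) = E at *
    have e9 : ((r:ℂ) ^ 2) ^ n * ((r:ℂ) ^ (k + 1) * (((cos (k * θ) : ℝ) + (sin (k * θ) : ℝ) * Complex.I) * E)) =
        (r:ℂ) ^ (N + 1) * (((cos (k * θ) : ℝ) + (sin (k * θ) : ℝ) * Complex.I) * E) := by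
      rw [← mul_assoc, hpow]
    rw [e9]
    push_cast at hs' ⊢
    have hinv : (H:ℂ)⁻¹ * H = 1 := inv_mul_cancel₀ hHc
    rw [pow_succ]
    linear_combination (-(r:ℂ)^N * r * Complex.cos (k * θ) * E) * hinv + Complex.I * r * E * hs'
  rw [e]
  exact d4

end

end H745
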