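import Pool.Agent.H745R2.P10

set_option autoImplicit false

open Real Set MeasureTheory Filter Topology

namespace H745

lemma vf_contDiff (n k : ℕ) : ContDiff ℝ 1 (vf n k) := by
  have hc : ContDiff ℝ 1 (fun z : ℂ => (starRingEnd ℂ) z) := Complex.conjCLE.contDiff
  unfold vf
  exact (contDiff_const.mul contDiff_id).add (((contDiff_id.mul hc).pow n).mul (contDiff_id.pow (k + 1)))

lemma vf_unique {n k : ℕ} {z f : ℝ → ℂ} (hz : ∀ t, HasDerivAt z (vf n k (z t)) t) {a b : ℝ}
    (ha : a < 0) (hb : 0 < b) (hf : ∀ t ∈ Ioo a b, HasDerivAt f (vf n k (f t)) t) (h0 : f 0 = z 0) :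
    EqOn f z (Ioo a b) := by
  intro t ht
  obtain ⟨a', ha1, ha2⟩ : ∃ a', a < a' ∧ a' < min 0 t := exists_between (lt_min ha ht.1)
  obtain ⟨b', hb1, hb2⟩ : ∃ b', max 0 t < b' ∧ b' < b := exists_between (max_lt hb ht.2)
  have hsub : Icc a' b' ⊆ Ioo a b := fun x hx => ⟨ha1.trans_le hx.1, hx.2.trans_lt hb2⟩
  have cf : ContinuousOn f (Icc a' b') := fun x hx => (hf x (hsub hx)).continuousAt.continuousWithinAt
  have cz : ContinuousOn z (Icc a' b') := fun x hx => (hz x).continuousAt.continuousWithinAt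
  obtain ⟨C1, hC1⟩ := isCompact_Icc.exists_bound_of_continuousOn cf
  obtain ⟨C2, hC2⟩ := isCompact_Icc.exists_bound_of_continuousOn cz
  obtain ⟨K, hK⟩ := (vf_contDiff n k).contDiffOn.exists_lipschitzOnWith (s := Metric.closedBall (0:ℂ) (max C1 C2))
    one_ne_zero (convex_closedBall _ _) (isCompact_closedBall _ _)
  have h00 : (0:ℝ) ∈ Ioo a' b' := ⟨ha2.trans_le (min_le_left _ _), (le_max_left _ _).trans_lt hb1⟩
  have htt : t ∈ Ioo a' b' := ⟨ha2.trans_le (min_le_right _ _), (le_max_right _ _).trans_lt hb1⟩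
  have := ODE_solution_unique_of_mem_Ioo (v := fun _ => vf n k) (s := fun _ => Metric.closedBall (0:ℂ) (max C1 C2))
    (f := f) (g := z) (a := a') (b := b') (t₀ := 0) (K := K) (fun _ _ => hK) h00
    (fun x hx => ⟨hf x (hsub (Ioo_subset_Icc_self hx)), by
      rw [mem_closedBall_zero_iff]
      exact (hC1 x (Ioo_subset_Icc_self hx)).trans (le_max_left _ _)⟩)
    (fun x hx => ⟨hz x, by
      rw [mem_closedBall_zero_iff]
      exact (hC2 x (Ioo_subset_Icc_self hx)).trans (le_max_right _ _)⟩) h0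
  exact this htt

/-- the parameter -/
noncomputable def om (n k : ℕ) : ℝ := k / (2 * (n + k))

lemma om_pos {n k : ℕ} (hk : 0 < k) : 0 < om n k := by unfold om; positivity

lemma om_lt {n k : ℕ} (hn : 0 < n) (hk : 0 < k) : om n k < 1 / 2 := by
  unfold om
  have h1 : (0:ℝ) < n := by exact_mod_cast hn
  have h2 : (0:ℝ) < k := by exact_mod_cast hk
  rw [div_lt_div_iff₀ (by positivity) (by norm_num)]
  linarith

lemma om_rel {n k : ℕ} (hn : 0 < n) : (1 - om n k) * k = om n k * ((2 * n + k : ℕ) : ℝ) := by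
  unfold om
  have h1 : (0:ℝ) < n := by exact_mod_cast hn
  push_cast
  field_simp
  ring

theorem main (n k : ℕ) (hn : 0 < n) (hk : 0 < k) :
    ∃ (T : ℝ → ℝ) (Z : ℝ → ℝ → ℂ) (Θ : ℝ → ℝ → ℝ) (C : ℝ),
      StrictAntiOn T (Ioi 0) ∧
      ∀ s : ℝ, 0 < s →
        (∀ t, HasDerivAt (Z s) (vf n k (Z s t)) t) ∧ Z s 0 = s ∧
        (∀ a b : ℝ, a < 0 → 0 < b → ∀ f : ℝ → ℂ, f 0 = s →
          (∀ t ∈ Ioo a b, HasDerivAt f (vf n k (f t)) t) → EqOn f (Z s) (Ioo a b)) ∧
        0 < T s ∧ (∀ t, Z s (t + T s) = Z s t) ∧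
        (∀ t, 0 < t → t < T s → ∀ x : ℝ, 0 < x → Z s t ≠ x) ∧
        (∀ t, Z s t ≠ 0) ∧
        Continuous (Θ s) ∧ StrictMono (Θ s) ∧ Θ s 0 = 0 ∧ (∀ t, Θ s (t + T s) = Θ s t + 2 * π) ∧
        (∀ t, Z s t = ‖Z s t‖ * Complex.exp (Θ s t * Complex.I)) ∧
        (s ≤ 1 → ∀ t, ‖Z s t‖ ≤ C * s) := by
  set w := om n k with hw
  have h0 : 0 < w := om_pos hk
  have h12 : w < 1 / 2 := om_lt hn hk
  have h1 : w < 1 := by linarith
  set N := 2 * n + k with hN
  have hNp : 0 < N := by omega
  have hrel : (1 - w) * k = w * N := om_rel hn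
  have hT0 := Tper_strictAnti h0 h12
  -- bound
  obtain ⟨B, hB⟩ := (isCompact_Icc (a := (-1:ℝ)) (b := 1)).exists_bound_of_continuousOn (Xi_cont h0 h1).continuousOn
  refine ⟨fun s => Tper w (s ^ N), zz w N k, Th w N k, exp ((1 - w) * B / N), ?_, ?_⟩
  · intro s₁ hs₁ s₂ hs₂ hlt
    have hs₁' : (0:ℝ) < s₁ := hs₁
    have hs₂' : (0:ℝ) < s₂ := hs₂
    apply hT0 (mem_Ici.2 (by positivity)) (mem_Ici.2 (by positivity))
    exact pow_lt_pow_left₀ hlt hs₁'.le hNp.ne'
  · intro s hs
    have hZ0 : zz w N k s 0 = s := by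
      unfold zz rr
      rw [Th_zero h0 h1]
      have hX0 : Xi w 0 = 0 := by
        have := Xi_G h0 h1 0
        unfold G at this
        simpa using this
      simp [hX0]
    have hsol : ∀ t, HasDerivAt (zz w N k s) (vf n k (zz w N k s t)) t :=
      fun t => zz_hasDeriv h0 h1 N k s hN hNp hrel t
    have hrpos : ∀ θ, 0 < rr w N k s θ := fun θ => by unfold rr; positivity
    have hnorm : ∀ t, ‖zz w N k s t‖ = rr w N k s (Th w N k s t) := by
      intro t
      unfold zz
      rw [norm_mul, Complex.norm_exp_ofReal_mul_I, mul_one, Complex.norm_real, Real.norm_eq_abs,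
        abs_of_pos (hrpos _)]
    have hne : ∀ t, zz w N k s t ≠ 0 := by
      intro t h
      have := hnorm t
      rw [h, norm_zero] at this
      exact (hrpos _).ne this
    have hTpos : 0 < Tper w (s ^ N) := by
      rw [← tau_period h0 h1 N k s hk, ← tau_zero (w := w) N k s]
      exact tau_strictMono h0 h1 N k s (by positivity)
    have hadd := fun t => Th_add h0 h1 N k s hk t
    refine ⟨hsol, hZ0, ?_, hTpos, ?_, ?_, hne, Th_cont h0 h1 N k s, Th_strictMono h0 h1 N k s,
      Th_zero h0 h1 N k s, hadd, ?_, ?_⟩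
    · intro a b ha hb f hf0 hf
      exact vf_unique hsol ha hb hf (by rw [hf0, hZ0])
    · intro t
      show zz w N k s (t + Tper w (s ^ N)) = zz w N k s t
      unfold zz
      rw [hadd t]
      have e1 : rr w N k s (Th w N k s t + 2 * π) = rr w N k s (Th w N k s t) := by
        unfold rr
        rw [mul_add, Real.sin_add_nat_mul_two_pi]
      rw [e1]
      congr 1
      push_cast
      rw [add_mul, Complex.exp_add, Complex.exp_two_pi_mul_I, mul_one]
    · intro t ht0 ht1 x hx h
      have hn1 := hnorm t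
      unfold zz at h
      have hpos := hrpos (Th w N k s t)
      have hθ0 : 0 < Th w N k s t := by
        have := Th_strictMono h0 h1 N k s ht0
        rwa [Th_zero h0 h1] at this
      have hθ1 : Th w N k s t < 2 * π := by
        have := Th_strictMono h0 h1 N k s ht1
        have h2 := hadd 0
        rw [zero_add, Th_zero h0 h1, zero_add] at h2
        rwa [h2] at this
      -- cos = 1
      have him := congrArg Complex.im h
      have hre := congrArg Complex.re h
      rw [Complex.im_ofReal_mul, Complex.exp_ofReal_mul_I_im, Complex.ofReal_im] at him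
      rw [Complex.re_ofReal_mul, Complex.exp_ofReal_mul_I_re, Complex.ofReal_re] at hre
      have hs0 : sin (Th w N k s t) = 0 := by
        rcases mul_eq_zero.1 him with h | h
        · exact absurd h hpos.ne'
        · exact h
      have hc0 : 0 < cos (Th w N k s t) := by
        by_contra hcon
        push Not at hcon
        nlinarith
      have hpi : Th w N k s t = π := by
        by_contra hne'
        rcases lt_or_gt_of_ne hne' with hlt | hgt
        · exact absurd hs0 (Real.sin_pos_of_pos_of_lt_pi hθ0 hlt).ne'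
        · have : 0 < sin (Th w N k s t - π) := Real.sin_pos_of_pos_of_lt_pi (by linarith) (by linarith)
          rw [Real.sin_sub_pi, hs0] at this
          simp at this
      rw [hpi, Real.cos_pi] at hc0
      linarith
    · intro t
      rw [hnorm t]
      rfl
    · intro hs1 t
      rw [hnorm t]
      unfold rr
      rw [mul_comm]
      apply mul_le_mul_of_nonneg_right _ hs.le
      apply exp_le_exp.2
      have hmem : s ^ N * sin (k * Th w N k s t) ∈ Icc (-1:ℝ) 1 := by
        have a1 : |s ^ N * sin (k * Th w N k s t)| ≤ 1 := by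
          rw [abs_mul, abs_of_nonneg (by positivity)]
          exact mul_le_one₀ (pow_le_one₀ hs.le hs1) (abs_nonneg _) (abs_sin_le_one _)
        exact abs_le.1 a1
      have hb := hB _ hmem
      rw [Real.norm_eq_abs] at hb
      have hb2 := neg_le_of_abs_le hb
      have hNr : (0:ℝ) < N := by exact_mod_cast hNp
      rw [← neg_div]
      apply div_le_div_of_nonneg_right _ hNr.le
      nlinarith

end H745
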