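import Pool.Agent.H745R2.P11

set_option autoImplicit false

open Real Set MeasureTheory Filter Topology

namespace H745

lemma ss_le {w : ℝ} (h0 : 0 < w) (h1 : w < 1 / 2) (R : ℝ) : |ss w R| ≤ 1 / sin (2 * (π * w)) := by
  rw [abs_of_pos (ss_pos h0 h1 R)]
  unfold ss
  have hs := sin2_pos h0 h1
  have hd := den_ge R (2 * (π * w))
  have hd0 := ssden_pos h0 h1 R
  rw [div_le_div_iff₀ hd0 hs]
  nlinarith

lemma DD_hasDeriv {w : ℝ} (h0 : 0 < w) (h1 : w < 1 / 2) (R : ℝ) : HasDerivAt (DD w) (ss w R) R :=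
  ((ss_cont h0 h1).integral_hasStrictDerivAt 0 R).hasDerivAt

/-- the period function is differentiable with negative derivative -/
theorem Tper_deriv {w : ℝ} (h0 : 0 < w) (h1 : w < 1 / 2) :
    ∃ T' : ℝ → ℝ, ∀ l : ℝ, 0 < l → HasDerivAt (Tper w) (T' l) l ∧ T' l < 0 := by
  obtain ⟨μ, hμ, hs, hT⟩ := Tper_final h0 h1
  have hBB : 0 < BB w := by unfold BB; positivity
  have hss := ss_cont h0 h1
  refine ⟨fun l => -(1 / (1 - w) * ∫ t, ss w (l ^ 2 * BB w * t) * (2 * l * BB w * t) ∂μ), fun l hl => ?_⟩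
  have hTf : Tper w = fun l => 2 * π - 1 / (1 - w) * ∫ t, DD w (l ^ 2 * BB w * t) ∂μ := funext hT
  have hcont : ∀ l : ℝ, Continuous (fun t => DD w (l ^ 2 * BB w * t)) := fun l => (DD_cont h0 h1).comp (by fun_prop)
  have hcont' : ∀ l : ℝ, Continuous (fun t => ss w (l ^ 2 * BB w * t) * (2 * l * BB w * t)) :=
    fun l => (hss.comp (by fun_prop)).mul (by fun_prop)
  have hint : ∀ f : ℝ → ℝ, Continuous f → Integrable f μ := by
    intro f hc
    obtain ⟨C, hC⟩ := isCompact_Icc.exists_bound_of_continuousOn (s := Icc (0:ℝ) 1) hc.continuousOn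
    refine Integrable.mono' (integrable_const C) hc.measurable.aestronglyMeasurable ?_
    filter_upwards [hs] with t ht using hC _ ⟨ht.1.le, ht.2⟩
  have hmain := hasDerivAt_integral_of_dominated_loc_of_deriv_le (μ := μ)
    (F := fun l t => DD w (l ^ 2 * BB w * t)) (x₀ := l) (s := Ioo 0 (l + 1))
    (bound := fun _ => 1 / sin (2 * (π * w)) * (2 * (l + 1) * BB w))
    (F' := fun l t => ss w (l ^ 2 * BB w * t) * (2 * l * BB w * t))
    (Ioo_mem_nhds hl (by linarith))
    (Eventually.of_forall fun l => (hcont l).measurable.aestronglyMeasurable)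
    (hint _ (hcont l)) ((hcont' l).measurable.aestronglyMeasurable)
    (by
      filter_upwards [hs] with t ht x hx
      rw [norm_mul]
      have a1 := ss_le h0 h1 (x ^ 2 * BB w * t)
      have hs2 := sin2_pos h0 h1
      apply mul_le_mul a1 _ (norm_nonneg _) (by positivity)
      rw [Real.norm_eq_abs, abs_of_pos (mul_pos (mul_pos (mul_pos two_pos hx.1) hBB) ht.1)]
      calc 2 * x * BB w * t ≤ 2 * (l + 1) * BB w * 1 := by
            apply mul_le_mul _ ht.2 ht.1.le (by positivity)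
            apply mul_le_mul_of_nonneg_right _ hBB.le
            linarith [hx.2]
        _ = _ := by ring)
    (integrable_const _)
    (by
      filter_upwards [hs] with t ht x hx
      have d1 : HasDerivAt (fun x : ℝ => x ^ 2 * BB w * t) (2 * x * BB w * t) x := by
        have := (((hasDerivAt_pow 2 x).mul_const (BB w)).mul_const t)
        simpa using this
      exact (DD_hasDeriv h0 h1 _).comp x d1)
  constructor
  · rw [hTf]
    have := (hmain.2.const_mul (1 / (1 - w))).const_sub (2 * π)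
    exact this
  · have hpos : 0 < ∫ t, ss w (l ^ 2 * BB w * t) * (2 * l * BB w * t) ∂μ := by
      have hnn : 0 ≤ᵐ[μ] fun t => ss w (l ^ 2 * BB w * t) * (2 * l * BB w * t) := by
        filter_upwards [hs] with t ht
        exact mul_nonneg (ss_pos h0 h1 _).le (by have := ht.1; positivity)
      rw [integral_pos_iff_support_of_nonneg_ae hnn (hint _ (hcont' l))]
      have : (Function.support fun t => ss w (l ^ 2 * BB w * t) * (2 * l * BB w * t)) =ᵐ[μ] (univ : Set ℝ) := by
        rw [Filter.eventuallyEq_univ]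
        filter_upwards [hs] with t ht
        rw [Function.mem_support]
        have := ht.1
        have := ss_pos h0 h1 (l ^ 2 * BB w * t)
        positivity
      rw [measure_congr this]
      simp
    have h1w : 0 < 1 / (1 - w) := by
      have : 0 < 1 - w := by linarith
      positivity
    simp only
    nlinarith

/-- general radial derivative for `N = k = 1` -/
lemma rr1_hasDeriv {w : ℝ} (h0 : 0 < w) (h1 : w < 1) (s θ : ℝ) :
    HasDerivAt (rr w 1 1 s) ((1 - w) / w * (Hs w (s * sin θ) * (rr w 1 1 s θ ^ 2 * cos θ))) θ := by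
  set σ := s * sin θ with hσ
  have d1 : HasDerivAt (fun θ : ℝ => s ^ 1 * sin (((1:ℕ):ℝ) * θ)) (s ^ 1 * (cos (((1:ℕ):ℝ) * θ) * (((1:ℕ):ℝ) * 1))) θ :=
    ((((hasDerivAt_id θ).const_mul (((1:ℕ):ℝ))).sin)).const_mul _
  have hσ' : s ^ 1 * sin (((1:ℕ):ℝ) * θ) = σ := by rw [hσ]; simp
  have dX := Xi_hasDeriv h0 h1 (s ^ 1 * sin (((1:ℕ):ℝ) * θ))
  have d2 := dX.comp θ d1
  have d3 := ((((d2.const_mul (1 - w)).div_const ((1:ℕ):ℝ)).neg).exp).const_mul s
  have e : (1 - w) / w * (Hs w σ * (rr w 1 1 s θ ^ 2 * cos θ)) =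
      s * (exp (-((1 - w) * (Xi w ∘ fun θ => s ^ 1 * sin (((1:ℕ):ℝ) * θ)) θ / ((1:ℕ):ℝ))) *
        -((1 - w) * ((-(w * exp ((1 - w) * Xi w (s ^ 1 * sin (((1:ℕ):ℝ) * θ))) / Hx w (Xi w (s ^ 1 * sin (((1:ℕ):ℝ) * θ)))))⁻¹ * (s ^ 1 * (cos (((1:ℕ):ℝ) * θ) * (((1:ℕ):ℝ) * 1)))) / ((1:ℕ):ℝ))) := by
    have hr : rr w 1 1 s θ = s * exp (-((1 - w) * Xi w σ / ((1:ℕ):ℝ))) := by rw [← hσ']; rfl
    have hp := rr_pow (w := w) (k := 1) one_pos s θ
    rw [pow_one, pow_one, ← pow_one s, hσ', pow_one] at hp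
    rw [pow_two]
    nth_rewrite 1 [hp]
    rw [hr]
    simp only [Function.comp_apply, hσ']
    have hH := Hx_pos h0 h1 (Xi w σ)
    have e1 : exp (-((1 - w) * Xi w σ)) = (exp ((1 - w) * Xi w σ))⁻¹ := Real.exp_neg _
    unfold Hs
    rw [e1]
    have hE := Real.exp_pos ((1 - w) * Xi w σ)
    have h1w : 1 - w ≠ 0 := by linarith
    generalize exp (-((1 - w) * Xi w σ / ((1:ℕ):ℝ))) = E2
    generalize exp ((1 - w) * Xi w σ) = E at *
    generalize Hx w (Xi w σ) = H at *
    simp only [Nat.cast_one, one_mul, pow_one, mul_one, div_one]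
    field_simp
  rw [e]
  exact d3

end H745
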