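import Pool.Agent.H745R2.P12

set_option autoImplicit false

open Real Set MeasureTheory Filter Topology

namespace H745

/-- Loud's vector field with `F = 1 + D` -/
def vL (D : ℝ) (p : ℝ × ℝ) : ℝ × ℝ :=
  (-p.2 + p.1 * p.2, p.1 + D * p.1 ^ 2 + (1 + D) * p.2 ^ 2)

lemma vL_contDiff (D : ℝ) : ContDiff ℝ 1 (vL D) := by
  unfold vL
  fun_prop

lemma vL_unique {D : ℝ} {z f : ℝ → ℝ × ℝ} (hz : ∀ t, HasDerivAt z (vL D (z t)) t) {a b : ℝ}
    (ha : a < 0) (hb : 0 < b) (hf : ∀ t ∈ Ioo a b, HasDerivAt f (vL D (f t)) t) (h0 : f 0 = z 0) :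
    EqOn f z (Ioo a b) := by
  intro t ht
  obtain ⟨a', ha1, ha2⟩ : ∃ a', a < a' ∧ a' < min 0 t := exists_between (lt_min ha ht.1)
  obtain ⟨b', hb1, hb2⟩ : ∃ b', max 0 t < b' ∧ b' < b := exists_between (max_lt hb ht.2)
  have hsub : Icc a' b' ⊆ Ioo a b := fun x hx => ⟨ha1.trans_le hx.1, hx.2.trans_lt hb2⟩
  have cf : ContinuousOn f (Icc a' b') := fun x hx => (hf x (hsub hx)).continuousAt.continuousWithinAt
  have cz : ContinuousOn z (Icc a' b') := fun x hx => (hz x).continuousAt.continuousWithinAt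
  obtain ⟨C1, hC1⟩ := isCompact_Icc.exists_bound_of_continuousOn cf
  obtain ⟨C2, hC2⟩ := isCompact_Icc.exists_bound_of_continuousOn cz
  obtain ⟨K, hK⟩ := (vL_contDiff D).contDiffOn.exists_lipschitzOnWith (s := Metric.closedBall (0:ℝ × ℝ) (max C1 C2))
    one_ne_zero (convex_closedBall _ _) (isCompact_closedBall _ _)
  have h00 : (0:ℝ) ∈ Ioo a' b' := ⟨ha2.trans_le (min_le_left _ _), (le_max_left _ _).trans_lt hb1⟩
  have htt : t ∈ Ioo a' b' := ⟨ha2.trans_le (min_le_right _ _), (le_max_right _ _).trans_lt hb1⟩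
  have := ODE_solution_unique_of_mem_Ioo (v := fun _ => vL D) (s := fun _ => Metric.closedBall (0:ℝ × ℝ) (max C1 C2))
    (f := f) (g := z) (a := a') (b := b') (t₀ := 0) (K := K) (fun _ _ => hK) h00
    (fun x hx => ⟨hf x (hsub (Ioo_subset_Icc_self hx)), by
      rw [mem_closedBall_zero_iff]
      exact (hC1 x (Ioo_subset_Icc_self hx)).trans (le_max_left _ _)⟩)
    (fun x hx => ⟨hz x, by
      rw [mem_closedBall_zero_iff]
      exact (hC2 x (Ioo_subset_Icc_self hx)).trans (le_max_right _ _)⟩) h0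
  exact this htt

theorem loud_main {w : ℝ} (h0 : 0 < w) (h12 : w < 1 / 2) :
    ∃ (T T' : ℝ → ℝ) (X Y Θ ρ : ℝ → ℝ → ℝ),
      (∀ s, 0 < s → HasDerivAt T (T' s) s ∧ T' s < 0) ∧ StrictAntiOn T (Ioi 0) ∧
      (∀ p q : ℝ, p < 1 → (p ≠ 0 ∨ q ≠ 0) → ∃! s, 0 < s ∧ ∃ t, X s t = p ∧ Y s t = q) ∧
      ∀ s : ℝ, 0 < s →
        (∀ t, HasDerivAt (X s) (-Y s t + X s t * Y s t) t ∧
          HasDerivAt (Y s) (X s t + (-w) * X s t ^ 2 + (1 + -w) * Y s t ^ 2) t) ∧
        X s 0 = 0 ∧ Y s 0 = s ∧ (∀ t, X s t < 1) ∧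
        0 < T s ∧ (∀ t, X s (t + T s) = X s t) ∧ (∀ t, Y s (t + T s) = Y s t) ∧
        (∀ t, 0 < t → t < T s → ¬ (X s t = 0 ∧ 0 < Y s t)) ∧
        Continuous (Θ s) ∧ StrictMono (Θ s) ∧ Θ s 0 = 0 ∧ (∀ t, Θ s (t + T s) = Θ s t + 2 * π) ∧
        (∀ t, 0 < ρ s t ∧ X s t = -(ρ s t * sin (Θ s t)) ∧ Y s t = ρ s t * cos (Θ s t)) := by
  have h1 : w < 1 := by linarith
  obtain ⟨TD, hTD⟩ := Tper_deriv h0 h12
  have hrpos : ∀ l θ, 0 < l → 0 < rr w 1 1 l θ := fun l θ hl => by unfold rr; positivity
  have hdT : ∀ s, 0 < s → HasDerivAt (fun s => Tper w (w * s)) (TD (w * s) * w) s ∧ TD (w * s) * w < 0 := by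
    intro s hs
    obtain ⟨d1, d2⟩ := hTD (w * s) (by positivity)
    constructor
    · have d3 : HasDerivAt (fun s : ℝ => w * s) w s := by simpa using (hasDerivAt_id s).const_mul w
      exact d1.comp s d3
    · exact mul_neg_of_neg_of_pos d2 h0
  have harg : ∀ l θ : ℝ, l ^ 1 * sin (((1:ℕ):ℝ) * θ) = l * sin θ := by intro l θ; simp
  refine ⟨fun s => Tper w (w * s), fun s => TD (w * s) * w,
    fun s t => -(rr w 1 1 (w * s) (Th w 1 1 (w * s) t) / w * sin (Th w 1 1 (w * s) t)),
    fun s t => rr w 1 1 (w * s) (Th w 1 1 (w * s) t) / w * cos (Th w 1 1 (w * s) t),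
    fun s => Th w 1 1 (w * s), fun s t => rr w 1 1 (w * s) (Th w 1 1 (w * s) t) / w, hdT, ?_, ?_, ?_⟩
  · intro s₁ hs₁ s₂ hs₂ hlt
    have hs₁' : (0:ℝ) < s₁ := hs₁
    have hs₂' : (0:ℝ) < s₂ := hs₂
    exact Tper_strictAnti h0 h12 (mem_Ici.2 (by positivity)) (mem_Ici.2 (by positivity))
      (mul_lt_mul_of_pos_left hlt h0)
  · -- the orbits fill the punctured half plane
    intro p q hp hpq
    -- key relation
    have key : ∀ l θ : ℝ, 0 < l → Xi w (l * sin θ) = - log (1 + rr w 1 1 l θ * sin θ / w) ∧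
        l = rr w 1 1 l θ * exp ((1 - w) * Xi w (l * sin θ)) := by
      intro l θ hl
      have hs := rr_sin h0 h1 (k := 1) one_pos l θ
      rw [harg, pow_one, Nat.cast_one, one_mul] at hs
      constructor
      · have e : 1 + rr w 1 1 l θ * sin θ / w = exp (-Xi w (l * sin θ)) := by
          unfold Hs Hx at hs
          rw [one_div_one_div] at hs
          have hh : rr w 1 1 l θ * sin θ = w * (exp (-Xi w (l * sin θ)) - 1) := by linarith
          rw [hh, mul_div_cancel_left₀ _ h0.ne']
          ring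
        rw [e, log_exp, neg_neg]
      · have hr : rr w 1 1 l θ = l * exp (-((1 - w) * Xi w (l * sin θ))) := by
          have := rr_pow (w := w) (k := 1) one_pos l θ
          rw [pow_one, harg, pow_one] at this
          exact this
        rw [hr, mul_assoc, ← Real.exp_add]
        simp
    set v := -(w * p) with hv
    set u := w * q with hu
    have hvw : -w < v := by rw [hv]; nlinarith
    set z : ℂ := ⟨u, v⟩ with hz
    have hz0 : z ≠ 0 := by
      intro h
      have hre := congrArg Complex.re h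
      have him := congrArg Complex.im h
      simp only [hz, Complex.zero_re, Complex.zero_im] at hre him
      rcases hpq with h' | h'
      · exact h' (by have : w * p = 0 := by linarith
                     exact (mul_eq_zero.1 this).resolve_left h0.ne')
      · exact h' ((mul_eq_zero.1 hre).resolve_left h0.ne')
    set R := ‖z‖ with hR
    have hRp : 0 < R := norm_pos_iff.2 hz0
    set θ := Complex.arg z with hθ
    have hcos : R * cos θ = u := by
      rw [hR, hθ, Complex.norm_mul_cos_arg]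
    have hsin : R * sin θ = v := by
      rw [hR, hθ, Complex.norm_mul_sin_arg]
    have hpos : 0 < 1 + v / w := by
      have : -1 < v / w := by rw [lt_div_iff₀ h0]; linarith
      linarith
    set x0 := -log (1 + v / w) with hx0
    set l := R * exp ((1 - w) * x0) with hl
    have hlp : 0 < l := by positivity
    have hG : G w x0 = l * sin θ := by
      unfold G
      have e1 : exp (-(w * x0)) = exp ((1 - w) * x0) * exp (-x0) := by
        rw [← Real.exp_add]; ring_nf
      have e2 : exp (-x0) = 1 + v / w := by rw [hx0, neg_neg, exp_log hpos]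
      rw [e1, e2, hl, show R * exp ((1 - w) * x0) * sin θ = (R * sin θ) * exp ((1 - w) * x0) by ring, hsin]
      field_simp
      ring
    have hXi : Xi w (l * sin θ) = x0 := by rw [← hG, Xi_G h0 h1]
    have hrR : rr w 1 1 l θ = R := by
      have := rr_pow (w := w) (k := 1) one_pos l θ
      rw [pow_one, harg, pow_one, hXi] at this
      rw [this, hl, mul_assoc, ← Real.exp_add]
      simp
    refine ⟨l / w, ⟨by positivity, tau w 1 1 l θ, ?_, ?_⟩, ?_⟩
    · simp only
      rw [mul_div_cancel₀ _ h0.ne', Th_tau h0 h1, hrR, div_mul_eq_mul_div, hsin, hv]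
      field_simp
      try ring
    · simp only
      rw [mul_div_cancel₀ _ h0.ne', Th_tau h0 h1, hrR, div_mul_eq_mul_div, hcos, hu]
      field_simp
    · rintro s' ⟨hs', t', hx', hy'⟩
      simp only at hx' hy'
      set θ' := Th w 1 1 (w * s') t' with hθ'
      set r' := rr w 1 1 (w * s') θ' with hr'
      have hr'p : 0 < r' := hrpos _ _ (by positivity)
      have hs1 : r' * sin θ' = v := by
        rw [hv, ← hx']
        field_simp
      have hc1 : r' * cos θ' = u := by
        rw [hu, ← hy']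
        field_simp
      have hrr : r' = R := by
        have h2 : r' ^ 2 = R ^ 2 := by
          have a1 : r' ^ 2 = (r' * sin θ') ^ 2 + (r' * cos θ') ^ 2 := by
            have := Real.sin_sq_add_cos_sq θ'; linear_combination (-(r' ^ 2)) * this
          have a2 : R ^ 2 = (R * sin θ) ^ 2 + (R * cos θ) ^ 2 := by
            have := Real.sin_sq_add_cos_sq θ; linear_combination (-(R ^ 2)) * this
          rw [a1, a2, hs1, hc1, hsin, hcos]
        exact (pow_left_inj₀ hr'p.le hRp.le two_ne_zero).1 h2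
      obtain ⟨k1, k2⟩ := key (w * s') θ' (by positivity)
      rw [← hr', hs1, ← hx0] at k1
      rw [← hr', k1, hrr, ← hl] at k2
      rw [← k2]
      field_simp
  · intro s hs
    have hl : 0 < w * s := by positivity
    set l := w * s with hldef
    have hΘ0 : Th w 1 1 l 0 = 0 := Th_zero h0 h1 1 1 l
    have hX0 : Xi w 0 = 0 := by
      have := Xi_G h0 h1 0
      unfold G at this
      simpa using this
    have hr0 : rr w 1 1 l 0 = l := by
      unfold rr
      simp [hX0]
    have hperiod : Tper w l = tau w 1 1 l (2 * π) := by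
      have := tau_period h0 h1 1 1 l one_pos
      rw [this, pow_one]
    have hTpos : 0 < Tper w l := by
      rw [hperiod, ← tau_zero (w := w) 1 1 l]
      exact tau_strictMono h0 h1 1 1 l (by positivity)
    have hadd : ∀ t, Th w 1 1 l (t + Tper w l) = Th w 1 1 l t + 2 * π := by
      intro t
      have := Th_add h0 h1 1 1 l one_pos t
      rwa [pow_one] at this
    have hrper : ∀ θ, rr w 1 1 l (θ + 2 * π) = rr w 1 1 l θ := by
      intro θ
      unfold rr
      rw [harg, harg, Real.sin_add_two_pi]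
    have hd : ∀ t, HasDerivAt (Th w 1 1 l) (1 + rr w 1 1 l (Th w 1 1 l t) * sin (Th w 1 1 l t)) t := by
      intro t
      have := Th_hasDeriv h0 h1 1 1 l t
      have hs' := rr_sin h0 h1 (k := 1) one_pos l (Th w 1 1 l t)
      rw [one_div] at hs'
      rw [← hs', pow_one, Nat.cast_one, one_mul] at this
      exact this
    have hdr : ∀ t, HasDerivAt (fun t => rr w 1 1 l (Th w 1 1 l t))
        ((1 - w) / w * (rr w 1 1 l (Th w 1 1 l t) ^ 2 * cos (Th w 1 1 l t))) t := by
      intro t
      have d1 := (rr1_hasDeriv h0 h1 l (Th w 1 1 l t)).comp t (Th_hasDeriv h0 h1 1 1 l t)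
      have hH := Hs_pos h0 h1 (l * sin (Th w 1 1 l t))
      rw [harg] at d1
      have e : (1 - w) / w * (rr w 1 1 l (Th w 1 1 l t) ^ 2 * cos (Th w 1 1 l t)) =
          (1 - w) / w * (Hs w (l * sin (Th w 1 1 l t)) * (rr w 1 1 l (Th w 1 1 l t) ^ 2 * cos (Th w 1 1 l t))) *
            (Hs w (l * sin (Th w 1 1 l t)))⁻¹ := by
        field_simp
      rw [e]
      exact d1
    refine ⟨?_, ?_, ?_, ?_, hTpos, ?_, ?_, ?_, Th_cont h0 h1 1 1 l, Th_strictMono h0 h1 1 1 l, hΘ0, hadd, ?_⟩
    · intro t
      have a1 := hdr t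
      have a2 := hd t
      constructor
      · have d := ((a1.div_const w).mul a2.sin).neg
        have e : -(rr w 1 1 l (Th w 1 1 l t) / w * cos (Th w 1 1 l t)) +
            -(rr w 1 1 l (Th w 1 1 l t) / w * sin (Th w 1 1 l t)) * (rr w 1 1 l (Th w 1 1 l t) / w * cos (Th w 1 1 l t)) =
            -((1 - w) / w * (rr w 1 1 l (Th w 1 1 l t) ^ 2 * cos (Th w 1 1 l t)) / w * sin (Th w 1 1 l t) +
              rr w 1 1 l (Th w 1 1 l t) / w * (cos (Th w 1 1 l t) * (1 + rr w 1 1 l (Th w 1 1 l t) * sin (Th w 1 1 l t)))) := by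
          field_simp
          ring
        simp only
        rw [e]
        exact d
      · have d := ((a1.div_const w).mul a2.cos)
        have e : -(rr w 1 1 l (Th w 1 1 l t) / w * sin (Th w 1 1 l t)) +
            (-w) * (-(rr w 1 1 l (Th w 1 1 l t) / w * sin (Th w 1 1 l t))) ^ 2 +
            (1 + -w) * (rr w 1 1 l (Th w 1 1 l t) / w * cos (Th w 1 1 l t)) ^ 2 =
            ((1 - w) / w * (rr w 1 1 l (Th w 1 1 l t) ^ 2 * cos (Th w 1 1 l t)) / w * cos (Th w 1 1 l t) +
              rr w 1 1 l (Th w 1 1 l t) / w * (-sin (Th w 1 1 l t) * (1 + rr w 1 1 l (Th w 1 1 l t) * sin (Th w 1 1 l t)))) := by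
          field_simp
          ring
        simp only
        rw [e]
        exact d
    · simp only [← hldef, hΘ0]
      simp
    · simp only
      rw [hΘ0, hr0, hldef]
      simp
      field_simp
    · intro t
      simp only
      have hs' := rr_sin h0 h1 (k := 1) one_pos l (Th w 1 1 l t)
      rw [pow_one, Nat.cast_one, one_mul] at hs'
      unfold Hs Hx at hs'
      rw [one_div_one_div] at hs'
      have hE := mul_pos h0 (Real.exp_pos (-Xi w (l ^ 1 * sin (Th w 1 1 l t))))
      have : -w < rr w 1 1 l (Th w 1 1 l t) * sin (Th w 1 1 l t) := by linarith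
      rw [div_mul_eq_mul_div, ← neg_div, div_lt_one h0]
      linarith
    · intro t
      simp only
      rw [hadd, hrper, Real.sin_add_two_pi]
    · intro t
      simp only
      rw [hadd, hrper, Real.cos_add_two_pi]
    · rintro t ht0 ht1 ⟨hx, hy⟩
      simp only at hx hy
      have hpos := hrpos l (Th w 1 1 l t) hl
      have hθ0 : 0 < Th w 1 1 l t := by
        have := Th_strictMono h0 h1 1 1 l ht0
        rwa [hΘ0] at this
      have hθ1 : Th w 1 1 l t < 2 * π := by
        have := Th_strictMono h0 h1 1 1 l ht1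
        have h2 := hadd 0
        rw [zero_add, hΘ0, zero_add] at h2
        rwa [h2] at this
      have hrw : 0 < rr w 1 1 l (Th w 1 1 l t) / w := by positivity
      have hs0 : sin (Th w 1 1 l t) = 0 := by
        rcases mul_eq_zero.1 (neg_eq_zero.1 hx) with h | h
        · exact absurd h hrw.ne'
        · exact h
      have hc0 : 0 < cos (Th w 1 1 l t) := by
        by_contra hcon
        push Not at hcon
        nlinarith
      have hpi : Th w 1 1 l t = π := by
        by_contra hne'
        rcases lt_or_gt_of_ne hne' with hlt | hgt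
        · exact absurd hs0 (Real.sin_pos_of_pos_of_lt_pi hθ0 hlt).ne'
        · have : 0 < sin (Th w 1 1 l t - π) := Real.sin_pos_of_pos_of_lt_pi (by linarith) (by linarith)
          rw [Real.sin_sub_pi, hs0] at this
          simp at this
      rw [hpi, Real.cos_pi] at hc0
      linarith
    · intro t
      exact ⟨div_pos (hrpos l _ hl) h0, rfl, rfl⟩

end H745
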