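import Pool.Agent.H745R2.P1

set_option autoImplicit false

open Real Set MeasureTheory Filter Topology

namespace H745

lemma sinh_ge_self {y : ℝ} (hy : 0 ≤ y) : sinh y ≤ y * cosh y := by
  have hd : ∀ x : ℝ, HasDerivAt (fun u : ℝ => u * cosh u - sinh u)
      (1 * cosh x + x * sinh x - cosh x) x := by
    intro x
    exact ((hasDerivAt_id x).mul (Real.hasDerivAt_cosh x)).sub (Real.hasDerivAt_sinh x)
  have hm : MonotoneOn (fun u : ℝ => u * cosh u - sinh u) (Ici 0) := by
    apply monotoneOn_of_deriv_nonneg (convex_Ici 0)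
    · exact fun x _ => (hd x).continuousAt.continuousWithinAt
    · exact fun x _ => (hd x).differentiableAt.differentiableWithinAt
    · intro x hx
      rw [interior_Ici, mem_Ioi] at hx
      rw [(hd x).deriv]
      have := mul_nonneg hx.le (Real.sinh_nonneg_iff.2 hx.le)
      linarith
  have := hm (mem_Ici.2 le_rfl) (mem_Ici.2 hy) hy
  simp at this
  linarith

lemma sinh_div_mono : MonotoneOn (fun y : ℝ => sinh y / y) (Ioi 0) := by
  have hd : ∀ x ∈ Ioi (0:ℝ), HasDerivAt (fun u : ℝ => sinh u / u)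
      ((cosh x * x - sinh x * 1) / x ^ 2) x := by
    intro x hx
    exact (Real.hasDerivAt_sinh x).div (hasDerivAt_id x) (ne_of_gt hx)
  apply monotoneOn_of_deriv_nonneg (convex_Ioi 0)
  · exact fun x hx => (hd x hx).continuousAt.continuousWithinAt
  · rw [interior_Ioi]
    exact fun x hx => (hd x hx).differentiableAt.differentiableWithinAt
  · intro x hx
    rw [interior_Ioi] at hx
    rw [(hd x hx).deriv]
    have hx' : (0:ℝ) < x := hx
    apply div_nonneg _ (by positivity)
    have := sinh_ge_self hx'.le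
    linarith

noncomputable def psi (x : ℝ) : ℝ := 1 / (exp (1 / x) - 1)

lemma psi_deriv {x : ℝ} (hx : 0 < x) :
    HasDerivAt psi (((sinh (1 / (2 * x)) / (1 / (2 * x))) ^ 2)⁻¹) x := by
  have h1 : HasDerivAt (fun x : ℝ => 1 / x) (-(x ^ 2)⁻¹) x := by
    simpa using hasDerivAt_inv hx.ne'
  have h2 : HasDerivAt (fun x : ℝ => exp (1 / x) - 1) (exp (1 / x) * -(x ^ 2)⁻¹) x :=
    (h1.exp).sub_const 1
  have hp := exp_sub_one_pos (one_div_pos.2 hx)
  have h3 : HasDerivAt (fun x : ℝ => (exp (1 / x) - 1)⁻¹)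
      (-(exp (1 / x) * -(x ^ 2)⁻¹) / (exp (1 / x) - 1) ^ 2) x := h2.inv hp.ne'
  have e : ((sinh (1 / (2 * x)) / (1 / (2 * x))) ^ 2)⁻¹ =
      -(exp (1 / x) * -(x ^ 2)⁻¹) / (exp (1 / x) - 1) ^ 2 := by
    have e1 : exp (1 / x) = exp (1 / (2 * x)) ^ 2 := by
      rw [← Real.exp_nat_mul]; congr 1; field_simp; norm_num
    have e2 : sinh (1 / (2 * x)) = (exp (1 / (2 * x)) - (exp (1 / (2 * x)))⁻¹) / 2 := by
      rw [Real.sinh_eq, Real.exp_neg]
    rw [e1] at hp
    rw [e2, e1]
    have h4 := Real.exp_pos (1 / (2 * x))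
    generalize exp (1 / (2 * x)) = y at *
    have h5 : y ^ 2 - 1 ≠ 0 := hp.ne'
    have h6 : y - y⁻¹ = (y ^ 2 - 1) / y := by field_simp
    rw [h6]
    field_simp
  rw [e]
  have : psi = fun x : ℝ => (exp (1 / x) - 1)⁻¹ := by funext x; simp [psi]
  rw [this]
  exact h3

lemma psi_convex : ConvexOn ℝ (Ioi 0) psi := by
  apply MonotoneOn.convexOn_of_deriv (convex_Ioi 0)
  · exact fun x hx => (psi_deriv hx).continuousAt.continuousWithinAt
  · rw [interior_Ioi]
    exact fun x hx => (psi_deriv hx).differentiableAt.differentiableWithinAt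
  · rw [interior_Ioi]
    intro x hx y hy hxy
    have hx' : (0:ℝ) < x := hx
    have hy' : (0:ℝ) < y := hy
    rw [(psi_deriv hx).deriv, (psi_deriv hy).deriv]
    have h1 : (1 / (2 * y)) ≤ 1 / (2 * x) := one_div_le_one_div_of_le (by positivity) (by linarith)
    have hy2 : (0:ℝ) < 1 / (2 * y) := by positivity
    have hx2 : (0:ℝ) < 1 / (2 * x) := by positivity
    have h2 := sinh_div_mono (mem_Ioi.2 hy2) (mem_Ioi.2 hx2) h1
    have h3 : 0 < sinh (1 / (2 * y)) / (1 / (2 * y)) := div_pos (Real.sinh_pos_iff.2 hy2) hy2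
    apply inv_anti₀ (by positivity)
    exact pow_le_pow_left₀ h3.le h2 2

/-- Levy density -/
noncomputable def K (a b v : ℝ) : ℝ := phi (v / a) / a + phi (v / b) / b - 2 * phi v

lemma K_nonneg {a b v : ℝ} (ha : 0 < a) (hb : 0 < b) (hab : a + b = 2) (hv : 0 < v) :
    0 ≤ K a b v := by
  have m1 : a / v ∈ Ioi (0:ℝ) := mem_Ioi.2 (by positivity)
  have m2 : b / v ∈ Ioi (0:ℝ) := mem_Ioi.2 (by positivity)
  have h := psi_convex.2 m1 m2 (by norm_num : (0:ℝ) ≤ 1 / 2) (by norm_num : (0:ℝ) ≤ 1 / 2) (by norm_num)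
  have e : (1 / 2 : ℝ) • (a / v) + (1 / 2 : ℝ) • (b / v) = 1 / v := by
    simp only [smul_eq_mul]
    rw [← mul_add, ← add_div, hab]; ring
  rw [e] at h
  simp only [smul_eq_mul, psi, one_div_div, div_one] at h
  have e2 : K a b v = (1 / (exp (v / a) - 1) + 1 / (exp (v / b) - 1) - 2 * (1 / (exp v - 1))) / v := by
    unfold K phi
    generalize 1 / (exp (v / a) - 1) = A
    generalize 1 / (exp (v / b) - 1) = B
    generalize 1 / (exp v - 1) = C
    field_simp
    have : b = 2 - a := by linarith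
    subst this
    ring
  rw [e2]
  apply div_nonneg _ hv.le
  linarith

lemma phi_meas : AEStronglyMeasurable phi (volume.restrict (Ioi 0)) :=
  phi_contOn.aestronglyMeasurable measurableSet_Ioi

lemma K_contOn {a b : ℝ} (ha : 0 < a) (hb : 0 < b) : ContinuousOn (K a b) (Ioi 0) := by
  unfold K
  have h1 : ContinuousOn (fun v : ℝ => phi (v / a)) (Ioi 0) :=
    phi_contOn.comp (by fun_prop) (fun v hv => mem_Ioi.2 (div_pos hv ha))
  have h2 : ContinuousOn (fun v : ℝ => phi (v / b)) (Ioi 0) :=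
    phi_contOn.comp (by fun_prop) (fun v hv => mem_Ioi.2 (div_pos hv hb))
  exact ((h1.div_const a).add (h2.div_const b)).sub (phi_contOn.const_mul 2)

lemma scale_int {a s : ℝ} (ha : 0 < a) (hs : 0 < s) :
    IntegrableOn (fun v => phi (v / a) / a * exp (-(s * v))) (Ioi 0) ∧
    ∫ v in Ioi 0, phi (v / a) / a * exp (-(s * v)) = J (a * s) := by
  have hi := phi_int (mul_pos ha hs)
  have ha' : 0 < a⁻¹ := by positivity
  have e : ∀ v : ℝ, phi (v / a) / a * exp (-(s * v)) =
      a⁻¹ * ((fun u => phi u * exp (-(a * s * u))) (a⁻¹ * v)) := by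
    intro v
    simp only
    rw [show a * s * (a⁻¹ * v) = s * v by field_simp, show a⁻¹ * v = v / a by ring]
    ring
  constructor
  · have := (integrableOn_Ioi_comp_mul_left_iff (fun u => phi u * exp (-(a * s * u))) 0 ha').2
      (by simpa using hi)
    simp only [e]
    exact this.const_mul _
  · simp only [e]
    rw [integral_const_mul, integral_comp_mul_left_Ioi (fun u => phi u * exp (-(a * s * u))) 0 ha']
    simp only [mul_zero, smul_eq_mul, inv_inv]
    rw [← mul_assoc, inv_mul_cancel₀ ha.ne', one_mul, J]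

lemma K_int {a b s : ℝ} (ha : 0 < a) (hb : 0 < b) (hs : 0 < s) :
    IntegrableOn (fun v => K a b v * exp (-(s * v))) (Ioi 0) ∧
    ∫ v in Ioi 0, K a b v * exp (-(s * v)) = J (a * s) + J (b * s) - 2 * J s := by
  obtain ⟨i1, e1⟩ := scale_int ha hs
  obtain ⟨i2, e2⟩ := scale_int hb hs
  have i3 := (phi_int hs).const_mul 2
  have e : (fun v => K a b v * exp (-(s * v))) = fun v =>
      (phi (v / a) / a * exp (-(s * v)) + phi (v / b) / b * exp (-(s * v))) - 2 * (phi v * exp (-(s * v))) := by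
    funext v; unfold K; ring
  have i12 : IntegrableOn (fun v => phi (v / a) / a * exp (-(s * v)) + phi (v / b) / b * exp (-(s * v))) (Ioi 0) :=
    i1.add i2
  rw [e]
  refine ⟨i12.sub i3, ?_⟩
  rw [integral_sub i12 i3, integral_add i1 i2, e1, e2, integral_const_mul]
  rfl

/-- the moments -/
noncomputable def am (a b s : ℝ) : ℝ := Gamma (1 + a * s) * Gamma (1 + b * s) / Gamma (1 + s) ^ 2

lemma am_pos {a b s : ℝ} (ha : 0 < a) (hb : 0 < b) (hs : 0 ≤ s) : 0 < am a b s := by
  unfold am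
  have h1 : 0 < Gamma (1 + a * s) := Gamma_pos_of_pos (by positivity)
  have h2 : 0 < Gamma (1 + b * s) := Gamma_pos_of_pos (by positivity)
  have h3 : 0 < Gamma (1 + s) := Gamma_pos_of_pos (by positivity)
  positivity

/-- `log M` -/
noncomputable def lM (a b : ℝ) : ℝ := a * log a + b * log b

/-- `-Λ` -/
noncomputable def lam (a b : ℝ) : ℝ := (log a + log b) / 2

lemma K_lap {a b s : ℝ} (ha : 0 < a) (hb : 0 < b) (hab : a + b = 2) (hs : 0 < s) :
    J (a * s) + J (b * s) - 2 * J s = log (am a b s) - s * lM a b - lam a b := by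
  have h1 : 0 < Gamma (1 + a * s) := Gamma_pos_of_pos (by positivity)
  have h2 : 0 < Gamma (1 + b * s) := Gamma_pos_of_pos (by positivity)
  have h3 : 0 < Gamma (1 + s) := Gamma_pos_of_pos (by positivity)
  unfold am
  rw [log_div (by positivity) (by positivity), log_mul h1.ne' h2.ne', log_pow,
    log_Gamma_succ (mul_pos ha hs), log_Gamma_succ (mul_pos hb hs), log_Gamma_succ hs,
    log_mul ha.ne' hs.ne', log_mul hb.ne' hs.ne', lM, lam]
  have : b = 2 - a := by linarith
  subst this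
  push_cast
  ring

end H745
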