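import Pool.Agent.H745R2.P2

set_option autoImplicit false

open Real Set MeasureTheory Filter Topology

namespace H745

lemma K_meas (a b : ℝ) : Measurable (K a b) := by
  unfold K phi
  fun_prop

lemma K_lint {a b s : ℝ} (ha : 0 < a) (hb : 0 < b) (hab : a + b = 2) (hs : 0 < s) :
    ∫⁻ v in Ioi 0, ENNReal.ofReal (K a b v * exp (-(s * v))) =
      ENNReal.ofReal (log (am a b s) - s * lM a b - lam a b) ∧
      0 ≤ log (am a b s) - s * lM a b - lam a b := by
  obtain ⟨i, e⟩ := K_int ha hb hs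
  rw [K_lap ha hb hab hs] at e
  have hn : 0 ≤ᵐ[volume.restrict (Ioi 0)] fun v => K a b v * exp (-(s * v)) := by
    rw [EventuallyLE, ae_restrict_iff' measurableSet_Ioi]
    filter_upwards with v hv
    exact mul_nonneg (K_nonneg ha hb hab hv) (exp_pos _).le
  rw [← ofReal_integral_eq_lintegral_ofReal i hn, ← e]
  exact ⟨rfl, integral_nonneg_of_ae hn⟩

lemma am_zero (a b : ℝ) : am a b 0 = 1 := by simp [am]

lemma K_mass {a b : ℝ} (ha : 0 < a) (hb : 0 < b) (hab : a + b = 2) :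
    ∫⁻ v in Ioi 0, ENNReal.ofReal (K a b v) = ENNReal.ofReal (- lam a b) ∧ 0 ≤ - lam a b := by
  have hc : ContinuousAt (fun s => log (am a b s) - s * lM a b - lam a b) 0 := by
    have g1 : ContinuousAt Gamma 1 := (differentiableAt_Gamma (fun m h => by
      have : (0:ℝ) ≤ m := Nat.cast_nonneg m
      linarith)).continuousAt
    have g2 : ∀ c : ℝ, ContinuousAt (fun s => Gamma (1 + c * s)) 0 := by
      intro c
      apply ContinuousAt.comp (g := Gamma) (f := fun s => 1 + c * s)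
      · simpa using g1
      · fun_prop
    have g3 : ContinuousAt (fun s => Gamma (1 + s)) 0 := by simpa using g2 1
    have g4 : ContinuousAt (fun s => am a b s) 0 := by
      unfold am
      exact ((g2 a).mul (g2 b)).div (g3.pow 2) (by simp)
    have g5 : ContinuousAt (fun s => log (am a b s)) 0 := g4.log (by simp [am_zero])
    exact (g5.sub (by fun_prop)).sub (by fun_prop)
  have ht : Tendsto (fun n : ℕ => (1 / ((n:ℝ) + 1))) atTop (𝓝 0) := tendsto_one_div_add_atTop_nhds_zero_nat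
  have h1 := hc.tendsto.comp ht
  simp only [am_zero, log_one, zero_mul, sub_zero, zero_sub] at h1
  have h2 := lintegral_tendsto_of_tendsto_of_monotone (μ := volume.restrict (Ioi (0:ℝ)))
    (f := fun n : ℕ => fun v => ENNReal.ofReal (K a b v * exp (-((1 / ((n:ℝ) + 1)) * v))))
    (F := fun v => ENNReal.ofReal (K a b v)) ?_ ?_ ?_
  · have h3 : Tendsto (fun n : ℕ => ENNReal.ofReal (log (am a b (1 / ((n:ℝ) + 1))) - (1 / ((n:ℝ) + 1)) * lM a b - lam a b))
        atTop (𝓝 (ENNReal.ofReal (- lam a b))) := (ENNReal.continuous_ofReal.tendsto _).comp h1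
    refine ⟨tendsto_nhds_unique h2 (h3.congr fun n => ?_), ?_⟩
    · exact (K_lint ha hb hab (by positivity)).1.symm
    · exact ge_of_tendsto' h1 (fun n => (K_lint ha hb hab (by positivity)).2)
  · intro n
    exact ((K_meas a b).mul (by fun_prop)).ennreal_ofReal.aemeasurable
  · rw [ae_restrict_iff' measurableSet_Ioi]
    filter_upwards with v hv
    intro n m hnm
    apply ENNReal.ofReal_le_ofReal
    apply mul_le_mul_of_nonneg_left _ (K_nonneg ha hb hab hv)
    apply exp_le_exp.2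
    have hv' : (0:ℝ) < v := hv
    have : 1 / ((m:ℝ) + 1) ≤ 1 / ((n:ℝ) + 1) := by
      apply one_div_le_one_div_of_le (by positivity)
      have : (n:ℝ) ≤ m := by exact_mod_cast hnm
      linarith
    nlinarith
  · rw [ae_restrict_iff' measurableSet_Ioi]
    filter_upwards with v hv
    apply (ENNReal.continuous_ofReal.tendsto _).comp
    have : Tendsto (fun n : ℕ => K a b v * exp (-((1 / ((n:ℝ) + 1)) * v))) atTop (𝓝 (K a b v * exp (-(0 * v)))) := by
      have hc : Continuous (fun s : ℝ => K a b v * exp (-(s * v))) := by fun_prop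
      exact (hc.tendsto 0).comp ht
    simpa using this

/-- exponents -/
noncomputable def cj (a b : ℝ) (j : ℕ) : ℝ := log (am a b j) - j * lM a b - lam a b

/-- push-forward of the Levy measure to `(0,1)` -/
noncomputable def kap (a b : ℝ) : Measure ℝ :=
  Measure.map (fun v => exp (-v)) ((volume.restrict (Ioi 0)).withDensity (fun v => ENNReal.ofReal (K a b v)))

lemma cj_nonneg {a b : ℝ} (ha : 0 < a) (hb : 0 < b) (hab : a + b = 2) (j : ℕ) : 0 ≤ cj a b j := by
  rcases Nat.eq_zero_or_pos j with h | h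
  · subst h
    unfold cj
    simp only [Nat.cast_zero, am_zero, log_one, zero_mul, sub_zero, zero_sub]
    exact (K_mass ha hb hab).2
  · exact (K_lint ha hb hab (by exact_mod_cast h)).2

lemma kap_mom {a b : ℝ} (ha : 0 < a) (hb : 0 < b) (hab : a + b = 2) (j : ℕ) :
    ∫⁻ x, ‖x‖ₑ ^ j ∂(kap a b) = ENNReal.ofReal (cj a b j) := by
  unfold kap
  rw [lintegral_map (by fun_prop) (by fun_prop), lintegral_withDensity_eq_lintegral_mul _
    (K_meas a b).ennreal_ofReal (by fun_prop)]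
  have e : ∫⁻ v in Ioi 0, ((fun v => ENNReal.ofReal (K a b v)) * fun v => ‖exp (-v)‖ₑ ^ j) v
      = ∫⁻ v in Ioi 0, ENNReal.ofReal (K a b v * exp (-(j * v))) := by
    apply lintegral_congr
    intro v
    simp only [Pi.mul_apply]
    rw [Real.enorm_eq_ofReal (exp_pos _).le, ← ENNReal.ofReal_pow (exp_pos _).le,
      ENNReal.ofReal_mul' (exp_pos _).le, ← Real.exp_nat_mul, mul_neg]
  rw [e]
  rcases Nat.eq_zero_or_pos j with h | h
  · subst h
    unfold cj
    simp only [Nat.cast_zero, am_zero, log_one, zero_mul, sub_zero, zero_sub, neg_zero, exp_zero, mul_one]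
    exact (K_mass ha hb hab).1
  · exact (K_lint ha hb hab (by exact_mod_cast h)).1

lemma kap_fin {a b : ℝ} (ha : 0 < a) (hb : 0 < b) (hab : a + b = 2) : IsFiniteMeasure (kap a b) := by
  constructor
  have := kap_mom ha hb hab 0
  simp only [pow_zero, lintegral_const, one_mul] at this
  rw [this]
  exact ENNReal.ofReal_lt_top

lemma kap_supp (a b : ℝ) : ∀ᵐ x ∂(kap a b), x ∈ Ioc (0:ℝ) 1 := by
  unfold kap
  rw [ae_map_iff (p := fun x => x ∈ Ioc (0:ℝ) 1) (by fun_prop) measurableSet_Ioc]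
  have h : ∀ᵐ v ∂(volume.restrict (Ioi (0:ℝ))), exp (-v) ∈ Ioc (0:ℝ) 1 := by
    rw [ae_restrict_iff' measurableSet_Ioi]
    filter_upwards with v hv
    have hv' : (0:ℝ) < v := hv
    exact ⟨exp_pos _, by rw [exp_le_one_iff]; linarith⟩
  exact (withDensity_absolutelyContinuous _ _).ae_le h

/-- multiplicative convolution powers -/
noncomputable def Pn (κ : Measure ℝ) : ℕ → Measure ℝ
  | 0 => Measure.dirac 1
  | n + 1 => Measure.map (fun p : ℝ × ℝ => p.1 * p.2) (κ.prod (Pn κ n))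

instance Pn_fin (κ : Measure ℝ) [IsFiniteMeasure κ] (n : ℕ) : IsFiniteMeasure (Pn κ n) := by
  induction n with
  | zero => unfold Pn; infer_instance
  | succ n ih => unfold Pn; infer_instance

lemma Pn_mom (κ : Measure ℝ) [IsFiniteMeasure κ] (j n : ℕ) :
    ∫⁻ x, ‖x‖ₑ ^ j ∂(Pn κ n) = (∫⁻ x, ‖x‖ₑ ^ j ∂κ) ^ n := by
  induction n with
  | zero =>
    unfold Pn
    rw [lintegral_dirac' _ (by fun_prop)]
    simp
  | succ n ih =>
    unfold Pn
    rw [lintegral_map (by fun_prop) (by fun_prop)]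
    simp only [enorm_mul, mul_pow]
    rw [lintegral_prod_mul (f := fun x : ℝ => ‖x‖ₑ ^ j) (g := fun x : ℝ => ‖x‖ₑ ^ j) (by fun_prop)
      (by fun_prop), ih, pow_succ']

lemma Pn_supp (κ : Measure ℝ) [IsFiniteMeasure κ] (h : ∀ᵐ x ∂κ, x ∈ Ioc (0:ℝ) 1) (n : ℕ) :
    ∀ᵐ x ∂(Pn κ n), x ∈ Ioc (0:ℝ) 1 := by
  induction n with
  | zero =>
    unfold Pn
    rw [ae_dirac_iff (p := fun x => x ∈ Ioc (0:ℝ) 1) measurableSet_Ioc]
    simp
  | succ n ih =>
    unfold Pn
    rw [ae_map_iff (p := fun x => x ∈ Ioc (0:ℝ) 1) (by fun_prop) measurableSet_Ioc]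
    have h1 : ∀ᵐ p ∂(κ.prod (Pn κ n)), p.1 ∈ Ioc (0:ℝ) 1 := Measure.quasiMeasurePreserving_fst.ae h
    have h2 : ∀ᵐ p ∂(κ.prod (Pn κ n)), p.2 ∈ Ioc (0:ℝ) 1 := Measure.quasiMeasurePreserving_snd.ae ih
    filter_upwards [h1, h2] with p hp1 hp2
    exact ⟨mul_pos hp1.1 hp2.1, mul_le_one₀ hp1.2 hp2.1.le hp2.2⟩

theorem exists_mu {a b : ℝ} (ha : 0 < a) (hb : 0 < b) (hab : a + b = 2) :
    ∃ μ : Measure ℝ, IsProbabilityMeasure μ ∧ (∀ᵐ x ∂μ, x ∈ Ioc (0:ℝ) 1) ∧
      ∀ j : ℕ, ∫ x, x ^ j ∂μ = am a b j * exp (-(j * lM a b)) := by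
  have := kap_fin ha hb hab
  let μ : Measure ℝ := Measure.sum fun n : ℕ => ENNReal.ofReal (exp (lam a b) / n.factorial) • Pn (kap a b) n
  have hm : ∀ j : ℕ, ∫⁻ x, ‖x‖ₑ ^ j ∂μ = ENNReal.ofReal (am a b j * exp (-(j * lM a b))) := by
    intro j
    rw [lintegral_sum_measure]
    simp only [lintegral_smul_measure, Pn_mom, kap_mom ha hb hab, smul_eq_mul]
    have hc := cj_nonneg ha hb hab j
    have e1 : ∀ n : ℕ, ENNReal.ofReal (exp (lam a b) / n.factorial) * ENNReal.ofReal (cj a b j) ^ n =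
        ENNReal.ofReal (exp (lam a b) * (cj a b j ^ n / n.factorial)) := by
      intro n
      rw [← ENNReal.ofReal_pow hc, ← ENNReal.ofReal_mul (by positivity)]
      congr 1
      ring
    simp only [e1]
    have hs : HasSum (fun n : ℕ => cj a b j ^ n / (n.factorial : ℝ)) (exp (cj a b j)) := by
      have := NormedSpace.expSeries_div_hasSum_exp (𝔸 := ℝ) (cj a b j)
      rwa [← Real.exp_eq_exp_ℝ] at this
    have hs2 := hs.mul_left (exp (lam a b))
    rw [← ENNReal.ofReal_tsum_of_nonneg (fun n => by positivity) hs2.summable, hs2.tsum_eq,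
      ← Real.exp_add]
    congr 1
    unfold cj
    rw [show lam a b + (log (am a b j) - j * lM a b - lam a b) = log (am a b j) + -(j * lM a b) by ring,
      Real.exp_add, Real.exp_log (am_pos ha hb (Nat.cast_nonneg j))]
  have hsupp : ∀ᵐ x ∂μ, x ∈ Ioc (0:ℝ) 1 := by
    rw [Measure.ae_sum_iff' (p := fun x => x ∈ Ioc (0:ℝ) 1) measurableSet_Ioc]
    intro n
    exact Measure.ae_smul_measure (Pn_supp _ (kap_supp a b) n) _
  refine ⟨μ, ?_, hsupp, ?_⟩
  · constructor
    have := hm 0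
    simpa [am_zero] using this
  · intro j
    have e : ∫ x, x ^ j ∂μ = (∫⁻ x, ENNReal.ofReal (x ^ j) ∂μ).toReal := by
      rw [integral_eq_lintegral_of_nonneg_ae]
      · filter_upwards [hsupp] with x hx
        exact pow_nonneg hx.1.le _
      · exact (by fun_prop : Measurable fun x : ℝ => x ^ j).aestronglyMeasurable
    have e2 : ∫⁻ x, ENNReal.ofReal (x ^ j) ∂μ = ∫⁻ x, ‖x‖ₑ ^ j ∂μ := by
      apply lintegral_congr_ae
      filter_upwards [hsupp] with x hx
      rw [Real.enorm_eq_ofReal hx.1.le, ENNReal.ofReal_pow hx.1.le]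
    rw [e, e2, hm j, ENNReal.toReal_ofReal]
    exact mul_nonneg (am_pos ha hb (Nat.cast_nonneg j)).le (exp_pos _).le

end H745
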