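import Mathlib

set_option autoImplicit false

open Complex Set MeasureTheory Filter Topology

namespace H745

/-- boundary integral of a rectangle -/
noncomputable def RI (a b c d : ℝ) (f : ℂ → ℂ) : ℂ :=
  (∫ x in a..b, f ((x:ℂ) + c * I)) - (∫ x in a..b, f ((x:ℂ) + d * I))
    + I * (∫ y in c..d, f ((b:ℂ) + y * I)) - I * (∫ y in c..d, f ((a:ℂ) + y * I))

lemma rect_inv (a b c d : ℝ) (p : ℂ) (ha : a < p.re) (hb : p.re < b) (hc : c < p.im)
    (hd : p.im < d) :
    RI a b c d (fun z => (z - p)⁻¹) = 2 * Real.pi * I := by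
  unfold RI
  have h1 : (∫ x in a..b, ((x:ℂ) + c * I - p)⁻¹) = log (b + c * I - p) - log (a + c * I - p) := by
    have := intervalIntegral.integral_eq_sub_of_hasDerivAt
      (f := fun x : ℝ => log ((x:ℂ) + c * I - p)) (f' := fun x : ℝ => ((x:ℂ) + c * I - p)⁻¹)
      (a := a) (b := b) ?_ ?_
    · exact this
    · intro x _
      have h : HasDerivAt (fun x : ℝ => (x:ℂ) + c * I - p) 1 x :=
        ((Complex.ofRealCLM.hasDerivAt (x := x)).add_const _).sub_const _
      have := h.clog_real (Or.inr (by simp; intro h; linarith))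
      simpa using this
    · apply ContinuousOn.intervalIntegrable
      apply ContinuousOn.inv₀
      · fun_prop
      · intro x _ h
        have := congrArg Complex.im h
        simp at this
        linarith
  have h2 : (∫ x in a..b, ((x:ℂ) + d * I - p)⁻¹) = log (b + d * I - p) - log (a + d * I - p) := by
    have := intervalIntegral.integral_eq_sub_of_hasDerivAt
      (f := fun x : ℝ => log ((x:ℂ) + d * I - p)) (f' := fun x : ℝ => ((x:ℂ) + d * I - p)⁻¹)
      (a := a) (b := b) ?_ ?_
    · exact this
    · intro x _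
      have h : HasDerivAt (fun x : ℝ => (x:ℂ) + d * I - p) 1 x :=
        ((Complex.ofRealCLM.hasDerivAt (x := x)).add_const _).sub_const _
      have := h.clog_real (Or.inr (by simp; intro h; linarith))
      simpa using this
    · apply ContinuousOn.intervalIntegrable
      apply ContinuousOn.inv₀
      · fun_prop
      · intro x _ h
        have := congrArg Complex.im h
        simp at this
        linarith
  have h3 : I * (∫ y in c..d, ((b:ℂ) + y * I - p)⁻¹) = log (b + d * I - p) - log (b + c * I - p) := by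
    have := intervalIntegral.integral_eq_sub_of_hasDerivAt
      (f := fun y : ℝ => log ((b:ℂ) + y * I - p)) (f' := fun y : ℝ => I * ((b:ℂ) + y * I - p)⁻¹)
      (a := c) (b := d) ?_ ?_
    · rw [← intervalIntegral.integral_const_mul]
      exact this
    · intro y _
      have h : HasDerivAt (fun y : ℝ => (b:ℂ) + y * I - p) I y := by
        have := ((Complex.ofRealCLM.hasDerivAt (x := y)).mul_const I).const_add (b:ℂ) |>.sub_const p
        simpa using this
      have := h.clog_real (Or.inl (by simp; linarith))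
      simpa [div_eq_mul_inv] using this
    · apply ContinuousOn.intervalIntegrable
      apply ContinuousOn.mul continuousOn_const
      apply ContinuousOn.inv₀
      · fun_prop
      · intro x _ h
        have := congrArg Complex.re h
        simp at this
        linarith
  have h4 : I * (∫ y in c..d, ((a:ℂ) + y * I - p)⁻¹) = log (p - (a + d * I)) - log (p - (a + c * I)) := by
    have := intervalIntegral.integral_eq_sub_of_hasDerivAt
      (f := fun y : ℝ => log (p - ((a:ℂ) + y * I))) (f' := fun y : ℝ => I * ((a:ℂ) + y * I - p)⁻¹)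
      (a := c) (b := d) ?_ ?_
    · rw [← intervalIntegral.integral_const_mul]
      exact this
    · intro y _
      have h : HasDerivAt (fun y : ℝ => p - ((a:ℂ) + y * I)) (-I) y := by
        have := (((Complex.ofRealCLM.hasDerivAt (x := y)).mul_const I).const_add (a:ℂ)).const_sub p
        simpa using this
      have := h.clog_real (Or.inl (by simp; linarith))
      have e : I * ((a:ℂ) + y * I - p)⁻¹ = -I / (p - ((a:ℂ) + y * I)) := by
        rw [div_eq_mul_inv, ← neg_sub ((a:ℂ) + y * I) p, inv_neg]
        ring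
      rw [e]
      exact this
    · apply ContinuousOn.intervalIntegrable
      apply ContinuousOn.mul continuousOn_const
      apply ContinuousOn.inv₀
      · fun_prop
      · intro x _ h
        have := congrArg Complex.re h
        simp at this
        linarith
  rw [h1, h2, h3, h4]
  have key : ∀ z : ℂ, 0 < z.im → log z - log (-z) = Real.pi * I := by
    intro z hz
    have hz0 : z ≠ 0 := by rintro rfl; simp at hz
    rw [Complex.log, Complex.log, Complex.arg_neg_eq_arg_sub_pi_of_im_pos hz]
    simp
    ring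
  have k1 := key (a + d * I - p) (by simp; linarith)
  have k2 := key (p - (a + c * I)) (by simp; linarith)
  rw [neg_sub] at k1 k2
  linear_combination k1 + k2

lemma RI_zero {a b c d : ℝ} (hab : a ≤ b) (hcd : c ≤ d) {f : ℂ → ℂ}
    (hf : DifferentiableOn ℂ f (Set.Icc a b ×ℂ Set.Icc c d)) : RI a b c d f = 0 := by
  have H := Complex.integral_boundary_rect_eq_zero_of_differentiableOn f ⟨a, c⟩ ⟨b, d⟩ (by
    simpa [uIcc_of_le hab, uIcc_of_le hcd] using hf)
  unfold RI
  simpa [smul_eq_mul] using H

/-- Cauchy integral formula on a rectangle -/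
lemma RI_cauchy {a b c d : ℝ} (hab : a ≤ b) (hcd : c ≤ d) {h : ℂ → ℂ}
    (hh : DifferentiableOn ℂ h (Set.Icc a b ×ℂ Set.Icc c d))
    {p : ℂ} (ha : a < p.re) (hb : p.re < b) (hc : c < p.im) (hd : p.im < d) :
    RI a b c d (fun s => h s * (s - p)⁻¹) = 2 * Real.pi * I * h p := by
  have hnb : (Set.Icc a b ×ℂ Set.Icc c d) ∈ 𝓝 p := by
    rw [← Complex.re_add_im p]
    have : IsOpen (Set.Ioo a b ×ℂ Set.Ioo c d) := isOpen_Ioo.reProdIm isOpen_Ioo
    have h2 : (p.re : ℂ) + p.im * I ∈ (Set.Ioo a b ×ℂ Set.Ioo c d) := by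
      rw [Complex.re_add_im, Complex.mem_reProdIm]
      exact ⟨⟨ha, hb⟩, ⟨hc, hd⟩⟩
    refine Filter.mem_of_superset (this.mem_nhds h2) ?_
    intro z hz
    rw [Complex.mem_reProdIm] at hz ⊢
    exact ⟨Ioo_subset_Icc_self hz.1, Ioo_subset_Icc_self hz.2⟩
  have hds : DifferentiableOn ℂ (dslope h p) (Set.Icc a b ×ℂ Set.Icc c d) :=
    (Complex.differentiableOn_dslope hnb).2 hh
  have hz := RI_zero hab hcd hds
  have hi := rect_inv a b c d p ha hb hc hd
  -- lines
  have mapsh : ∀ e : ℝ, e ∈ Icc c d → MapsTo (fun x : ℝ => (x:ℂ) + e * I) (Icc a b) (Set.Icc a b ×ℂ Set.Icc c d) := by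
    intro e he x hx
    rw [Complex.mem_reProdIm]
    simpa using ⟨hx, he⟩
  have mapsv : ∀ e : ℝ, e ∈ Icc a b → MapsTo (fun y : ℝ => (e:ℂ) + y * I) (Icc c d) (Set.Icc a b ×ℂ Set.Icc c d) := by
    intro e he x hx
    rw [Complex.mem_reProdIm]
    simpa using ⟨he, hx⟩
  have hcont := hds.continuousOn
  have nh : ∀ e : ℝ, e ≠ p.im → ∀ x : ℝ, (x:ℂ) + e * I - p ≠ 0 := by
    intro e he x h0
    have := congrArg Complex.im h0
    simp at this
    exact he (by linarith)
  have nv : ∀ e : ℝ, e ≠ p.re → ∀ x : ℝ, (e:ℂ) + x * I - p ≠ 0 := by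
    intro e he x h0
    have := congrArg Complex.re h0
    simp at this
    exact he (by linarith)
  have H : ∀ e : ℝ, e ∈ Icc c d → e ≠ p.im → ∫ x in a..b, h ((x:ℂ) + e * I) * ((x:ℂ) + e * I - p)⁻¹ =
      (∫ x in a..b, dslope h p ((x:ℂ) + e * I)) + h p * ∫ x in a..b, ((x:ℂ) + e * I - p)⁻¹ := by
    intro e he hne
    rw [← intervalIntegral.integral_const_mul, ← intervalIntegral.integral_add]
    · congr 1
      funext x
      have := nh e hne x
      rw [dslope_of_ne _ (sub_ne_zero.1 this), slope_def_field]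
      field_simp
      ring
    · apply ContinuousOn.intervalIntegrable
      rw [uIcc_of_le hab]
      exact hcont.comp (by fun_prop) (mapsh e he)
    · apply ContinuousOn.intervalIntegrable
      apply ContinuousOn.mul continuousOn_const
      apply ContinuousOn.inv₀ (by fun_prop)
      exact fun x _ => nh e hne x
  have V : ∀ e : ℝ, e ∈ Icc a b → e ≠ p.re → ∫ y in c..d, h ((e:ℂ) + y * I) * ((e:ℂ) + y * I - p)⁻¹ =
      (∫ y in c..d, dslope h p ((e:ℂ) + y * I)) + h p * ∫ y in c..d, ((e:ℂ) + y * I - p)⁻¹ := by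
    intro e he hne
    rw [← intervalIntegral.integral_const_mul, ← intervalIntegral.integral_add]
    · congr 1
      funext x
      have := nv e hne x
      rw [dslope_of_ne _ (sub_ne_zero.1 this), slope_def_field]
      field_simp
      ring
    · apply ContinuousOn.intervalIntegrable
      rw [uIcc_of_le hcd]
      exact hcont.comp (by fun_prop) (mapsv e he)
    · apply ContinuousOn.intervalIntegrable
      apply ContinuousOn.mul continuousOn_const
      apply ContinuousOn.inv₀ (by fun_prop)
      exact fun x _ => nv e hne x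
  unfold RI at hz hi ⊢
  simp only at hz hi ⊢
  rw [H c ⟨le_rfl, hcd⟩ hc.ne, H d ⟨hcd, le_rfl⟩ hd.ne', V a ⟨le_rfl, hab⟩ ha.ne, V b ⟨hab, le_rfl⟩ hb.ne']
  linear_combination hz + h p * hi

end H745
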