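import Pool.Agent.H745R2.P4

set_option autoImplicit false

open Complex Set MeasureTheory Filter Topology

namespace H745

/-- `G` -/
noncomputable def G (w x : ℝ) : ℝ := w * (Real.exp (-(w * x)) - Real.exp ((1 - w) * x))

/-- the entire function whose zeros matter -/
noncomputable def Dn (w σ : ℝ) (z : ℂ) : ℂ := w * (1 - exp z) - σ * exp (w * z)

lemma Dn_diff (w σ : ℝ) : Differentiable ℂ (Dn w σ) := by
  unfold Dn
  fun_prop

lemma Dn_deriv (w σ : ℝ) (z : ℂ) : deriv (Dn w σ) z = -(w * exp z) - σ * (w * exp (w * z)) := by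
  have h1 : HasDerivAt (fun z : ℂ => (w:ℂ) * (1 - exp z)) (w * (-(exp z))) z :=
    ((Complex.hasDerivAt_exp z).const_sub 1).const_mul _
  have h2 : HasDerivAt (fun z : ℂ => (σ:ℂ) * exp (w * z)) (σ * (exp (w * z) * (w * 1))) z :=
    (((hasDerivAt_id z).const_mul (w:ℂ)).cexp).const_mul _
  have h := (h1.sub h2).deriv
  have e : Dn w σ = ((fun z : ℂ => (w:ℂ) * (1 - exp z)) - (fun z : ℂ => (σ:ℂ) * exp (w * z))) := by
    funext z; simp [Dn]
  rw [e, h]
  ring

lemma G_strictAnti {w : ℝ} (h0 : 0 < w) (h1 : w < 1) : StrictAnti (G w) := by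
  intro x y hxy
  unfold G
  have e1 : Real.exp (-(w * y)) < Real.exp (-(w * x)) := Real.exp_lt_exp.2 (by nlinarith)
  have e2 : Real.exp ((1 - w) * x) < Real.exp ((1 - w) * y) := Real.exp_lt_exp.2 (by nlinarith)
  nlinarith

lemma Dn_factor (w σ : ℝ) (z : ℂ) :
    Dn w σ z = exp (w * z) * (w * (exp (-(w * z)) - exp ((1 - w) * z)) - σ) := by
  unfold Dn
  have e1 : exp (w * z) * exp (-(w * z)) = 1 := by rw [← Complex.exp_add]; simp
  have e2 : exp (w * z) * exp ((1 - w) * z) = exp z := by rw [← Complex.exp_add]; ring_nf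
  linear_combination (-(w:ℂ)) * e1 + w * e2

lemma Dn_zero {w : ℝ} (h0 : 0 < w) (h1 : w < 1) {x0 : ℝ} {z : ℂ} (h2 : -Real.pi ≤ z.im)
    (h3 : z.im ≤ Real.pi) (hz : Dn w (G w x0) z = 0) : z = x0 := by
  rw [Dn_factor] at hz
  rcases mul_eq_zero.1 hz with h | h
  · exact absurd h (exp_ne_zero _)
  have him := congrArg Complex.im h
  have hre := congrArg Complex.re h
  have e1 : (-((w:ℂ) * z)).im = -(w * z.im) := by simp
  have e1' : (-((w:ℂ) * z)).re = -(w * z.re) := by simp
  have e2 : ((1 - (w:ℂ)) * z).im = (1 - w) * z.im := by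
    simp [Complex.mul_im]
  have e2' : ((1 - (w:ℂ)) * z).re = (1 - w) * z.re := by
    simp [Complex.mul_re]
  simp only [Complex.sub_im, Complex.sub_re, Complex.re_ofReal_mul, Complex.im_ofReal_mul,
    Complex.exp_im, Complex.exp_re, e1, e1', e2, e2', Complex.ofReal_im, Complex.ofReal_re,
    Complex.zero_im, Complex.zero_re, Real.sin_neg, Real.cos_neg, sub_zero] at him hre
  have hy : z.im = 0 := by
    by_contra hne
    rcases lt_or_gt_of_ne hne with hlt | hgt
    · have s1 : 0 < Real.sin (w * (-z.im)) := Real.sin_pos_of_pos_of_lt_pi (by nlinarith) (by nlinarith)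
      have s2 : 0 < Real.sin ((1 - w) * (-z.im)) :=
        Real.sin_pos_of_pos_of_lt_pi (by nlinarith) (by nlinarith)
      rw [mul_neg, Real.sin_neg] at s1 s2
      have p1 := Real.exp_pos (-(w * z.re))
      have p2 := Real.exp_pos ((1 - w) * z.re)
      have q1 := mul_pos p1 s1
      have q2 := mul_pos p2 s2
      have := mul_pos h0 (add_pos q1 q2)
      nlinarith
    · have s1 : 0 < Real.sin (w * z.im) := Real.sin_pos_of_pos_of_lt_pi (by nlinarith) (by nlinarith)
      have s2 : 0 < Real.sin ((1 - w) * z.im) :=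
        Real.sin_pos_of_pos_of_lt_pi (by nlinarith) (by nlinarith)
      have p1 := Real.exp_pos (-(w * z.re))
      have p2 := Real.exp_pos ((1 - w) * z.re)
      have q1 := mul_pos p1 s1
      have q2 := mul_pos p2 s2
      have := mul_pos h0 (add_pos q1 q2)
      nlinarith
  rw [hy] at hre
  simp only [mul_zero, Real.cos_zero, mul_one] at hre
  have hG : G w z.re = G w x0 := by
    have : G w z.re = w * (Real.exp (-(w * z.re)) - Real.exp ((1 - w) * z.re)) := rfl
    rw [this]; linarith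
  have hx := (G_strictAnti h0 h1).injective hG
  apply Complex.ext
  · simpa using hx
  · simpa using hy

/-- `H` in terms of `x` -/
noncomputable def Hx (w x : ℝ) : ℝ := 1 / (1 - w + w * Real.exp (-x))

lemma Hx_den_pos {w : ℝ} (h0 : 0 < w) (h1 : w < 1) (x : ℝ) : 0 < 1 - w + w * Real.exp (-x) := by
  have := mul_pos h0 (Real.exp_pos (-x))
  linarith

noncomputable def fn (w σ : ℝ) (z : ℂ) : ℂ := w * exp z / Dn w σ z

lemma RI_fn {w : ℝ} (h0 : 0 < w) (h1 : w < 1) (x0 : ℝ) {R : ℝ} (hR : |x0| < R) :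
    RI (-R) R (-Real.pi) Real.pi (fn w (G w x0)) = -(2 * Real.pi * I * (Hx w x0 : ℂ)) := by
  have hRp : 0 < R := (abs_nonneg _).trans_lt hR
  obtain ⟨hx1, hx2⟩ := abs_lt.1 hR
  set σ := G w x0 with hσ
  have hD0 : Dn w σ x0 = 0 := by
    rw [Dn_factor, hσ]
    have : (w:ℂ) * (exp (-(w * x0)) - exp ((1 - w) * x0)) - (G w x0 : ℝ) = 0 := by
      unfold G
      push_cast
      ring
    rw [this, mul_zero]
  have hDd : deriv (Dn w σ) x0 = -(w * ((1 - w) * Real.exp x0 + w) : ℝ) := by
    rw [Dn_deriv]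
    have : (w:ℂ) * (1 - exp x0) = σ * exp (w * x0) := by
      have := hD0; unfold Dn at this; exact sub_eq_zero.1 this
    rw [show (σ:ℂ) * (w * exp (w * x0)) = w * (σ * exp (w * x0)) by ring, ← this]
    push_cast
    ring
  have hpos : 0 < w * ((1 - w) * Real.exp x0 + w) := by
    have := Real.exp_pos x0
    have h2 : 0 < 1 - w := by linarith
    positivity
  set q := dslope (Dn w σ) (x0:ℂ) with hq
  have hqd : Differentiable ℂ q := by
    have := (Complex.differentiableOn_dslope (s := Set.univ) (c := (x0:ℂ)) (f := Dn w σ) univ_mem).2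
      (Dn_diff w σ).differentiableOn
    exact differentiableOn_univ.1 this
  have hqx : q x0 = -(w * ((1 - w) * Real.exp x0 + w) : ℝ) := by
    rw [hq, dslope_same, hDd]
  have hqs : ∀ z : ℂ, z ≠ x0 → q z = Dn w σ z / (z - x0) := by
    intro z hz
    rw [hq, dslope_of_ne _ hz, slope_def_field, hD0, sub_zero]
  have hq0 : ∀ z ∈ (Set.Icc (-R) R ×ℂ Set.Icc (-Real.pi) Real.pi), q z ≠ 0 := by
    intro z hz
    rw [Complex.mem_reProdIm] at hz
    by_cases hzx : z = x0
    · rw [hzx, hqx]
      simp only [ne_eq, neg_eq_zero, Complex.ofReal_eq_zero]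
      exact hpos.ne'
    · rw [hqs z hzx]
      apply div_ne_zero _ (sub_ne_zero.2 hzx)
      intro h
      exact hzx (Dn_zero h0 h1 hz.2.1 hz.2.2 h)
  have hh : DifferentiableOn ℂ (fun z => w * exp z / q z) (Set.Icc (-R) R ×ℂ Set.Icc (-Real.pi) Real.pi) := by
    intro z hz
    exact ((by fun_prop : DifferentiableAt ℂ (fun z => (w:ℂ) * exp z) z).div (hqd z)
      (hq0 z hz)).differentiableWithinAt
  have hc := RI_cauchy (p := (x0:ℂ)) (by linarith : -R ≤ R) (by linarith [Real.pi_pos] : -Real.pi ≤ Real.pi) hh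
    (by simpa using hx1) (by simpa using hx2) (by simp [Real.pi_pos]) (by simp [Real.pi_pos])
  have e : fn w σ = fun s => w * exp s / q s * (s - x0)⁻¹ := by
    funext s
    unfold fn
    by_cases hs : s = x0
    · rw [hs, hD0]; simp
    · rw [hqs s hs]
      have := sub_ne_zero.2 hs
      field_simp
  rw [e, hc, hqx, div_neg]
  unfold Hx
  have hp2 := Hx_den_pos h0 h1 x0
  have e3 : w * Real.exp x0 / (w * ((1 - w) * Real.exp x0 + w)) = 1 / (1 - w + w * Real.exp (-x0)) := by
    rw [Real.exp_neg]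
    have := Real.exp_pos x0
    have h2 : 0 < 1 - w := by linarith
    field_simp
  rw [← e3]
  push_cast
  ring

end H745
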