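import Mathlib

set_option autoImplicit false

open Real Set MeasureTheory Filter Topology

namespace H745

/-- the sigmoid -/
noncomputable def sg (x : ℝ) : ℝ := exp x / (1 + exp x)

lemma sg_hasDeriv (x : ℝ) : HasDerivAt sg (exp x / (1 + exp x) ^ 2) x := by
  have hp : 0 < 1 + exp x := by positivity
  have h := (Real.hasDerivAt_exp x).div ((Real.hasDerivAt_exp x).const_add 1) hp.ne'
  have e : exp x / (1 + exp x) ^ 2 = (exp x * (1 + exp x) - exp x * exp x) / (1 + exp x) ^ 2 := by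
    ring
  rw [e]; exact h

lemma sg_inj : Function.Injective sg := by
  intro x y h
  unfold sg at h
  have hx : 0 < 1 + exp x := by positivity
  have hy : 0 < 1 + exp y := by positivity
  rw [div_eq_div_iff hx.ne' hy.ne'] at h
  apply Real.exp_injective
  linarith

lemma sg_range : sg '' univ = Ioo 0 1 := by
  ext y
  constructor
  · rintro ⟨x, -, rfl⟩
    unfold sg
    have hx : 0 < 1 + exp x := by positivity
    exact ⟨by positivity, by rw [div_lt_one hx]; linarith⟩
  · rintro ⟨h0, h1⟩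
    refine ⟨log (y / (1 - y)), mem_univ _, ?_⟩
    have h2 : 0 < 1 - y := by linarith
    unfold sg
    rw [exp_log (by positivity)]
    field_simp
    ring

lemma beta_lint {p q : ℝ} (hp : 0 < p) (hq : 0 < q) :
    ∫⁻ x : ℝ, ENNReal.ofReal (exp (p * x) / (1 + exp x) ^ (p + q)) =
      ENNReal.ofReal (Gamma p * Gamma q / Gamma (p + q)) := by
  have h := ProbabilityTheory.lintegral_betaPDF_eq_one hp hq
  rw [ProbabilityTheory.lintegral_betaPDF] at h
  have hB : 0 < ProbabilityTheory.beta p q := ProbabilityTheory.beta_pos hp hq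
  rw [← sg_range, lintegral_image_eq_lintegral_abs_deriv_mul MeasurableSet.univ
    (f' := fun x => exp x / (1 + exp x) ^ 2) (fun x _ => (sg_hasDeriv x).hasDerivWithinAt)
    (sg_inj.injOn), Measure.restrict_univ] at h
  have e : ∀ x : ℝ, ENNReal.ofReal |exp x / (1 + exp x) ^ 2| *
      ENNReal.ofReal (1 / ProbabilityTheory.beta p q * sg x ^ (p - 1) * (1 - sg x) ^ (q - 1)) =
      ENNReal.ofReal (1 / ProbabilityTheory.beta p q) * ENNReal.ofReal (exp (p * x) / (1 + exp x) ^ (p + q)) := by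
    intro x
    have hx : 0 < 1 + exp x := by positivity
    rw [← ENNReal.ofReal_mul (abs_nonneg _), ← ENNReal.ofReal_mul (by positivity)]
    congr 1
    rw [abs_of_pos (by positivity)]
    have e1 : 1 - sg x = 1 / (1 + exp x) := by unfold sg; field_simp; ring
    rw [e1]
    unfold sg
    rw [Real.div_rpow (exp_pos _).le hx.le, Real.div_rpow zero_le_one hx.le, Real.one_rpow,
      ← Real.exp_mul, Real.rpow_sub hx, Real.rpow_sub hx, Real.rpow_add hx, Real.rpow_one,
      show x * (p - 1) = p * x - x by ring, Real.exp_sub]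
    have := Real.exp_pos x
    field_simp
  simp only [e] at h
  rw [lintegral_const_mul _ (by fun_prop)] at h
  have h2 : ENNReal.ofReal (ProbabilityTheory.beta p q) * ENNReal.ofReal (1 / ProbabilityTheory.beta p q) = 1 := by
    rw [← ENNReal.ofReal_mul hB.le, mul_one_div_cancel hB.ne']; simp
  calc ∫⁻ x : ℝ, ENNReal.ofReal (exp (p * x) / (1 + exp x) ^ (p + q))
      = (ENNReal.ofReal (ProbabilityTheory.beta p q) * ENNReal.ofReal (1 / ProbabilityTheory.beta p q)) *
        ∫⁻ x : ℝ, ENNReal.ofReal (exp (p * x) / (1 + exp x) ^ (p + q)) := by rw [h2, one_mul]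
    _ = ENNReal.ofReal (ProbabilityTheory.beta p q) := by rw [mul_assoc, h, mul_one]
    _ = _ := rfl

lemma beta_int {p q : ℝ} (hp : 0 < p) (hq : 0 < q) :
    Integrable (fun x : ℝ => exp (p * x) / (1 + exp x) ^ (p + q)) ∧
    ∫ x : ℝ, exp (p * x) / (1 + exp x) ^ (p + q) = Gamma p * Gamma q / Gamma (p + q) := by
  have hm : Measurable (fun x : ℝ => exp (p * x) / (1 + exp x) ^ (p + q)) := by fun_prop
  have hnn : ∀ x : ℝ, 0 ≤ exp (p * x) / (1 + exp x) ^ (p + q) := by intro x; positivity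
  constructor
  · refine ⟨hm.aestronglyMeasurable, ?_⟩
    rw [hasFiniteIntegral_iff_ofReal (Eventually.of_forall hnn), beta_lint hp hq]
    exact ENNReal.ofReal_lt_top
  · rw [integral_eq_lintegral_of_nonneg_ae (Eventually.of_forall hnn) hm.aestronglyMeasurable,
      beta_lint hp hq, ENNReal.toReal_ofReal]
    have h1 := Gamma_pos_of_pos hp
    have h2 := Gamma_pos_of_pos hq
    have h3 := Gamma_pos_of_pos (add_pos hp hq)
    positivity

lemma sin_mom (n : ℕ) : ∫ x in (0:ℝ)..(2 * π), sin x ^ (2 * n) =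
    2 * π * ((2 * n).factorial / (4 ^ n * (n.factorial : ℝ) ^ 2)) := by
  induction n with
  | zero => simp
  | succ n ih =>
    rw [show 2 * (n + 1) = 2 * n + 2 by ring, integral_sin_pow, ih]
    have e1 : ((2 * n + 2).factorial : ℝ) = (2 * n + 2) * (2 * n + 1) * (2 * n).factorial := by
      rw [show 2 * n + 2 = (2 * n + 1) + 1 by ring, Nat.factorial_succ, Nat.factorial_succ]
      push_cast; ring
    have e2 : ((n + 1).factorial : ℝ) = (n + 1) * n.factorial := by
      rw [Nat.factorial_succ]; push_cast; ring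
    rw [e1, e2]
    have hf : (n.factorial : ℝ) ≠ 0 := by positivity
    simp only [sin_zero, sin_two_pi, ne_eq, Nat.add_eq_zero_iff, one_ne_zero, and_false,
      not_false_eq_true, zero_pow, zero_mul, sub_self, zero_div, zero_add]
    push_cast
    field_simp
    ring

/-- moments determine integrals of continuous functions (bounded case) -/
lemma weier {Ω₁ Ω₂ : Type*} [MeasurableSpace Ω₁] [MeasurableSpace Ω₂] {Q₁ : Measure Ω₁}
    {Q₂ : Measure Ω₂} {X₁ g₁ : Ω₁ → ℝ} {X₂ g₂ : Ω₂ → ℝ} {B : ℝ}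
    (h₁ : ∀ᵐ x ∂Q₁, X₁ x ∈ Icc 0 B) (h₂ : ∀ᵐ x ∂Q₂, X₂ x ∈ Icc 0 B)
    (m₁ : Measurable X₁) (m₂ : Measurable X₂) (i₁ : Integrable g₁ Q₁) (i₂ : Integrable g₂ Q₂)
    (hmom : ∀ n : ℕ, ∫ x, X₁ x ^ n * g₁ x ∂Q₁ = ∫ x, X₂ x ^ n * g₂ x ∂Q₂)
    {f : ℝ → ℝ} (hf : Continuous f) :
    ∫ x, f (X₁ x) * g₁ x ∂Q₁ = ∫ x, f (X₂ x) * g₂ x ∂Q₂ := by
  -- integrability of bounded continuous functions times g
  have key₁ : ∀ φ : ℝ → ℝ, Continuous φ → Integrable (fun x => φ (X₁ x) * g₁ x) Q₁ := by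
    intro φ hφ
    obtain ⟨C, hC⟩ := isCompact_Icc.exists_bound_of_continuousOn (s := Icc (0:ℝ) B) hφ.continuousOn
    apply i₁.bdd_mul (c := C) (hφ.measurable.comp m₁).aestronglyMeasurable
    filter_upwards [h₁] with x hx
    exact hC _ hx
  have key₂ : ∀ φ : ℝ → ℝ, Continuous φ → Integrable (fun x => φ (X₂ x) * g₂ x) Q₂ := by
    intro φ hφ
    obtain ⟨C, hC⟩ := isCompact_Icc.exists_bound_of_continuousOn (s := Icc (0:ℝ) B) hφ.continuousOn
    apply i₂.bdd_mul (c := C) (hφ.measurable.comp m₂).aestronglyMeasurable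
    filter_upwards [h₂] with x hx
    exact hC _ hx
  have hpoly : ∀ p : Polynomial ℝ, ∫ x, p.eval (X₁ x) * g₁ x ∂Q₁ = ∫ x, p.eval (X₂ x) * g₂ x ∂Q₂ := by
    intro p
    simp only [Polynomial.eval_eq_sum_range, Finset.sum_mul]
    rw [integral_finsetSum _ (fun i _ => by
        have := key₁ (fun y => p.coeff i * y ^ i) (by fun_prop)
        exact this),
      integral_finsetSum _ (fun i _ => by
        have := key₂ (fun y => p.coeff i * y ^ i) (by fun_prop)
        exact this)]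
    apply Finset.sum_congr rfl
    intro i _
    simp only [mul_assoc]
    rw [integral_const_mul, integral_const_mul, hmom]
  set N₁ := ∫ x, |g₁ x| ∂Q₁ with hN₁
  set N₂ := ∫ x, |g₂ x| ∂Q₂ with hN₂
  have hN₁0 : 0 ≤ N₁ := integral_nonneg (fun _ => abs_nonneg _)
  have hN₂0 : 0 ≤ N₂ := integral_nonneg (fun _ => abs_nonneg _)
  have hdiff : ∀ ε > 0, |(∫ x, f (X₁ x) * g₁ x ∂Q₁) - ∫ x, f (X₂ x) * g₂ x ∂Q₂| ≤ ε * (N₁ + N₂) := by
    intro ε hε
    obtain ⟨p, hp⟩ := exists_polynomial_near_of_continuousOn 0 B f hf.continuousOn ε hε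
    have b₁ : |(∫ x, f (X₁ x) * g₁ x ∂Q₁) - ∫ x, p.eval (X₁ x) * g₁ x ∂Q₁| ≤ ε * N₁ := by
      rw [← integral_sub (key₁ f hf) (key₁ _ p.continuous), hN₁, ← integral_const_mul]
      apply (abs_integral_le_integral_abs).trans
      apply integral_mono_ae ((key₁ f hf).sub (key₁ _ p.continuous)).abs (i₁.abs.const_mul ε)
      filter_upwards [h₁] with x hx
      simp only [Pi.sub_apply]
      rw [← sub_mul, abs_mul]
      apply mul_le_mul_of_nonneg_right _ (abs_nonneg _)
      rw [abs_sub_comm]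
      exact (hp _ hx).le
    have b₂ : |(∫ x, f (X₂ x) * g₂ x ∂Q₂) - ∫ x, p.eval (X₂ x) * g₂ x ∂Q₂| ≤ ε * N₂ := by
      rw [← integral_sub (key₂ f hf) (key₂ _ p.continuous), hN₂, ← integral_const_mul]
      apply (abs_integral_le_integral_abs).trans
      apply integral_mono_ae ((key₂ f hf).sub (key₂ _ p.continuous)).abs (i₂.abs.const_mul ε)
      filter_upwards [h₂] with x hx
      simp only [Pi.sub_apply]
      rw [← sub_mul, abs_mul]
      apply mul_le_mul_of_nonneg_right _ (abs_nonneg _)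
      rw [abs_sub_comm]
      exact (hp _ hx).le
    rw [hpoly p] at b₁
    rw [abs_le] at *
    constructor <;> linarith [b₁.1, b₁.2, b₂.1, b₂.2]
  by_contra hne
  have hpos : 0 < |(∫ x, f (X₁ x) * g₁ x ∂Q₁) - ∫ x, f (X₂ x) * g₂ x ∂Q₂| :=
    abs_pos.2 (sub_ne_zero.2 hne)
  set d := |(∫ x, f (X₁ x) * g₁ x ∂Q₁) - ∫ x, f (X₂ x) * g₂ x ∂Q₂| with hd
  have := hdiff (d / (2 * (N₁ + N₂ + 1))) (by positivity)
  have h3 : d / (2 * (N₁ + N₂ + 1)) * (N₁ + N₂) < d := by
    rw [div_mul_eq_mul_div, div_lt_iff₀ (by positivity)]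
    nlinarith
  linarith

end H745
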