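import Pool.Agent.H745R2.P5
import Pool.Agent.H745R2.P6

set_option autoImplicit false

open Complex Set MeasureTheory Filter Topology

namespace H745

/-- `κ` -/
noncomputable def ka (w x : ℝ) : ℝ := Real.exp (w * x) / (w * (1 + Real.exp x))

lemma ka_pos {w : ℝ} (h0 : 0 < w) (x : ℝ) : 0 < ka w x := by
  unfold ka
  have := Real.exp_pos x
  positivity

/-- the line integrand -/
noncomputable def gl (w σ x : ℝ) : ℝ :=
  sg x * (1 / (1 - (σ * ka w x : ℝ) * exp ((Real.pi * w : ℝ) * I))).im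

lemma fn_conj (w σ : ℝ) (z : ℂ) : fn w σ (starRingEnd ℂ z) = starRingEnd ℂ (fn w σ z) := by
  unfold fn Dn
  simp only [map_div₀, map_mul, map_sub, map_one, Complex.conj_ofReal, ← Complex.exp_conj]

lemma fn_top {w : ℝ} (h0 : 0 < w) (σ x : ℝ) :
    fn w σ ((x:ℂ) + (Real.pi : ℝ) * I) =
      -((sg x : ℝ) * (1 / (1 - (σ * ka w x : ℝ) * exp ((Real.pi * w : ℝ) * I)))) := by
  unfold fn Dn
  have e1 : exp ((x:ℂ) + (Real.pi : ℝ) * I) = -(Real.exp x : ℂ) := by
    rw [Complex.exp_add, Complex.exp_pi_mul_I]; push_cast; ring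
  have e2 : exp ((w:ℂ) * ((x:ℂ) + (Real.pi : ℝ) * I)) =
      (Real.exp (w * x) : ℂ) * exp ((Real.pi * w : ℝ) * I) := by
    rw [mul_add, Complex.exp_add]; push_cast; congr 1; congr 1; ring
  rw [e1, e2]
  have hE : 0 < 1 + Real.exp x := by positivity
  have hE' : ((1:ℂ) + (Real.exp x : ℂ)) ≠ 0 := by
    have : ((1 + Real.exp x : ℝ) : ℂ) ≠ 0 := by exact_mod_cast hE.ne'
    push_cast at this ⊢; exact this
  have hw : (w:ℂ) ≠ 0 := by exact_mod_cast h0.ne'
  generalize exp ((Real.pi * w : ℝ) * I) = u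
  unfold sg ka
  push_cast at hE' ⊢
  have e3 : (w:ℂ) * (1 - -exp (x:ℂ)) - σ * (exp ((w:ℂ) * x) * u) =
      (w * (1 + exp (x:ℂ))) * (1 - σ * (exp ((w:ℂ) * x) / (w * (1 + exp (x:ℂ)))) * u) := by
    field_simp
    ring
  rw [e3]
  by_cases hz : (1 - (σ:ℂ) * (exp ((w:ℂ) * x) / (w * (1 + exp (x:ℂ)))) * u) = 0
  · rw [hz]; simp
  · generalize (1 - (σ:ℂ) * (exp ((w:ℂ) * x) / (w * (1 + exp (x:ℂ)))) * u) = V at *
    field_simp

lemma fn_bot_top {w : ℝ} (h0 : 0 < w) (σ x : ℝ) :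
    fn w σ ((x:ℂ) + (-Real.pi : ℝ) * I) - fn w σ ((x:ℂ) + (Real.pi : ℝ) * I) = 2 * I * (gl w σ x : ℝ) := by
  have e : (x:ℂ) + (-Real.pi : ℝ) * I = starRingEnd ℂ ((x:ℂ) + (Real.pi : ℝ) * I) := by
    simp
  rw [e, fn_conj]
  have e2 : starRingEnd ℂ (fn w σ ((x:ℂ) + (Real.pi : ℝ) * I)) - fn w σ ((x:ℂ) + (Real.pi : ℝ) * I)
      = -(2 * I * ((fn w σ ((x:ℂ) + (Real.pi : ℝ) * I)).im : ℝ)) := by
    apply Complex.ext <;> simp
    ring
  rw [e2, fn_top h0]
  unfold gl
  rw [Complex.neg_im, Complex.im_ofReal_mul]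
  push_cast
  ring

lemma im_formula (r α : ℝ) : (1 / (1 - (r : ℝ) * exp ((α : ℝ) * I))).im =
    r * Real.sin α / (1 - 2 * r * Real.cos α + r ^ 2) := by
  rw [one_div, Complex.inv_im, Complex.exp_mul_I]
  have e1 : (1 - (r:ℂ) * (cos (α:ℂ) + sin (α:ℂ) * I)).im = - (r * Real.sin α) := by
    simp [← Complex.ofReal_cos, ← Complex.ofReal_sin]
  have e2 : (1 - (r:ℂ) * (cos (α:ℂ) + sin (α:ℂ) * I)).re = 1 - r * Real.cos α := by
    simp [← Complex.ofReal_cos, ← Complex.ofReal_sin]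
  rw [e1, Complex.normSq_apply, e1, e2, neg_neg]
  congr 1
  nlinarith [Real.sin_sq_add_cos_sq α]

lemma den_ge (r α : ℝ) : Real.sin α ^ 2 ≤ 1 - 2 * r * Real.cos α + r ^ 2 := by
  nlinarith [Real.sin_sq_add_cos_sq α, sq_nonneg (r - Real.cos α)]

lemma gl_eq (w σ x : ℝ) : gl w σ x = sg x * (σ * ka w x * Real.sin (Real.pi * w) /
    (1 - 2 * (σ * ka w x) * Real.cos (Real.pi * w) + (σ * ka w x) ^ 2)) := by
  unfold gl
  rw [im_formula]

lemma gl_meas (w σ : ℝ) : Measurable (gl w σ) := by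
  have : gl w σ = fun x => sg x * (σ * ka w x * Real.sin (Real.pi * w) /
    (1 - 2 * (σ * ka w x) * Real.cos (Real.pi * w) + (σ * ka w x) ^ 2)) := by
    funext x; exact gl_eq w σ x
  rw [this]
  unfold sg ka
  fun_prop

lemma sin_pw_pos {w : ℝ} (h0 : 0 < w) (h1 : w < 1) : 0 < Real.sin (Real.pi * w) := by
  apply Real.sin_pos_of_pos_of_lt_pi
  · exact mul_pos Real.pi_pos h0
  · nlinarith [Real.pi_pos]

lemma sg_pos (x : ℝ) : 0 < sg x := by unfold sg; positivity

lemma gl_bound {w : ℝ} (h0 : 0 < w) (h1 : w < 1) (σ x : ℝ) :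
    |gl w σ x| ≤ |σ| / Real.sin (Real.pi * w) * (sg x * ka w x) := by
  rw [gl_eq]
  have hs := sin_pw_pos h0 h1
  have hd := den_ge (σ * ka w x) (Real.pi * w)
  have hk := ka_pos h0 x
  have hg := sg_pos x
  rw [abs_mul, abs_div, abs_mul, abs_mul, abs_of_pos hg, abs_of_pos hk, abs_of_pos hs,
    abs_of_pos (lt_of_lt_of_le (by positivity) hd)]
  calc sg x * (|σ| * ka w x * Real.sin (Real.pi * w) / (1 - 2 * (σ * ka w x) * Real.cos (Real.pi * w) + (σ * ka w x) ^ 2))
      ≤ sg x * (|σ| * ka w x * Real.sin (Real.pi * w) / (Real.sin (Real.pi * w) ^ 2)) := by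
        apply mul_le_mul_of_nonneg_left _ hg.le
        exact div_le_div_of_nonneg_left (by positivity) (by positivity) hd
    _ = |σ| / Real.sin (Real.pi * w) * (sg x * ka w x) := by
        field_simp

lemma sgka_int {w : ℝ} (h0 : 0 < w) (h1 : w < 1) : Integrable (fun x => sg x * ka w x) := by
  have h := (beta_int (p := 1 + w) (q := 1 - w) (by linarith) (by linarith)).1
  refine (h.const_mul (1 / w)).congr (Eventually.of_forall fun x => ?_)
  simp only
  unfold sg ka
  have hE : 0 < 1 + Real.exp x := by positivity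
  rw [show (1 + w + (1 - w) : ℝ) = ((2:ℕ) : ℝ) by norm_num, Real.rpow_natCast,
    show (1 + w) * x = x + w * x by ring, Real.exp_add]
  field_simp

lemma gl_int {w : ℝ} (h0 : 0 < w) (h1 : w < 1) (σ : ℝ) : Integrable (gl w σ) := by
  refine Integrable.mono' ((sgka_int h0 h1).const_mul (|σ| / Real.sin (Real.pi * w)))
    (gl_meas w σ).aestronglyMeasurable (Eventually.of_forall fun x => ?_)
  exact gl_bound h0 h1 σ x

lemma norm_exp_wz (w : ℝ) (x y : ℝ) : ‖exp ((w:ℂ) * ((x:ℂ) + y * I))‖ = Real.exp (w * x) := by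
  rw [Complex.norm_exp]
  simp

lemma norm_exp_z (x y : ℝ) : ‖exp ((x:ℂ) + y * I)‖ = Real.exp x := by
  rw [Complex.norm_exp]
  simp

/-- right side bound -/
lemma right_bound {w : ℝ} (h0 : 0 < w) (h1 : w < 1) (σ : ℝ) : ∀ᶠ R : ℝ in atTop, ∀ y : ℝ,
    ‖fn w σ ((R:ℂ) + y * I) + 1‖ ≤ 2 * Real.exp (-R) + 2 * |σ| / w * Real.exp (-((1 - w) * R)) := by
  have t1 : Tendsto (fun R : ℝ => Real.exp (-R)) atTop (𝓝 0) :=
    Real.tendsto_exp_atBot.comp tendsto_neg_atTop_atBot
  have t2 : Tendsto (fun R : ℝ => |σ| * Real.exp (-((1 - w) * R))) atTop (𝓝 (|σ| * 0)) := by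
    apply Tendsto.const_mul
    apply Real.tendsto_exp_atBot.comp
    apply tendsto_neg_atTop_atBot.comp
    exact tendsto_id.const_mul_atTop (by linarith)
  rw [mul_zero] at t2
  filter_upwards [t1.eventually_lt_const (show (0:ℝ) < 1 / 4 by norm_num),
    t2.eventually_lt_const (show (0:ℝ) < w / 4 by positivity)] with R hR1 hR2 y
  set z : ℂ := (R:ℂ) + y * I with hz
  have n1 : ‖exp z‖ = Real.exp R := norm_exp_z R y
  have n2 : ‖exp ((w:ℂ) * z)‖ = Real.exp (w * R) := norm_exp_wz w R y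
  have eR : Real.exp (w * R) = Real.exp R * Real.exp (-((1 - w) * R)) := by
    rw [← Real.exp_add]; ring_nf
  have eR2 : Real.exp R * Real.exp (-R) = 1 := by rw [← Real.exp_add]; simp
  have hp := Real.exp_pos R
  have hlow : w * Real.exp R / 2 ≤ ‖Dn w σ z‖ := by
    have e : Dn w σ z = (w:ℂ) - σ * exp (w * z) - w * exp z := by unfold Dn; ring
    have a1 : ‖(w:ℂ) * exp z‖ = w * Real.exp R := by
      rw [norm_mul, n1, Complex.norm_real, Real.norm_eq_abs, abs_of_pos h0]
    have a2 : ‖(w:ℂ) - σ * exp (w * z)‖ ≤ w + |σ| * Real.exp (w * R) := by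
      refine (norm_sub_le _ _).trans ?_
      rw [norm_mul, n2, Complex.norm_real, Complex.norm_real, Real.norm_eq_abs, Real.norm_eq_abs, abs_of_pos h0]
    have a3 : ‖(w:ℂ) * exp z‖ - ‖(w:ℂ) - σ * exp (w * z)‖ ≤ ‖Dn w σ z‖ := by
      have h7 := norm_sub_norm_le ((w:ℂ) * exp z) ((w:ℂ) - σ * exp (w * z))
      rw [e, norm_sub_rev ((w:ℂ) - σ * exp (w * z)) ((w:ℂ) * exp z)]
      exact h7
    rw [a1] at a3
    have h4 : 4 < Real.exp R := by nlinarith
    have a4 : w ≤ w * Real.exp R / 4 := by nlinarith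
    have a5 : |σ| * Real.exp (w * R) ≤ w * Real.exp R / 4 := by
      rw [eR]; nlinarith
    linarith
  have hDpos : 0 < ‖Dn w σ z‖ := lt_of_lt_of_le (by positivity) hlow
  have hD0 : Dn w σ z ≠ 0 := norm_pos_iff.1 hDpos
  have e : fn w σ z + 1 = ((w:ℂ) - σ * exp (w * z)) / Dn w σ z := by
    unfold fn
    rw [div_add_one hD0]
    congr 1
    unfold Dn; ring
  rw [e, norm_div, div_le_iff₀ hDpos]
  have a2 : ‖(w:ℂ) - σ * exp (w * z)‖ ≤ w + |σ| * Real.exp (w * R) := by
    refine (norm_sub_le _ _).trans ?_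
    rw [norm_mul, n2, Complex.norm_real, Complex.norm_real, Real.norm_eq_abs, Real.norm_eq_abs, abs_of_pos h0]
  refine a2.trans ?_
  have hnn : 0 ≤ 2 * Real.exp (-R) + 2 * |σ| / w * Real.exp (-((1 - w) * R)) := by positivity
  refine le_trans (le_of_eq ?_) (mul_le_mul_of_nonneg_left hlow hnn)
  rw [eR]
  field_simp
  linear_combination (-(w:ℝ)) * eR2

/-- left side bound -/
lemma left_bound {w : ℝ} (h0 : 0 < w) (σ : ℝ) : ∀ᶠ R : ℝ in atTop, ∀ y : ℝ,
    ‖fn w σ (((-R : ℝ):ℂ) + y * I)‖ ≤ 2 * Real.exp (-R) := by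
  have t1 : Tendsto (fun R : ℝ => Real.exp (-R)) atTop (𝓝 0) :=
    Real.tendsto_exp_atBot.comp tendsto_neg_atTop_atBot
  have t2 : Tendsto (fun R : ℝ => |σ| * Real.exp (w * (-R))) atTop (𝓝 (|σ| * 0)) := by
    apply Tendsto.const_mul
    apply Real.tendsto_exp_atBot.comp
    have : (fun R : ℝ => w * (-R)) = fun R => -(w * R) := by funext R; ring
    rw [this]
    apply tendsto_neg_atTop_atBot.comp
    exact tendsto_id.const_mul_atTop h0
  rw [mul_zero] at t2
  filter_upwards [t1.eventually_lt_const (show (0:ℝ) < 1 / 4 by norm_num),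
    t2.eventually_lt_const (show (0:ℝ) < w / 4 by positivity)] with R hR1 hR2 y
  set z : ℂ := ((-R:ℝ):ℂ) + y * I with hz
  have n1 : ‖exp z‖ = Real.exp (-R) := norm_exp_z (-R) y
  have n2 : ‖exp ((w:ℂ) * z)‖ = Real.exp (w * (-R)) := norm_exp_wz w (-R) y
  have hlow : w / 2 ≤ ‖Dn w σ z‖ := by
    have e : Dn w σ z = (w:ℂ) - (w * exp z + σ * exp (w * z)) := by unfold Dn; ring
    have a2 : ‖(w:ℂ) * exp z + σ * exp (w * z)‖ ≤ w * Real.exp (-R) + |σ| * Real.exp (w * (-R)) := by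
      refine (norm_add_le _ _).trans ?_
      rw [norm_mul, norm_mul, n1, n2, Complex.norm_real, Complex.norm_real, Real.norm_eq_abs, Real.norm_eq_abs, abs_of_pos h0]
    have a3 : ‖(w:ℂ)‖ - ‖(w:ℂ) * exp z + σ * exp (w * z)‖ ≤ ‖Dn w σ z‖ := by
      rw [e]
      exact norm_sub_norm_le _ _
    rw [Complex.norm_real, Real.norm_eq_abs, abs_of_pos h0] at a3
    nlinarith
  have hDpos : 0 < ‖Dn w σ z‖ := lt_of_lt_of_le (by positivity) hlow
  unfold fn
  rw [norm_div, norm_mul, n1, Complex.norm_real, Real.norm_eq_abs, abs_of_pos h0, div_le_iff₀ hDpos]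
  have := Real.exp_pos (-R)
  nlinarith

lemma fn_line_meas (w σ R : ℝ) : Measurable (fun y : ℝ => fn w σ ((R:ℂ) + y * I)) := by
  unfold fn Dn
  fun_prop

theorem H_rep {w : ℝ} (h0 : 0 < w) (h1 : w < 1) (x0 : ℝ) :
    ∫ x, gl w (G w x0) x = Real.pi * (1 - Hx w x0) := by
  set σ := G w x0 with hσ
  have hp := Real.pi_pos
  -- right side
  have tr : Tendsto (fun R : ℝ => ∫ y in (-Real.pi)..Real.pi, fn w σ ((R:ℂ) + y * I)) atTop
      (𝓝 (∫ y in (-Real.pi)..Real.pi, (-1 : ℂ))) := by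
    have hb := right_bound h0 h1 σ
    have t1 : Tendsto (fun R : ℝ => 2 * Real.exp (-R) + 2 * |σ| / w * Real.exp (-((1 - w) * R))) atTop
        (𝓝 (2 * 0 + 2 * |σ| / w * 0)) := by
      apply Tendsto.add
      · exact (Real.tendsto_exp_atBot.comp tendsto_neg_atTop_atBot).const_mul 2
      · apply Tendsto.const_mul
        apply Real.tendsto_exp_atBot.comp
        apply tendsto_neg_atTop_atBot.comp
        exact tendsto_id.const_mul_atTop (by linarith)
    rw [mul_zero, mul_zero, add_zero] at t1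
    apply intervalIntegral.tendsto_integral_filter_of_dominated_convergence (fun _ => 2)
    · exact Eventually.of_forall fun R => (fn_line_meas w σ R).aestronglyMeasurable
    · filter_upwards [hb, t1.eventually_lt_const (show (0:ℝ) < 1 by norm_num)] with R hR hR2
      filter_upwards with y _
      have := hR y
      have h3 : ‖fn w σ ((R:ℂ) + y * I)‖ ≤ ‖fn w σ ((R:ℂ) + y * I) + 1‖ + ‖(1:ℂ)‖ := by
        have := norm_sub_le (fn w σ ((R:ℂ) + y * I) + 1) 1
        simpa using this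
      rw [norm_one] at h3
      linarith
    · exact intervalIntegrable_const
    · filter_upwards with y _
      have : Tendsto (fun R : ℝ => fn w σ ((R:ℂ) + y * I) + 1) atTop (𝓝 0) := by
        apply squeeze_zero_norm' _ t1
        filter_upwards [hb] with R hR using hR y
      have h4 := this.sub_const 1
      simpa using h4
  have tl : Tendsto (fun R : ℝ => ∫ y in (-Real.pi)..Real.pi, fn w σ (((-R:ℝ):ℂ) + y * I)) atTop
      (𝓝 (∫ y in (-Real.pi)..Real.pi, (0 : ℂ))) := by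
    have hb := left_bound h0 σ
    have t1 : Tendsto (fun R : ℝ => 2 * Real.exp (-R)) atTop (𝓝 (2 * 0)) :=
      (Real.tendsto_exp_atBot.comp tendsto_neg_atTop_atBot).const_mul 2
    rw [mul_zero] at t1
    apply intervalIntegral.tendsto_integral_filter_of_dominated_convergence (fun _ => 2)
    · exact Eventually.of_forall fun R => (fn_line_meas w σ (-R)).aestronglyMeasurable
    · filter_upwards [hb, t1.eventually_lt_const (show (0:ℝ) < 1 by norm_num)] with R hR hR2
      filter_upwards with y _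
      have := hR y
      linarith
    · exact intervalIntegrable_const
    · filter_upwards with y _
      apply squeeze_zero_norm' _ t1
      filter_upwards [hb] with R hR using hR y
  have tg : Tendsto (fun R : ℝ => ∫ x in (-R)..R, (2 * I * (gl w σ x : ℝ) : ℂ)) atTop
      (𝓝 (2 * I * (∫ x, gl w σ x : ℝ))) := by
    have hi : Integrable (fun x => (2 * I * (gl w σ x : ℝ) : ℂ)) := (gl_int h0 h1 σ).ofReal.const_mul _
    have := intervalIntegral_tendsto_integral hi tendsto_neg_atTop_atBot tendsto_id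
    have e9 : ∫ (a : ℝ), ((gl w σ a : ℝ) : ℂ) = ((∫ x, gl w σ x : ℝ) : ℂ) := integral_ofReal
    rw [integral_const_mul, e9] at this
    exact this
  have hlim := (tg.add (tr.const_mul I)).sub (tl.const_mul I)
  have hconst : Tendsto (fun R : ℝ => (∫ x in (-R)..R, (2 * I * (gl w σ x : ℝ) : ℂ)) +
      I * (∫ y in (-Real.pi)..Real.pi, fn w σ ((R:ℂ) + y * I)) -
      I * ∫ y in (-Real.pi)..Real.pi, fn w σ (((-R:ℝ):ℂ) + y * I)) atTop
      (𝓝 (-(2 * Real.pi * I * (Hx w x0 : ℂ)))) := by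
    refine tendsto_const_nhds.congr' ?_
    filter_upwards [eventually_gt_atTop |x0|] with R hR
    have hRp : 0 < R := (abs_nonneg _).trans_lt hR
    have h := RI_fn h0 h1 x0 hR
    unfold RI at h
    rw [← h]
    have nz : ∀ e : ℝ, (e = -Real.pi ∨ e = Real.pi) → ∀ x : ℝ, Dn w σ ((x:ℂ) + e * I) ≠ 0 := by
      intro e he x h0'
      have h5 := Dn_zero h0 h1 (x0 := x0) (z := (x:ℂ) + e * I) (by rcases he with h | h <;> simp [h]; linarith)
        (by rcases he with h | h <;> simp [h]; linarith) h0'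
      have := congrArg Complex.im h5
      simp at this
      rcases he with h | h <;> rw [h] at this <;> linarith
    have ic : ∀ e : ℝ, (e = -Real.pi ∨ e = Real.pi) →
        IntervalIntegrable (fun x : ℝ => fn w σ ((x:ℂ) + e * I)) volume (-R) R := by
      intro e he
      apply Continuous.intervalIntegrable
      unfold fn
      apply Continuous.div
      · fun_prop
      · exact (Dn_diff w σ).continuous.comp (by fun_prop)
      · exact nz e he
    have e1 : (∫ x in (-R)..R, (2 * I * (gl w σ x : ℝ) : ℂ)) =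
        (∫ x in (-R)..R, fn w σ ((x:ℂ) + (-Real.pi:ℝ) * I)) - ∫ x in (-R)..R, fn w σ ((x:ℂ) + (Real.pi:ℝ) * I) := by
      rw [← intervalIntegral.integral_sub (ic _ (Or.inl rfl)) (ic _ (Or.inr rfl))]
      congr 1
      funext x
      exact (fn_bot_top h0 σ x).symm
    rw [e1]
  have huniq := tendsto_nhds_unique hconst hlim
  simp only [intervalIntegral.integral_const, intervalIntegral.integral_zero, mul_zero, sub_zero] at huniq
  have h6 : (2 * I) * ((Real.pi * (1 - Hx w x0) : ℝ) : ℂ) = (2 * I) * ((∫ x, gl w σ x : ℝ) : ℂ) := by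
    have e8 : ((Real.pi - -Real.pi : ℝ) • (-1 : ℂ)) = -(2 * Real.pi : ℂ) := by
      rw [Complex.real_smul]; push_cast; ring
    rw [e8] at huniq
    push_cast
    linear_combination huniq
  have h7 := mul_left_cancel₀ (mul_ne_zero two_ne_zero Complex.I_ne_zero) h6
  exact (Complex.ofReal_injective h7).symm

end H745
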