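import Pool.Agent.H745R2.P3
import Pool.Agent.H745R2.P7

set_option autoImplicit false

open Real Set MeasureTheory Filter Topology

namespace H745

lemma G_cont (w : ℝ) : Continuous (G w) := by unfold G; fun_prop

lemma G_surj {w : ℝ} (h0 : 0 < w) (h1 : w < 1) : Function.Surjective (G w) := by
  have ha : Tendsto (fun x : ℝ => exp (-(w * x))) atTop (𝓝 0) := by
    apply Real.tendsto_exp_atBot.comp
    apply tendsto_neg_atTop_atBot.comp
    exact tendsto_id.const_mul_atTop h0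
  have hb : Tendsto (fun x : ℝ => exp ((1 - w) * x)) atTop atTop := by
    apply Real.tendsto_exp_atTop.comp
    exact tendsto_id.const_mul_atTop (by linarith)
  have ha' : Tendsto (fun x : ℝ => exp (-(w * x))) atBot atTop := by
    apply Real.tendsto_exp_atTop.comp
    apply tendsto_neg_atBot_atTop.comp
    exact tendsto_id.const_mul_atBot h0
  have hb' : Tendsto (fun x : ℝ => exp ((1 - w) * x)) atBot (𝓝 0) := by
    apply Real.tendsto_exp_atBot.comp
    exact tendsto_id.const_mul_atBot (by linarith)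
  apply (G_cont w).surjective'
  · unfold G
    apply Tendsto.const_mul_atTop h0
    simp only [sub_eq_add_neg]
    exact ha'.atTop_add hb'.neg
  · unfold G
    apply Tendsto.const_mul_atBot h0
    simp only [sub_eq_add_neg]
    exact ha.add_atBot (tendsto_neg_atTop_atBot.comp hb)

/-- inverse of `G` -/
noncomputable def Xi (w σ : ℝ) : ℝ := Function.invFun (G w) σ

lemma G_Xi {w : ℝ} (h0 : 0 < w) (h1 : w < 1) (σ : ℝ) : G w (Xi w σ) = σ :=
  Function.invFun_eq (G_surj h0 h1 σ)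

lemma Xi_G {w : ℝ} (h0 : 0 < w) (h1 : w < 1) (x : ℝ) : Xi w (G w x) = x :=
  (G_strictAnti h0 h1).injective (G_Xi h0 h1 _)

/-- `H` in terms of `σ` -/
noncomputable def Hs (w σ : ℝ) : ℝ := Hx w (Xi w σ)

/-- period as a function of `λ` -/
noncomputable def Tper (w l : ℝ) : ℝ := ∫ θ in (0:ℝ)..(2 * π), Hs w (l * sin θ)

lemma Hs_eq {w : ℝ} (h0 : 0 < w) (h1 : w < 1) (σ : ℝ) : Hs w σ = 1 - 1 / π * ∫ x, gl w σ x := by
  have h := H_rep h0 h1 (Xi w σ)
  rw [G_Xi h0 h1] at h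
  rw [h, Hs]
  field_simp
  ring

/-- the function `s` -/
noncomputable def ss (w R : ℝ) : ℝ := sin (2 * (π * w)) / (1 - 2 * R * cos (2 * (π * w)) + R ^ 2)

lemma sin2_pos {w : ℝ} (h0 : 0 < w) (h1 : w < 1 / 2) : 0 < sin (2 * (π * w)) := by
  apply Real.sin_pos_of_pos_of_lt_pi
  · have := Real.pi_pos; positivity
  · nlinarith [Real.pi_pos]

lemma ssden_pos {w : ℝ} (h0 : 0 < w) (h1 : w < 1 / 2) (R : ℝ) :
    0 < 1 - 2 * R * cos (2 * (π * w)) + R ^ 2 :=
  lt_of_lt_of_le (pow_pos (sin2_pos h0 h1) 2) (den_ge R (2 * (π * w)))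

lemma ss_pos {w : ℝ} (h0 : 0 < w) (h1 : w < 1 / 2) (R : ℝ) : 0 < ss w R :=
  div_pos (sin2_pos h0 h1) (ssden_pos h0 h1 R)

lemma ss_cont {w : ℝ} (h0 : 0 < w) (h1 : w < 1 / 2) : Continuous (ss w) := by
  unfold ss
  exact continuous_const.div (by fun_prop) (fun R => (ssden_pos h0 h1 R).ne')

lemma gl_symm {w : ℝ} (h0 : 0 < w) (h1 : w < 1 / 2) (σ x : ℝ) :
    gl w σ x + gl w (-σ) x = 2 * (sg x * (σ ^ 2 * ka w x ^ 2 * ss w (σ ^ 2 * ka w x ^ 2))) := by
  rw [gl_eq, gl_eq]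
  have d1 : 0 < 1 - 2 * (σ * ka w x) * cos (π * w) + (σ * ka w x) ^ 2 :=
    lt_of_lt_of_le (pow_pos (sin_pw_pos h0 (by linarith)) 2) (den_ge _ _)
  have d2 : 0 < 1 - 2 * (-σ * ka w x) * cos (π * w) + (-σ * ka w x) ^ 2 :=
    lt_of_lt_of_le (pow_pos (sin_pw_pos h0 (by linarith)) 2) (den_ge _ _)
  have d3 := ssden_pos h0 h1 (σ ^ 2 * ka w x ^ 2)
  unfold ss
  have e3 : 1 - 2 * (σ ^ 2 * ka w x ^ 2) * cos (2 * (π * w)) + (σ ^ 2 * ka w x ^ 2) ^ 2 =
      (1 - 2 * (σ * ka w x) * cos (π * w) + (σ * ka w x) ^ 2) *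
      (1 - 2 * (-σ * ka w x) * cos (π * w) + (-σ * ka w x) ^ 2) := by
    rw [Real.cos_two_mul]; ring
  rw [e3, Real.sin_two_mul]
  generalize hA : 1 - 2 * (σ * ka w x) * cos (π * w) + (σ * ka w x) ^ 2 = A at *
  generalize hB : 1 - 2 * (-σ * ka w x) * cos (π * w) + (-σ * ka w x) ^ 2 = B at *
  have hBA : B = A + 4 * (σ * ka w x) * cos (π * w) := by rw [← hA, ← hB]; ring
  field_simp
  rw [hBA]
  ring

/-- the first measure -/
noncomputable def Q1 : Measure (ℝ × ℝ) := (volume : Measure ℝ).prod (volume.restrict (Ioc 0 (2 * π)))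

noncomputable def X1 (w : ℝ) (p : ℝ × ℝ) : ℝ := ka w p.1 ^ 2 * sin p.2 ^ 2

lemma ka_le {w : ℝ} (h0 : 0 < w) (h1 : w < 1) (x : ℝ) : ka w x ≤ 1 / w := by
  unfold ka
  rw [div_le_div_iff₀ (by positivity) h0]
  have : exp (w * x) ≤ 1 + exp x := by
    rcases le_total x 0 with h | h
    · have : exp (w * x) ≤ 1 := exp_le_one_iff.2 (by nlinarith)
      have := exp_pos x
      linarith
    · have : exp (w * x) ≤ exp x := exp_le_exp.2 (by nlinarith)
      linarith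
  nlinarith

lemma gl_prod_int {w : ℝ} (h0 : 0 < w) (h1 : w < 1) (l : ℝ) :
    Integrable (fun p : ℝ × ℝ => gl w (l * sin p.2) p.1) Q1 := by
  have hb : Integrable (fun p : ℝ × ℝ => |l| / sin (π * w) * ((sg p.1 * ka w p.1) * (1:ℝ))) Q1 :=
    ((sgka_int h0 h1).mul_prod (integrable_const (1:ℝ))).const_mul _
  refine Integrable.mono' hb ?_ (Eventually.of_forall fun p => ?_)
  · apply Measurable.aestronglyMeasurable
    have : (fun p : ℝ × ℝ => gl w (l * sin p.2) p.1) = fun p : ℝ × ℝ => sg p.1 * ((l * sin p.2) * ka w p.1 * sin (π * w) /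
        (1 - 2 * ((l * sin p.2) * ka w p.1) * cos (π * w) + ((l * sin p.2) * ka w p.1) ^ 2)) := by
      funext p; exact gl_eq _ _ _
    rw [this]
    unfold sg ka
    fun_prop
  · refine (gl_bound h0 h1 _ _).trans ?_
    have hs := sin_pw_pos h0 h1
    have hk := ka_pos h0 p.1
    have hg := sg_pos p.1
    rw [abs_mul, mul_one]
    apply mul_le_mul_of_nonneg_right _ (by positivity)
    apply div_le_div_of_nonneg_right _ hs.le
    exact mul_le_of_le_one_right (abs_nonneg _) (abs_sin_le_one _)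

lemma Tper_eq1 {w : ℝ} (h0 : 0 < w) (h1 : w < 1) (l : ℝ) :
    Tper w l = 2 * π - 1 / π * ∫ p, gl w (l * sin p.2) p.1 ∂Q1 := by
  have hi := gl_prod_int h0 h1 l
  unfold Q1 at hi ⊢
  rw [integral_prod_symm _ hi]
  unfold Tper
  have hp : (0:ℝ) ≤ 2 * π := by positivity
  rw [intervalIntegral.integral_of_le hp]
  simp only [Hs_eq h0 h1]
  rw [integral_sub (integrable_const _) (hi.integral_prod_right.const_mul _), integral_const_mul]
  simp
  exact Real.pi_pos.le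

lemma Q1_shift {f : ℝ → ℝ → ℝ} (hi : Integrable (fun p : ℝ × ℝ => f (sin p.2) p.1) Q1)
    (hi' : Integrable (fun p : ℝ × ℝ => f (-sin p.2) p.1) Q1) :
    ∫ p, f (sin p.2) p.1 ∂Q1 = ∫ p, f (-sin p.2) p.1 ∂Q1 := by
  unfold Q1 at *
  rw [integral_prod_symm _ hi, integral_prod_symm _ hi']
  simp only
  have hp : (0:ℝ) ≤ 2 * π := by positivity
  rw [← intervalIntegral.integral_of_le hp, ← intervalIntegral.integral_of_le hp]
  have hper : Function.Periodic (fun y : ℝ => ∫ x, f (sin y) x) (2 * π) := by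
    intro y; simp only [Real.sin_add_two_pi]
  have h := hper.intervalIntegral_add_eq 0 π
  rw [zero_add] at h
  rw [h]
  have h2 := intervalIntegral.integral_comp_add_right (a := 0) (b := 2 * π) (fun y : ℝ => ∫ x, f (sin y) x) π
  rw [zero_add, show 2 * π + π = π + 2 * π by ring] at h2
  rw [← h2]
  simp only [Real.sin_add_pi]

lemma Tper_eq2 {w : ℝ} (h0 : 0 < w) (h1 : w < 1 / 2) (l : ℝ) :
    Tper w l = 2 * π - l ^ 2 / π * ∫ p, ss w (l ^ 2 * X1 w p) * (X1 w p * sg p.1) ∂Q1 := by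
  have hw1 : w < 1 := by linarith
  rw [Tper_eq1 h0 hw1]
  have i1 := gl_prod_int h0 hw1 l
  have i2 : Integrable (fun p : ℝ × ℝ => gl w (l * -sin p.2) p.1) Q1 := by
    have := gl_prod_int h0 hw1 (-l)
    simpa using this
  have hsh := Q1_shift (f := fun s x => gl w (l * s) x) i1 i2
  have e : ∫ p, gl w (l * sin p.2) p.1 ∂Q1 =
      ∫ p, (1 / 2 : ℝ) * (gl w (l * sin p.2) p.1 + gl w (l * -sin p.2) p.1) ∂Q1 := by
    rw [integral_const_mul, integral_add i1 i2, ← hsh]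
    ring
  rw [e]
  have e2 : ∀ p : ℝ × ℝ, (1 / 2 : ℝ) * (gl w (l * sin p.2) p.1 + gl w (l * -sin p.2) p.1) =
      l ^ 2 * (ss w (l ^ 2 * X1 w p) * (X1 w p * sg p.1)) := by
    intro p
    have := gl_symm h0 h1 (l * sin p.2) p.1
    rw [mul_neg, this]
    unfold X1
    rw [show (l * sin p.2) ^ 2 * ka w p.1 ^ 2 = l ^ 2 * (ka w p.1 ^ 2 * sin p.2 ^ 2) by ring]
    ring
  simp only [e2]
  rw [integral_const_mul]
  ring

lemma ka_mom {w : ℝ} (h0 : 0 < w) (h1 : w < 1) {m : ℕ} (hm : 0 < m) :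
    Integrable (fun x => ka w x ^ (2 * m) * sg x) ∧
    ∫ x, ka w x ^ (2 * m) * sg x = (w ^ (2 * m))⁻¹ *
      (Gamma (1 + 2 * w * m) * Gamma (2 * (1 - w) * m) / (2 * m).factorial) := by
  have hm' : (0:ℝ) < m := by exact_mod_cast hm
  have hp : 0 < 1 + 2 * w * m := by positivity
  have hq : 0 < 2 * (1 - w) * m := by
    have : 0 < 1 - w := by linarith
    positivity
  have h := beta_int hp hq
  have hpq : 1 + 2 * w * m + 2 * (1 - w) * m = ((2 * m : ℕ) : ℝ) + 1 := by push_cast; ring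
  rw [hpq, Real.Gamma_nat_eq_factorial] at h
  have e : ∀ x : ℝ, ka w x ^ (2 * m) * sg x = (w ^ (2 * m))⁻¹ *
      (exp ((1 + 2 * w * m) * x) / (1 + exp x) ^ (((2 * m : ℕ) : ℝ) + 1)) := by
    intro x
    have hE : 0 < 1 + exp x := by positivity
    rw [show (((2 * m : ℕ) : ℝ) + 1) = ((2 * m + 1 : ℕ) : ℝ) by push_cast; ring, Real.rpow_natCast]
    unfold ka sg
    have e2 : exp ((1 + 2 * w * m) * x) = exp (w * x) ^ (2 * m) * exp x := by
      rw [← Real.exp_nat_mul, ← Real.exp_add]; congr 1; push_cast; ring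
    rw [e2, div_pow, mul_pow, pow_succ (1 + exp x) (2 * m)]
    field_simp
  simp only [e]
  exact ⟨h.1.const_mul _, by rw [integral_const_mul, h.2]⟩

lemma sin_mom_int (m : ℕ) : Integrable (fun θ : ℝ => sin θ ^ (2 * m)) (volume.restrict (Ioc 0 (2 * π))) := by
  have : Continuous (fun θ : ℝ => sin θ ^ (2 * m)) := by fun_prop
  exact (this.integrableOn_Icc (a := 0) (b := 2 * π)).mono_set Ioc_subset_Icc_self

lemma sin_mom' (m : ℕ) : ∫ θ, sin θ ^ (2 * m) ∂(volume.restrict (Ioc 0 (2 * π))) =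
    2 * π * ((2 * m).factorial / (4 ^ m * (m.factorial : ℝ) ^ 2)) := by
  rw [← sin_mom, intervalIntegral.integral_of_le (by positivity)]

lemma X1_mom {w : ℝ} (h0 : 0 < w) (h1 : w < 1) (n : ℕ) :
    Integrable (fun p => X1 w p ^ n * (X1 w p * sg p.1)) Q1 ∧
    ∫ p, X1 w p ^ n * (X1 w p * sg p.1) ∂Q1 =
      π / (1 - w) * ((4 * w ^ 2) ^ (n + 1))⁻¹ * am (2 * w) (2 * (1 - w)) ((n + 1 : ℕ) : ℝ) / ((n + 1 : ℕ) : ℝ) := by
  have e : ∀ p : ℝ × ℝ, X1 w p ^ n * (X1 w p * sg p.1) =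
      (ka w p.1 ^ (2 * (n + 1)) * sg p.1) * sin p.2 ^ (2 * (n + 1)) := by
    intro p; unfold X1; rw [pow_mul, pow_mul]; ring
  simp only [e]
  obtain ⟨i1, e1⟩ := ka_mom h0 h1 (Nat.succ_pos n)
  unfold Q1
  refine ⟨i1.mul_prod (sin_mom_int (n + 1)), ?_⟩
  rw [integral_prod_mul (fun x => ka w x ^ (2 * (n + 1)) * sg x) (fun θ => sin θ ^ (2 * (n + 1))), e1,
    sin_mom']
  unfold am
  have hm : (0:ℝ) < ((n + 1 : ℕ) : ℝ) := by positivity
  have h1w : 0 < 1 - w := by linarith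
  have hG : Gamma (1 + 2 * (1 - w) * ((n + 1 : ℕ) : ℝ)) = 2 * (1 - w) * ((n + 1 : ℕ) : ℝ) * Gamma (2 * (1 - w) * ((n + 1 : ℕ) : ℝ)) := by
    rw [add_comm 1 (2 * (1 - w) * ((n + 1 : ℕ) : ℝ)), Real.Gamma_add_one (by positivity)]
  have hG2 : Gamma (1 + ((n + 1 : ℕ) : ℝ)) = (n + 1).factorial := by
    rw [add_comm, Real.Gamma_nat_eq_factorial]
  rw [hG, hG2]
  have f1 : ((2 * (n + 1)).factorial : ℝ) ≠ 0 := by positivity
  have f2 : ((n + 1).factorial : ℝ) ≠ 0 := by positivity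
  simp only [Nat.succ_eq_add_one]
  rw [pow_mul w 2 (n + 1), mul_pow]
  generalize Gamma (1 + 2 * w * ((n + 1 : ℕ) : ℝ)) = A
  generalize Gamma (2 * (1 - w) * ((n + 1 : ℕ) : ℝ)) = B
  field_simp

noncomputable def BB (w : ℝ) : ℝ := exp (lM (2 * w) (2 * (1 - w))) / (4 * w ^ 2)

noncomputable def Q2 (μ : Measure ℝ) : Measure (ℝ × ℝ) := μ.prod (volume.restrict (Ioc 0 1))

lemma X2_mom {w : ℝ} (h0 : 0 < w) (h1 : w < 1) {μ : Measure ℝ} [IsProbabilityMeasure μ]
    (hs : ∀ᵐ x ∂μ, x ∈ Ioc (0:ℝ) 1)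
    (hm : ∀ j : ℕ, ∫ x, x ^ j ∂μ = am (2 * w) (2 * (1 - w)) j * exp (-(j * lM (2 * w) (2 * (1 - w))))) (n : ℕ) :
    Integrable (fun p : ℝ × ℝ => (BB w * p.1 * p.2) ^ n * (π / (1 - w) * (BB w * p.1))) (Q2 μ) ∧
    ∫ p, (BB w * p.1 * p.2) ^ n * (π / (1 - w) * (BB w * p.1)) ∂(Q2 μ) =
      π / (1 - w) * ((4 * w ^ 2) ^ (n + 1))⁻¹ * am (2 * w) (2 * (1 - w)) ((n + 1 : ℕ) : ℝ) / ((n + 1 : ℕ) : ℝ) := by
  have e : ∀ p : ℝ × ℝ, (BB w * p.1 * p.2) ^ n * (π / (1 - w) * (BB w * p.1)) =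
      π / (1 - w) * BB w ^ (n + 1) * (p.1 ^ (n + 1) * p.2 ^ n) := by
    intro p; ring
  simp only [e]
  unfold Q2
  have i1 : Integrable (fun x : ℝ => x ^ (n + 1)) μ := by
    refine Integrable.mono' (integrable_const (1:ℝ)) (by fun_prop) ?_
    filter_upwards [hs] with x hx
    rw [norm_pow, Real.norm_eq_abs, abs_of_pos hx.1]
    exact pow_le_one₀ hx.1.le hx.2
  have i2 : Integrable (fun x : ℝ => x ^ n) (volume.restrict (Ioc 0 1)) := by
    have : Continuous (fun θ : ℝ => θ ^ n) := by fun_prop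
    exact (this.integrableOn_Icc (a := 0) (b := 1)).mono_set Ioc_subset_Icc_self
  refine ⟨(i1.mul_prod i2).const_mul _, ?_⟩
  rw [integral_const_mul, integral_prod_mul (fun x : ℝ => x ^ (n + 1)) (fun x : ℝ => x ^ n), hm,
    ← intervalIntegral.integral_of_le zero_le_one, integral_pow]
  unfold BB
  rw [div_pow, ← Real.exp_nat_mul]
  have he : exp (((n + 1 : ℕ) : ℝ) * lM (2 * w) (2 * (1 - w))) * exp (-(((n + 1 : ℕ) : ℝ) * lM (2 * w) (2 * (1 - w)))) = 1 := by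
    rw [← Real.exp_add]; simp
  generalize exp (((n + 1 : ℕ) : ℝ) * lM (2 * w) (2 * (1 - w))) = E at *
  generalize exp (-(((n + 1 : ℕ) : ℝ) * lM (2 * w) (2 * (1 - w)))) = E' at *
  generalize am (2 * w) (2 * (1 - w)) ((n + 1 : ℕ) : ℝ) = A
  have h1w : 0 < 1 - w := by linarith
  have hn : ((n:ℝ) + 1) ≠ 0 := by positivity
  push_cast
  simp only [one_pow, ne_eq, Nat.add_eq_zero_iff, one_ne_zero, and_false, not_false_eq_true, zero_pow, sub_zero]
  field_simp
  linear_combination A * he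

/-- primitive of `ss` -/
noncomputable def DD (w R : ℝ) : ℝ := ∫ x in (0:ℝ)..R, ss w x

lemma DD_strictMono {w : ℝ} (h0 : 0 < w) (h1 : w < 1 / 2) : StrictMono (DD w) := by
  intro x y hxy
  unfold DD
  have hc := ss_cont h0 h1
  have h := intervalIntegral.integral_add_adjacent_intervals (hc.intervalIntegrable 0 x) (hc.intervalIntegrable x y) (μ := volume)
  have hpos : 0 < ∫ t in x..y, ss w t :=
    intervalIntegral.intervalIntegral_pos_of_pos (hc.intervalIntegrable x y) (ss_pos h0 h1) hxy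
  linarith

lemma DD_cont {w : ℝ} (h0 : 0 < w) (h1 : w < 1 / 2) : Continuous (DD w) := by
  unfold DD
  exact intervalIntegral.continuous_primitive (fun a b => (ss_cont h0 h1).intervalIntegrable a b) 0

theorem Tper_final {w : ℝ} (h0 : 0 < w) (h1 : w < 1 / 2) : ∃ μ : Measure ℝ, IsProbabilityMeasure μ ∧
    (∀ᵐ x ∂μ, x ∈ Ioc (0:ℝ) 1) ∧ ∀ l : ℝ, Tper w l = 2 * π - 1 / (1 - w) * ∫ t, DD w (l ^ 2 * BB w * t) ∂μ := by
  have hw1 : w < 1 := by linarith
  obtain ⟨μ, hμ, hs, hm⟩ := exists_mu (a := 2 * w) (b := 2 * (1 - w)) (by linarith) (by linarith) (by ring)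
  refine ⟨μ, hμ, hs, fun l => ?_⟩
  rw [Tper_eq2 h0 h1]
  have hBB : 0 < BB w := by unfold BB; positivity
  have hsupp2 : ∀ᵐ p ∂(Q2 μ), BB w * p.1 * p.2 ∈ Icc 0 (max (1 / w ^ 2) (BB w)) := by
    unfold Q2
    have a1 : ∀ᵐ p ∂(μ.prod (volume.restrict (Ioc (0:ℝ) 1))), p.1 ∈ Ioc (0:ℝ) 1 :=
      Measure.quasiMeasurePreserving_fst.ae hs
    have a2 : ∀ᵐ p ∂(μ.prod (volume.restrict (Ioc (0:ℝ) 1))), p.2 ∈ Ioc (0:ℝ) 1 :=
      Measure.quasiMeasurePreserving_snd.ae (ae_restrict_mem measurableSet_Ioc)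
    filter_upwards [a1, a2] with p hp1 hp2
    constructor
    · exact mul_nonneg (mul_nonneg hBB.le hp1.1.le) hp2.1.le
    · apply le_max_of_le_right
      calc BB w * p.1 * p.2 ≤ BB w * 1 * 1 :=
            mul_le_mul (mul_le_mul_of_nonneg_left hp1.2 hBB.le) hp2.2 hp2.1.le (by positivity)
        _ = BB w := by ring
  have hsupp1 : ∀ᵐ p ∂Q1, X1 w p ∈ Icc 0 (max (1 / w ^ 2) (BB w)) := by
    refine Eventually.of_forall fun p => ?_
    unfold X1
    constructor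
    · positivity
    · apply le_max_of_le_left
      have k1 := ka_le h0 hw1 p.1
      have k2 := ka_pos h0 p.1
      have k3 : sin p.2 ^ 2 ≤ 1 := sin_sq_le_one p.2
      have k4 : ka w p.1 ^ 2 ≤ (1 / w) ^ 2 := pow_le_pow_left₀ k2.le k1 2
      calc ka w p.1 ^ 2 * sin p.2 ^ 2 ≤ (1 / w) ^ 2 * 1 := mul_le_mul k4 k3 (by positivity) (by positivity)
        _ = 1 / w ^ 2 := by rw [mul_one, div_pow, one_pow]
  have hW := weier (Q₁ := Q1) (Q₂ := Q2 μ) (X₁ := X1 w) (g₁ := fun p => X1 w p * sg p.1)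
    (X₂ := fun p => BB w * p.1 * p.2) (g₂ := fun p => π / (1 - w) * (BB w * p.1))
    hsupp1 hsupp2 (by unfold X1 ka; fun_prop) (by fun_prop)
    (by simpa using (X1_mom h0 hw1 0).1) (by simpa using (X2_mom h0 hw1 hs hm 0).1)
    (fun n => by rw [(X1_mom h0 hw1 n).2, (X2_mom h0 hw1 hs hm n).2])
    (f := fun x => ss w (l ^ 2 * x)) ((ss_cont h0 h1).comp (by fun_prop))
  rw [hW]
  have hint : Integrable (fun p : ℝ × ℝ => ss w (l ^ 2 * (BB w * p.1 * p.2)) * (π / (1 - w) * (BB w * p.1))) (Q2 μ) := by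
    have i0 : Integrable (fun p : ℝ × ℝ => π / (1 - w) * (BB w * p.1)) (Q2 μ) := by
      simpa using (X2_mom h0 hw1 hs hm 0).1
    have hc : Continuous (fun x => ss w (l ^ 2 * x)) := (ss_cont h0 h1).comp (by fun_prop)
    obtain ⟨C, hC⟩ := isCompact_Icc.exists_bound_of_continuousOn (s := Icc (0:ℝ) (max (1 / w ^ 2) (BB w))) hc.continuousOn
    apply i0.bdd_mul (c := C) (Measurable.aestronglyMeasurable (hc.measurable.comp (by fun_prop : Measurable fun p : ℝ × ℝ => BB w * p.1 * p.2)))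
    filter_upwards [hsupp2] with x hx
    exact hC _ hx
  unfold Q2 at hint ⊢
  rw [integral_prod _ hint]
  have hin : ∀ t : ℝ, l ^ 2 * ∫ r, ss w (l ^ 2 * (BB w * t * r)) * (π / (1 - w) * (BB w * t)) ∂(volume.restrict (Ioc (0:ℝ) 1)) =
      π / (1 - w) * DD w (l ^ 2 * BB w * t) := by
    intro t
    rw [integral_mul_const, ← intervalIntegral.integral_of_le zero_le_one]
    unfold DD
    have h := intervalIntegral.mul_integral_comp_mul_left (a := 0) (b := 1) (c := l ^ 2 * BB w * t) (f := ss w)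
    rw [mul_zero, mul_one] at h
    rw [← h]
    have e : ∀ r : ℝ, l ^ 2 * (BB w * t * r) = l ^ 2 * BB w * t * r := by intro r; ring
    simp only [e]
    ring
  have h3 : l ^ 2 / π * ∫ t, ∫ r, ss w (l ^ 2 * (BB w * t * r)) * (π / (1 - w) * (BB w * t)) ∂(volume.restrict (Ioc (0:ℝ) 1)) ∂μ =
      1 / π * ∫ t, π / (1 - w) * DD w (l ^ 2 * BB w * t) ∂μ := by
    simp only [← hin]
    rw [integral_const_mul]
    ring
  rw [h3, integral_const_mul]
  have := Real.pi_pos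
  field_simp

/-- **Monotonicity of the period function** -/
theorem Tper_strictAnti {w : ℝ} (h0 : 0 < w) (h1 : w < 1 / 2) : StrictAntiOn (Tper w) (Ici 0) := by
  obtain ⟨μ, hμ, hs, hT⟩ := Tper_final h0 h1
  intro l₁ hl₁ l₂ hl₂ hl
  rw [mem_Ici] at hl₁ hl₂
  rw [hT, hT]
  have hBB : 0 < BB w := by unfold BB; positivity
  have hint : ∀ l : ℝ, Integrable (fun t => DD w (l ^ 2 * BB w * t)) μ := by
    intro l
    have hc : Continuous (fun t => DD w (l ^ 2 * BB w * t)) := (DD_cont h0 h1).comp (by fun_prop)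
    obtain ⟨C, hC⟩ := isCompact_Icc.exists_bound_of_continuousOn (s := Icc (0:ℝ) 1) hc.continuousOn
    refine Integrable.mono' (integrable_const C) hc.measurable.aestronglyMeasurable ?_
    filter_upwards [hs] with t ht using hC _ ⟨ht.1.le, ht.2⟩
  have hpos : 0 < ∫ t, (DD w (l₂ ^ 2 * BB w * t) - DD w (l₁ ^ 2 * BB w * t)) ∂μ := by
    have hnn : 0 ≤ᵐ[μ] fun t => DD w (l₂ ^ 2 * BB w * t) - DD w (l₁ ^ 2 * BB w * t) := by
      filter_upwards [hs] with t ht
      have : DD w (l₁ ^ 2 * BB w * t) < DD w (l₂ ^ 2 * BB w * t) := by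
        apply DD_strictMono h0 h1
        have : l₁ ^ 2 < l₂ ^ 2 := by nlinarith
        have h5 := mul_pos hBB ht.1
        nlinarith
      simp only [Pi.zero_apply]
      linarith
    rw [integral_pos_iff_support_of_nonneg_ae hnn ((hint l₂).sub (hint l₁))]
    have : (Function.support fun t => DD w (l₂ ^ 2 * BB w * t) - DD w (l₁ ^ 2 * BB w * t)) =ᵐ[μ] (univ : Set ℝ) := by
      rw [Filter.eventuallyEq_univ]
      filter_upwards [hs] with t ht
      have : DD w (l₁ ^ 2 * BB w * t) < DD w (l₂ ^ 2 * BB w * t) := by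
        apply DD_strictMono h0 h1
        have : l₁ ^ 2 < l₂ ^ 2 := by nlinarith
        have h5 := mul_pos hBB ht.1
        nlinarith
      rw [Function.mem_support]
      linarith
    rw [measure_congr this]
    simp
  rw [integral_sub (hint l₂) (hint l₁)] at hpos
  have h1w : 0 < 1 / (1 - w) := by
    have : 0 < 1 - w := by linarith
    positivity
  nlinarith

end H745
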