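import Pool.Agent.H745R2.P8

set_option autoImplicit false

open Real Set MeasureTheory Filter Topology

namespace H745

lemma Xi_cont {w : ℝ} (h0 : 0 < w) (h1 : w < 1) : Continuous (Xi w) := by
  have hm : StrictMono (fun x => -G w x) := fun x y h => neg_lt_neg (G_strictAnti h0 h1 h)
  have hs : Function.Surjective (fun x => -G w x) := by
    intro y
    obtain ⟨x, hx⟩ := G_surj h0 h1 (-y)
    exact ⟨x, by simp [hx]⟩
  let e := hm.orderIsoOfSurjective _ hs
  have he : Xi w = fun σ => e.symm (-σ) := by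
    funext σ
    rw [eq_comm, OrderIso.symm_apply_eq]
    show -σ = -G w (Xi w σ)
    rw [G_Xi h0 h1]
  rw [he]
  exact e.symm.continuous.comp continuous_neg

lemma G_hasDeriv {w : ℝ} (h0 : 0 < w) (h1 : w < 1) (x : ℝ) :
    HasDerivAt (G w) (-(w * exp ((1 - w) * x) / Hx w x)) x := by
  have hd := Hx_den_pos h0 h1 x
  have h2 : HasDerivAt (fun x : ℝ => exp (-(w * x))) (exp (-(w * x)) * -(w * 1)) x :=
    (((hasDerivAt_id x).const_mul w).neg).exp
  have h3 : HasDerivAt (fun x : ℝ => exp ((1 - w) * x)) (exp ((1 - w) * x) * ((1 - w) * 1)) x :=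
    ((hasDerivAt_id x).const_mul (1 - w)).exp
  have h := (h2.sub h3).const_mul w
  have e : -(w * exp ((1 - w) * x) / Hx w x) =
      w * (exp (-(w * x)) * -(w * 1) - exp ((1 - w) * x) * ((1 - w) * 1)) := by
    unfold Hx
    have e2 : exp (-(w * x)) = exp ((1 - w) * x) * exp (-x) := by
      rw [← Real.exp_add]; ring_nf
    rw [e2]
    field_simp
    ring
  rw [e]
  exact h

lemma Hx_pos {w : ℝ} (h0 : 0 < w) (h1 : w < 1) (x : ℝ) : 0 < Hx w x := by
  unfold Hx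
  exact one_div_pos.2 (Hx_den_pos h0 h1 x)

lemma Xi_hasDeriv {w : ℝ} (h0 : 0 < w) (h1 : w < 1) (σ : ℝ) :
    HasDerivAt (Xi w) (-(w * exp ((1 - w) * Xi w σ) / Hx w (Xi w σ)))⁻¹ σ := by
  have hH := Hx_pos h0 h1 (Xi w σ)
  apply HasDerivAt.of_local_left_inverse (Xi_cont h0 h1).continuousAt (G_hasDeriv h0 h1 (Xi w σ))
  · apply neg_ne_zero.2
    positivity
  · exact Eventually.of_forall fun y => G_Xi h0 h1 y

lemma Hs_cont {w : ℝ} (h0 : 0 < w) (h1 : w < 1) : Continuous (Hs w) := by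
  have hX := Xi_cont h0 h1
  unfold Hs Hx
  apply Continuous.div continuous_const (by fun_prop)
  intro σ
  exact (Hx_den_pos h0 h1 _).ne'

lemma Hs_pos {w : ℝ} (h0 : 0 < w) (h1 : w < 1) (σ : ℝ) : 0 < Hs w σ := Hx_pos h0 h1 _

/-- the polar radius -/
noncomputable def rr (w : ℝ) (N k : ℕ) (s θ : ℝ) : ℝ :=
  s * exp (-((1 - w) * Xi w (s ^ N * sin (k * θ)) / N))

lemma rr_pow {w : ℝ} {N k : ℕ} (hN : 0 < N) (s θ : ℝ) :
    rr w N k s θ ^ N = s ^ N * exp (-((1 - w) * Xi w (s ^ N * sin (k * θ)))) := by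
  unfold rr
  have hN' : (N:ℝ) ≠ 0 := by exact_mod_cast hN.ne'
  rw [mul_pow, ← Real.exp_nat_mul]
  congr 2
  field_simp

lemma rr_sin {w : ℝ} (h0 : 0 < w) (h1 : w < 1) {N k : ℕ} (hN : 0 < N) (s θ : ℝ) :
    1 + rr w N k s θ ^ N * sin (k * θ) = 1 / Hs w (s ^ N * sin (k * θ)) := by
  rw [rr_pow hN]
  set σ := s ^ N * sin (k * θ) with hσ
  have hG := G_Xi h0 h1 σ
  unfold Hs Hx
  rw [one_div_one_div]
  have e : s ^ N * exp (-((1 - w) * Xi w σ)) * sin (k * θ) = σ * exp (-((1 - w) * Xi w σ)) := by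
    rw [hσ]; ring
  rw [e]
  generalize Xi w σ = x at *
  rw [← hG]
  unfold G
  have e1 : exp (-(w * x)) * exp (-((1 - w) * x)) = exp (-x) := by
    rw [← Real.exp_add]; ring_nf
  have e2 : exp ((1 - w) * x) * exp (-((1 - w) * x)) = 1 := by
    rw [← Real.exp_add]; simp
  linear_combination w * e1 - w * e2

lemma rr_hasDeriv {w : ℝ} (h0 : 0 < w) (h1 : w < 1) {N k : ℕ} (hN : 0 < N)
    (hk : (1 - w) * k = w * N) (s θ : ℝ) :
    HasDerivAt (rr w N k s) (Hs w (s ^ N * sin (k * θ)) * (rr w N k s θ ^ (N + 1) * cos (k * θ))) θ := by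
  set σ := s ^ N * sin (k * θ) with hσ
  have hN' : (N:ℝ) ≠ 0 := by exact_mod_cast hN.ne'
  have d1 : HasDerivAt (fun θ : ℝ => s ^ N * sin (k * θ)) (s ^ N * (cos (k * θ) * (k * 1))) θ :=
    ((((hasDerivAt_id θ).const_mul (k:ℝ)).sin)).const_mul _
  have d2 := (Xi_hasDeriv h0 h1 σ).comp θ d1
  have d3 := ((((d2.const_mul (1 - w)).div_const (N:ℝ)).neg).exp).const_mul s
  have e : Hs w σ * (rr w N k s θ ^ (N + 1) * cos (k * θ)) =
      s * (exp (-((1 - w) * (Xi w ∘ fun θ => s ^ N * sin (↑k * θ)) θ / ↑N)) *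
        -((1 - w) * ((-(w * exp ((1 - w) * Xi w σ) / Hx w (Xi w σ)))⁻¹ * (s ^ N * (cos (↑k * θ) * (↑k * 1)))) / ↑N)) := by
    have hr : rr w N k s θ = s * exp (-((1 - w) * Xi w σ / N)) := rfl
    rw [pow_succ, rr_pow hN, hr, ← hσ]
    simp only [Function.comp_apply, ← hσ]
    have hH := Hx_pos h0 h1 (Xi w σ)
    have e1 : exp (-((1 - w) * Xi w σ)) = (exp ((1 - w) * Xi w σ))⁻¹ := Real.exp_neg _
    unfold Hs
    rw [e1]
    have hE := Real.exp_pos ((1 - w) * Xi w σ)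
    have hkk : (k:ℝ) = w * N / (1 - w) := by
      have : 1 - w ≠ 0 := by linarith
      field_simp
      linarith
    have h1w : 1 - w ≠ 0 := by linarith
    generalize exp (-((1 - w) * Xi w σ / N)) = E2
    generalize exp ((1 - w) * Xi w σ) = E at *
    generalize Hx w (Xi w σ) = H at *
    generalize cos (↑k * θ) = C
    rw [hkk]
    field_simp
  rw [e]
  exact d3

end H745
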